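import Pool.Agent.K3h75.TO.StmB

/-!
# Algebraic tori over number fields: formal identities for the generators of the graded algebra
-/

set_option autoImplicit false
set_option linter.unusedSectionVars false
set_option linter.overlappingInstances false

namespace Pool.Agent.K3h75.TO

open Pool.Agent.Y223.G Pool.Agent.W418.LU2 MvPolynomial Module

section op

/-- `(X - 1) ^ p = (X ^ p - 1) + p (X - 1) h`. -/
lemma poly_id {p : ℕ} (hp : p.Prime) : ∃ h : Polynomial ℤ,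
    (Polynomial.X - 1) ^ p = (Polynomial.X ^ p - 1) +
      Polynomial.C (p : ℤ) * (h * (Polynomial.X - 1)) := by
  have : Fact p.Prime := ⟨hp⟩
  have h1 : Polynomial.C (p : ℤ) ∣ (Polynomial.X - 1) ^ p - (Polynomial.X ^ p - 1) := by
    rw [Polynomial.C_dvd_iff_dvd_coeff]
    intro i
    rw [← ZMod.intCast_zmod_eq_zero_iff_dvd]
    have h2 : (((Polynomial.X - 1) ^ p - (Polynomial.X ^ p - 1) : Polynomial ℤ).map
        (Int.castRingHom (ZMod p))).coeff i = 0 := by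
      have h3 : (((Polynomial.X - 1) ^ p - (Polynomial.X ^ p - 1) : Polynomial ℤ).map
        (Int.castRingHom (ZMod p))) = 0 := by
        simp only [Polynomial.map_sub, Polynomial.map_pow, Polynomial.map_X, Polynomial.map_one]
        rw [sub_pow_char, one_pow, sub_self]
      rw [h3, Polynomial.coeff_zero]
    rw [Polynomial.coeff_map] at h2
    exact h2
  obtain ⟨g, hg⟩ := h1
  have h4 : Polynomial.eval 1 g = 0 := by
    have h5 := congrArg (Polynomial.eval 1) hg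
    simp only [Polynomial.eval_sub, Polynomial.eval_pow, Polynomial.eval_X, Polynomial.eval_one,
      Polynomial.eval_mul, Polynomial.eval_C, sub_self, one_pow, zero_pow hp.ne_zero] at h5
    rcases mul_eq_zero.1 h5.symm with h6 | h6
    · exact absurd h6 (by exact_mod_cast hp.ne_zero)
    · exact h6
  obtain ⟨h, hh⟩ := Polynomial.dvd_iff_isRoot.2 h4
  refine ⟨h, ?_⟩
  have h7 : (Polynomial.C (1 : ℤ)) = 1 := Polynomial.C_1
  rw [h7] at hh
  rw [← sub_eq_iff_eq_add', hg, hh]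
  ring

variable {K : Type} [CommRing K]

/-- `df ς` as an endomorphism. -/
lemma df_iter_eq (ς : K →+ K) (a : ℕ) (y : K) :
    (df ς)^[a] y = (((ς.toIntLinearMap : Module.End ℤ K) - 1) ^ a) y := by
  induction a generalizing y with
  | zero => rfl
  | succ a ih =>
    rw [Function.iterate_succ_apply, ih, pow_succ, Module.End.mul_apply]
    rfl

lemma iter_eq (ς : K →+ K) (a : ℕ) (y : K) :
    ς^[a] y = ((ς.toIntLinearMap : Module.End ℤ K) ^ a) y := by
  induction a generalizing y with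
  | zero => rfl
  | succ a ih =>
    rw [Function.iterate_succ_apply, ih, pow_succ, Module.End.mul_apply]
    rfl

/-- `(ς - 1) ^ p` is divisible by `p (ς - 1)` if `ς ^ p = 1`. -/
lemma df_pow_p {p : ℕ} (hp : p.Prime) (ς : K →+ K) (hς : ∀ y, ς^[p] y = y) :
    ∃ (N : ℕ) (h : ℕ → ℤ), ∀ y, (df ς)^[p] y =
      (p : K) * ∑ k ∈ Finset.range N, (h k : K) * ς^[k] (df ς y) := by
  obtain ⟨h, hh⟩ := poly_id hp
  refine ⟨h.natDegree + 1, h.coeff, fun y => ?_⟩
  set s : Module.End ℤ K := ς.toIntLinearMap with hs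
  have h1 := congrArg (Polynomial.aeval s) hh
  simp only [map_add, map_sub, map_mul, map_pow, Polynomial.aeval_X, map_one,
    Polynomial.aeval_C] at h1
  have h2 : (s ^ p - 1) y = 0 := by
    rw [LinearMap.sub_apply, ← iter_eq, hς]
    exact sub_self y
  rw [df_iter_eq, ← hs, h1, LinearMap.add_apply, h2, zero_add]
  have h3 : (algebraMap ℤ (Module.End ℤ K) (p : ℤ) * (Polynomial.aeval s h * (s - 1))) y =
      (p : K) * (Polynomial.aeval s h) (df ς y) := by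
    rw [Module.End.mul_apply, Module.algebraMap_end_apply, Module.End.mul_apply, natCast_zsmul,
      nsmul_eq_mul]
    rfl
  rw [h3, Polynomial.aeval_eq_sum_range]
  congr 1
  rw [LinearMap.sum_apply]
  refine Finset.sum_congr rfl fun k _ => ?_
  rw [LinearMap.smul_apply, ← iter_eq, zsmul_eq_mul]

lemma df_iter_add (ς : K →+ K) (a : ℕ) (y z : K) :
    (df ς)^[a] (y + z) = (df ς)^[a] y + (df ς)^[a] z := by
  rw [df_iter_eq, df_iter_eq, df_iter_eq, map_add]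

lemma df_iter_sub (ς : K →+ K) (a : ℕ) (y z : K) :
    (df ς)^[a] (y - z) = (df ς)^[a] y - (df ς)^[a] z := by
  rw [df_iter_eq, df_iter_eq, df_iter_eq, map_sub]

lemma iter_df_comm (ς : K →+ K) (a k : ℕ) (y : K) :
    ς^[k] ((df ς)^[a] y) = (df ς)^[a] (ς^[k] y) := by
  rw [df_iter_eq, df_iter_eq, iter_eq, iter_eq, ← Module.End.mul_apply, ← Module.End.mul_apply]
  congr 1
  exact ((Commute.refl _).sub_right (Commute.one_right _)).pow_pow k a

/-- `ς ^ f - 1` -/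
lemma iter_sub_one (ς : K →+ K) (f : ℕ) (y : K) :
    ς^[f] y - y = ∑ i ∈ Finset.range f, ς^[i] (df ς y) := by
  induction f with
  | zero => simp
  | succ f ih =>
    rw [Finset.sum_range_succ, ← ih, Function.iterate_succ_apply']
    have h1 : ς^[f] (df ς y) = ς^[f] (ς y) - ς^[f] y := by
      rw [iter_eq, iter_eq, iter_eq, ← map_sub]
      rfl
    rw [h1, ← Function.iterate_succ_apply, Function.iterate_succ_apply']
    ring

end op

section lat

variable {Λ : Type} [AddCommGroup Λ] (τ : Λ →+ Λ) (p : ℕ)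

lemma Nm_add (a b : Λ) : Nm τ p (a + b) = Nm τ p a + Nm τ p b := by
  unfold Nm
  rw [← Finset.sum_add_distrib]
  exact Finset.sum_congr rfl fun k _ => iterate_map_add τ k a b

lemma Nm_zero : Nm τ p 0 = 0 := by
  unfold Nm
  exact Finset.sum_eq_zero fun k _ => iterate_map_zero τ k

lemma Nm_neg (a : Λ) : Nm τ p (-a) = -Nm τ p a := by
  unfold Nm
  rw [← Finset.sum_neg_distrib]
  exact Finset.sum_congr rfl fun k _ => iterate_map_neg τ k a

lemma Nm_sub (a b : Λ) : Nm τ p (a - b) = Nm τ p a - Nm τ p b := by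
  rw [sub_eq_add_neg, Nm_add, Nm_neg, sub_eq_add_neg]

variable {τ p}

lemma Nm_map (hτ : ∀ a, τ^[p] a = a) (a : Λ) : Nm τ p (τ a) = Nm τ p a := by
  unfold Nm
  have h1 : ∀ k, τ^[k] (τ a) = τ^[k + 1] a := fun k => by rw [Function.iterate_succ_apply]
  simp_rw [h1]
  have h2 := Finset.sum_range_succ' (fun k => τ^[k] a) p
  rw [Finset.sum_range_succ, hτ] at h2
  exact (add_right_cancel h2).symm

lemma Nm_iter (hτ : ∀ a, τ^[p] a = a) (k : ℕ) (a : Λ) : Nm τ p (τ^[k] a) = Nm τ p a := by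
  induction k with
  | zero => rfl
  | succ k ih => rw [Function.iterate_succ_apply', Nm_map hτ, ih]

end lat

/-- The iterate of an automorphism. -/
def sg {K : Type} [CommRing K] (σ : K ≃+* K) (e : ℕ) : K →+ K where
  toFun := σ^[e]
  map_zero' := iterate_map_zero σ e
  map_add' := iterate_map_add σ e

lemma sg_apply {K : Type} [CommRing K] (σ : K ≃+* K) (e : ℕ) (y : K) : sg σ e y = σ^[e] y := rfl

section wb

variable {Λ O K : Type} [AddCommGroup Λ] [CommRing O] [Field K] [Algebra O K]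
  {x : Λ → K} {σ : K ≃+* K} {τ : Λ →+ Λ} {p l : ℕ} {𝔓 : Ideal O} {P : Finset Λ} {s : K}

lemma WB_T : hm (-1) 1 ∈ WB x σ τ p l 𝔓 P s :=
  Algebra.subset_adjoin (Or.inl (Or.inl (Or.inl rfl)))

lemma WB_e {e : O} (he : e ∈ 𝔓) : hm 1 (algebraMap O K e) ∈ WB x σ τ p l 𝔓 P s :=
  Algebra.subset_adjoin (Or.inl (Or.inl (Or.inr ⟨e, he, rfl⟩)))

lemma WB_x {μ : Λ} (hμ : μ ∈ P) : hm 0 (x μ / s) ∈ WB x σ τ p l 𝔓 P s :=
  Algebra.subset_adjoin (Or.inl (Or.inr ⟨μ, hμ, rfl⟩))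

lemma WB_D {e a : ℕ} {μ ν : Λ} (h1 : 1 ≤ e) (h2 : e < p) (ha : a < p) (hμ : μ ∈ P) (hν : ν ∈ P)
    (h : Nm τ p (μ - ν) = 0) : hm (((a + 1) * l : ℕ) : ℤ)
      ((df (σ^[e]))^[a] (x μ - x ν) / s) ∈ WB x σ τ p l 𝔓 P s :=
  Algebra.subset_adjoin (Or.inr ⟨e, a, μ, ν, h1, h2, ha, hμ, hν, h, rfl⟩)

lemma WB_gr : Gr (WB x σ τ p l 𝔓 P s) := by
  refine gr_adjoin _ ?_
  rintro f (((rfl | ⟨e, he, rfl⟩) | ⟨μ, hμ, rfl⟩) | ⟨e, a, μ, ν, -, -, -, -, -, -, rfl⟩)
  exacts [⟨_, _, rfl⟩, ⟨_, _, rfl⟩, ⟨_, _, rfl⟩, ⟨_, _, rfl⟩]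

/-- A graded algebra with `T⁻¹`: one can lower the degree. -/
lemma down {R : Subalgebra O (LP K)} (hT : hm (-1) 1 ∈ R) {d d' : ℤ} {y : K} (h : hm d y ∈ R)
    (hd : d' ≤ d) : hm d' y ∈ R := by
  have h1 := R.mul_mem (R.pow_mem hT (d - d').toNat) h
  rw [hm_pow, hm_mul, one_pow, one_mul] at h1
  convert h1 using 2
  have := Int.toNat_of_nonneg (show 0 ≤ d - d' by omega)
  rw [this]
  ring

lemma WB_down {d d' : ℤ} {y : K} (h : hm d y ∈ WB x σ τ p l 𝔓 P s) (hd : d' ≤ d) :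
    hm d' y ∈ WB x σ τ p l 𝔓 P s := down WB_T h hd

lemma WB_pow {k : ℕ} {o : O} (ho : o ∈ 𝔓 ^ k) :
    hm k (algebraMap O K o) ∈ WB x σ τ p l 𝔓 P s := by
  induction k generalizing o with
  | zero => exact (WB x σ τ p l 𝔓 P s).algebraMap_mem o
  | succ k ih =>
    rw [pow_succ] at ho
    refine Submodule.mul_induction_on ho ?_ ?_
    · intro a ha b hb
      have h1 := (WB x σ τ p l 𝔓 P s).mul_mem (ih ha) (WB_e (x := x) (σ := σ) (τ := τ) (p := p)
        (l := l) (P := P) (s := s) hb)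
      rw [hm_mul, ← map_mul] at h1
      convert h1 using 2
      push_cast
      ring
    · intro a b ha hb
      rw [map_add, hm_add]
      exact Subalgebra.add_mem _ ha hb

lemma WB_pow_mul {k : ℕ} {o : O} (ho : o ∈ 𝔓 ^ k) {d : ℤ} {y : K}
    (hy : hm d y ∈ WB x σ τ p l 𝔓 P s) :
    hm (k + d) (algebraMap O K o * y) ∈ WB x σ τ p l 𝔓 P s := by
  rw [← hm_mul]
  exact Subalgebra.mul_mem _ (WB_pow ho) hy

variable (s) in
/-- The elements of degree `d`, multiplied by `s`. -/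
def Vd (x : Λ → K) (σ : K ≃+* K) (τ : Λ →+ Λ) (p l : ℕ) (𝔓 : Ideal O) (P : Finset Λ) (d : ℤ) :
    AddSubgroup K where
  carrier := {y | hm d (y / s) ∈ WB x σ τ p l 𝔓 P s}
  zero_mem' := by
    change hm d (0 / s) ∈ WB x σ τ p l 𝔓 P s
    rw [zero_div, hm_zero]
    exact Subalgebra.zero_mem _
  add_mem' := by
    intro a b ha hb
    change hm d ((a + b) / s) ∈ WB x σ τ p l 𝔓 P s
    rw [add_div, hm_add]
    exact Subalgebra.add_mem _ ha hb
  neg_mem' := by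
    intro a ha
    change hm d (-a / s) ∈ WB x σ τ p l 𝔓 P s
    rw [neg_div, hm_neg]
    exact Subalgebra.neg_mem _ ha

lemma mem_Vd {d : ℤ} {y : K} : y ∈ Vd s x σ τ p l 𝔓 P d ↔ hm d (y / s) ∈ WB x σ τ p l 𝔓 P s :=
  Iff.rfl

end wb

section chr

variable {Λ O K : Type} [AddCommGroup Λ] [CommRing O] [IsDomain O] [Field K] [Algebra O K]
  {x : Λ → K}

lemma Chr.inj (h : Chr Λ O K x) : Function.Injective x := h.ind.injective

lemma Chr.injO (h : Chr Λ O K x) : Function.Injective (algebraMap O K) := by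
  rw [injective_iff_map_eq_zero]
  intro o ho
  have h1 := h.ind
  rw [linearIndependent_iff'] at h1
  have h2 := h1 {0} (fun _ => o) (by
    rw [Finset.sum_singleton, h.zero, Algebra.smul_def, mul_one, ho]) 0 (Finset.mem_singleton_self _)
  exact h2

lemma Chr.ne (h : Chr Λ O K x) (a : Λ) : x a ≠ 0 := by
  intro h1
  have h2 := h.add a (-a)
  rw [add_neg_cancel, h1, zero_mul, h.zero] at h2
  exact one_ne_zero h2

lemma Chr.neg (h : Chr Λ O K x) (a : Λ) : x (-a) = (x a)⁻¹ := by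
  refine eq_inv_of_mul_eq_one_left ?_
  rw [← h.add, neg_add_cancel, h.zero]

lemma Chr.sub (h : Chr Λ O K x) (a b : Λ) : x (a - b) = x a / x b := by
  rw [sub_eq_add_neg, h.add, h.neg, div_eq_mul_inv]

lemma Chr.nsmul (h : Chr Λ O K x) (k : ℕ) (a : Λ) : x (k • a) = x a ^ k := by
  induction k with
  | zero => rw [zero_smul, h.zero, pow_zero]
  | succ k ih => rw [succ_nsmul, h.add, ih, pow_succ]

end chr

section wd

variable {Λ O K : Type} [AddCommGroup Λ] [CommRing O] [IsDomain O] [IsDedekindDomain O]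
  [Field K] [Algebra O K] {x : Λ → K} {σ : K ≃+* K} {t : O ≃+* O} {τ : Λ →+ Λ} {p l : ℕ}
  {𝔓 : Ideal O}

lemma Wd.it (h : Wd Λ O K x σ t τ p l 𝔓) (k : ℕ) (a : Λ) : σ^[k] (x a) = x (τ^[k] a) := by
  induction k generalizing a with
  | zero => rfl
  | succ k ih => rw [Function.iterate_succ_apply, h.act, ih, Function.iterate_succ_apply]

lemma Wd.tp (h : Wd Λ O K x σ t τ p l 𝔓) (a : Λ) : τ^[p] a = a := by
  apply h.toChr.inj
  rw [← h.it, h.ord]

lemma iter_mul_it {A : Type} (f : A → A) (a b : ℕ) (y : A) : (f^[a])^[b] y = f^[a * b] y := by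
  rw [Function.iterate_mul]

lemma Wd.itp (h : Wd Λ O K x σ t τ p l 𝔓) (k : ℕ) (a : Λ) : τ^[p * k] a = a := by
  rw [Function.iterate_mul]
  induction k with
  | zero => rfl
  | succ k ih => rw [Function.iterate_succ_apply, h.tp, ih]

lemma Wd.sitp (h : Wd Λ O K x σ t τ p l 𝔓) (k : ℕ) (y : K) : σ^[p * k] y = y := by
  rw [Function.iterate_mul]
  induction k with
  | zero => rfl
  | succ k ih => rw [Function.iterate_succ_apply, h.ord, ih]

/-- `σ` is a power of `σ ^ e`. -/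
lemma Wd.ex (h : Wd Λ O K x σ t τ p l 𝔓) {e : ℕ} (h1 : 1 ≤ e) (h2 : e < p) :
    ∃ f : ℕ, ∀ y : K, (σ^[e])^[f] y = σ y := by
  have hc : Nat.Coprime e p := (Nat.coprime_of_lt_prime (by omega) h2 h.pp).symm
  obtain ⟨f, -, hf⟩ := Nat.exists_mul_mod_eq_one_of_coprime hc h.pp.one_lt
  refine ⟨f, fun y => ?_⟩
  rw [iter_mul_it]
  have h3 := Nat.div_add_mod (e * f) p
  rw [hf] at h3
  rw [← h3, Function.iterate_add_apply, Function.iterate_one, h.sitp]

lemma Wd.sgp (h : Wd Λ O K x σ t τ p l 𝔓) (e : ℕ) (y : K) : (sg σ e)^[p] y = y := by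
  change (σ^[e])^[p] y = y
  rw [iter_mul_it, mul_comm, h.sitp]

/-- `σ ^ (e i) D (μ, ν) = D (τ ^ (e i) μ, τ ^ (e i) ν)`. -/
lemma Wd.sgD (h : Wd Λ O K x σ t τ p l 𝔓) (e a i : ℕ) (μ ν : Λ) :
    (sg σ e)^[i] ((df (σ^[e]))^[a] (x μ - x ν)) =
      (df (σ^[e]))^[a] (x (τ^[e * i] μ) - x (τ^[e * i] ν)) := by
  have h1 := iter_df_comm (sg σ e) a i (x μ - x ν)
  change (sg σ e)^[i] ((df (sg σ e))^[a] (x μ - x ν)) = _
  rw [h1]
  change (df (σ^[e]))^[a] _ = _
  congr 1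
  change (σ^[e])^[i] (x μ - x ν) = _
  rw [iter_mul_it, iterate_map_sub, h.it, h.it]

variable {P : Finset Λ}

lemma P_iter {τ : Λ →+ Λ} {P : Finset Λ} (hst : ∀ a ∈ P, τ a ∈ P) (k : ℕ) {a : Λ} (ha : a ∈ P) :
    τ^[k] a ∈ P := by
  induction k with
  | zero => exact ha
  | succ k ih => rw [Function.iterate_succ_apply']; exact hst _ ih

lemma Wd.p_mem (h : Wd Λ O K x σ t τ p l 𝔓) : (p : O) ∈ 𝔓 := by
  have h1 := h.pl
  have h2 : (p - 1) * l ≠ 0 := by
    have := h.pp.two_le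
    have := h.l1
    exact Nat.mul_ne_zero (by omega) (by omega)
  exact Ideal.pow_le_self h2 h1

/-- `D_(e, a + 1) (σ^(e i) μ, σ^(e i) ν)` -/
lemma Wd.D_mem (h : Wd Λ O K x σ t τ p l 𝔓) (hst : ∀ a ∈ P, τ a ∈ P) (s : K) {e a : ℕ} (i : ℕ)
    {μ ν : Λ} (h1 : 1 ≤ e) (h2 : e < p) (ha : a < p) (hμ : μ ∈ P) (hν : ν ∈ P)
    (hN : Nm τ p (μ - ν) = 0) :
    (sg σ e)^[i] ((df (σ^[e]))^[a] (x μ - x ν)) ∈
      Vd s x σ τ p l 𝔓 P ((((a + 1) * l : ℕ)) : ℤ) := by
  rw [h.sgD]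
  refine WB_D h1 h2 ha (P_iter hst _ hμ) (P_iter hst _ hν) ?_
  rw [Nm_sub, Nm_iter h.tp, Nm_iter h.tp, ← Nm_sub, hN]

/-- **FRM**, for the monomials. -/
lemma Wd.frm0 (h : Wd Λ O K x σ t τ p l 𝔓) (hst : ∀ a ∈ P, τ a ∈ P) (s : K) {μ : Λ} (hμ : μ ∈ P) :
    σ (x μ) - x μ ∈ Vd s x σ τ p l 𝔓 P l := by
  have h1 := WB_D (x := x) (σ := σ) (τ := τ) (p := p) (l := l) (𝔓 := 𝔓) (P := P) (s := s)
    (e := 1) (a := 0) (μ := τ μ) (ν := μ) le_rfl h.pp.one_lt h.pp.pos (hst _ hμ) hμ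
    (by rw [Nm_sub, Nm_map h.tp, sub_self])
  rw [mem_Vd, h.act]
  simpa using h1

/-- **FRM**, for the differences. -/
lemma Wd.frm1 (h : Wd Λ O K x σ t τ p l 𝔓) (hst : ∀ a ∈ P, τ a ∈ P) (s : K) {e a : ℕ}
    {μ ν : Λ} (h1 : 1 ≤ e) (h2 : e < p) (ha : a < p) (hμ : μ ∈ P) (hν : ν ∈ P)
    (hN : Nm τ p (μ - ν) = 0) :
    σ ((df (σ^[e]))^[a] (x μ - x ν)) - (df (σ^[e]))^[a] (x μ - x ν) ∈
      Vd s x σ τ p l 𝔓 P ((((a + 1) * l : ℕ) : ℤ) + l) := by
  obtain ⟨f, hf⟩ := h.ex h1 h2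
  have h3 : σ ((df (σ^[e]))^[a] (x μ - x ν)) - (df (σ^[e]))^[a] (x μ - x ν) =
      ∑ i ∈ Finset.range f, (sg σ e)^[i] ((df (σ^[e]))^[a + 1] (x μ - x ν)) := by
    rw [← hf, Function.iterate_succ_apply']
    exact iter_sub_one (sg σ e) f _
  rw [h3]
  refine AddSubgroup.sum_mem _ fun i _ => ?_
  by_cases hap : a + 1 < p
  · have h4 := h.D_mem hst s i h1 h2 hap hμ hν hN
    rw [mem_Vd] at h4 ⊢
    convert h4 using 2
    push_cast
    ring
  · have hap' : a + 1 = p := by omega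
    obtain ⟨N, c, hc⟩ := df_pow_p h.pp (sg σ e) (h.sgp e)
    rw [hap']
    have h5 : (sg σ e)^[i] ((df (σ^[e]))^[p] (x μ - x ν)) =
        (p : K) * ∑ k ∈ Finset.range N, (c k : K) *
          (sg σ e)^[k] ((df (σ^[e]))^[1] (x (τ^[e * i] μ) - x (τ^[e * i] ν))) := by
      rw [h.sgD]
      exact hc _
    rw [h5, mem_Vd, mul_div_assoc]
    have h6 : (∑ k ∈ Finset.range N, (c k : K) *
          (sg σ e)^[k] ((df (σ^[e]))^[1] (x (τ^[e * i] μ) - x (τ^[e * i] ν)))) ∈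
        Vd s x σ τ p l 𝔓 P ((((1 + 1) * l : ℕ)) : ℤ) := by
      refine AddSubgroup.sum_mem _ fun k _ => ?_
      rw [← zsmul_eq_mul]
      refine AddSubgroup.zsmul_mem _ ?_ _
      refine h.D_mem hst s k h1 h2 h.pp.one_lt (P_iter hst _ hμ) (P_iter hst _ hν) ?_
      rw [Nm_sub, Nm_iter h.tp, Nm_iter h.tp, ← Nm_sub, hN]
    have h7 := WB_pow_mul h.pl h6
    rw [map_natCast] at h7
    convert h7 using 2
    have h8 : ((p - 1 : ℕ) : ℤ) = a := by omega
    have h9 : (p : ℤ) = a + 1 := by omega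
    push_cast
    rw [h8, h9]
    ring

end wd

end Pool.Agent.K3h75.TO
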