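import Pool.Agent.K3h75.TO.Rq

/-!
# Algebraic tori over number fields: the weighted filtration at a fixed point
-/

set_option autoImplicit false
set_option linter.unusedSectionVars false
set_option linter.overlappingInstances false

namespace Pool.Agent.K3h75.TO

open Pool.Agent.Y223.G Pool.Agent.W418.LU2 MvPolynomial Module Pool.Agent.Y614.WC
open Pool.Agent.K3h8.FixZ (Nn mn_add mn_zero)

/-- The index set of the parameters. -/
abbrev PI (r m p : ℕ) : Type := Option ((Fin r × Fin (p - 1)) ⊕ (Fin m × Fin (p - 1)))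

/-- The weights of the parameters. -/
def wP (l r m p : ℕ) : PI r m p → ℕ
  | none => 1
  | some (Sum.inl (_, a)) => (a + 1) * l
  | some (Sum.inr (_, a)) => (a + 1) * l

/-- The parameters. -/
noncomputable def yP {Λ O K : Type} [AddCommGroup Λ] [CommRing O] [Field K] [Algebra O K]
    (x : Λ → K) (σ : K ≃+* K) (τ : Λ →+ Λ) (p : ℕ) {n : ℕ} (b : Basis (Fin n) ℤ Λ) (v : Λ)
    (π : O) {r : ℕ} (g : Fin r → Λ) {m : ℕ} (ψ : Fin m → ℕ → Fin n) : PI r m p → K
  | none => algebraMap O K π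
  | some (Sum.inl (i, a)) => x ((dl τ)^[a] (g i)) - 1
  | some (Sum.inr (j, a)) => (df σ)^[(a : ℕ) + 1] (x (v + b (ψ j 0))) / x v

section vtx

variable {Λ O K : Type} [AddCommGroup Λ] [CommRing O] [IsDomain O] [IsDedekindDomain O]
  [Field K] [Algebra O K] {x : Λ → K} {σ : K ≃+* K} {t : O ≃+* O} {τ : Λ →+ Λ} {p l : ℕ}
  {𝔓 : Ideal O} {n : ℕ} {b : Basis (Fin n) ℤ Λ} {P : Finset Λ} {v : Λ}
  {Q : Ideal (MvPolynomial (Fin n) O)} [hQ : Q.IsPrime]

variable (h : St x σ t τ p l 𝔓 b P v Q)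
include h

lemma St.C_notMem {a : O} (ha : a ∉ 𝔓) : (C a : MvPolynomial (Fin n) O) ∉ Q := by
  intro h1
  have h2 : (Q.comap (C : O →+* MvPolynomial (Fin n) O)).IsPrime := Ideal.comap_isPrime _ _
  have h3 : 𝔓 = Q.comap (C : O →+* MvPolynomial (Fin n) O) :=
    h.mx.eq_of_le h2.ne_top fun e he => h.fx.f1 e he
  exact ha (by rw [h3]; exact h1)

lemma St.alg_L (o : O) : algebraMap O K o ∈ LL (ej O b x) Q := by
  rw [← ej_C (b := b) (x := x)]
  exact LL_of _

/-- The powers of the prime in a filtration which contains the uniformizer in degree one. -/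
lemma St.pow_F {F : ℕ → AddSubgroup K} (hF : Fil (LL (ej O b x) Q) F) {π : O} (h1 : π ∈ 𝔓)
    (h2 : π ∉ 𝔓 ^ 2) (hπ : algebraMap O K π ∈ F 1) (k : ℕ) {o : O} (ho : o ∈ 𝔓 ^ k) :
    algebraMap O K o ∈ F k := by
  induction k generalizing o with
  | zero => exact hF.one _ (h.alg_L o)
  | succ k ih =>
    rw [pow_succ] at ho
    refine Submodule.mul_induction_on ho ?_ ?_
    · intro a ha e he
      rw [map_mul]
      refine hF.mul k 1 _ _ (ih ha) ?_
      obtain ⟨s, hs, hs'⟩ := exists_unif h1 h2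
      obtain ⟨c, hc⟩ := hs' e he
      obtain ⟨h3, h4⟩ := LL_inv_of h.inj (h.C_notMem hs)
      rw [ej_C] at h3 h4
      have h5 : algebraMap O K e = ((algebraMap O K s)⁻¹ * algebraMap O K c) *
          algebraMap O K π := by
        have h6 := congrArg (algebraMap O K) hc
        rw [map_mul, map_mul] at h6
        field_simp
        rw [mul_comm, h6, mul_comm]
      rw [h5]
      exact hF.smul (Subring.mul_mem _ h4 (h.alg_L c)) hπ
    · intro a e ha he
      rw [map_add]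
      exact AddSubgroup.add_mem _ ha he

variable {π : O} {r : ℕ} {g : Fin r → Λ} {m : ℕ} {ψ : Fin m → ℕ → Fin n}

/-- The filtration. -/
noncomputable def St.FP (_ : St x σ t τ p l 𝔓 b P v Q) (π : O) (g : Fin r → Λ) (ψ : Fin m → ℕ → Fin n)
    (k : ℕ) : AddSubgroup K :=
  FF (LL (ej O b x) Q) (yP x σ τ p b v π g ψ) (wP l r m p) k

lemma St.FP_fil : Fil (LL (ej O b x) Q) (h.FP π g ψ) := FF_fil _ _ _

lemma St.FP_pi : algebraMap O K π ∈ h.FP π g ψ 1 := FF_gen _ (yP x σ τ p b v π g ψ) _ none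

lemma St.FP_Y (i : Fin r) {a : ℕ} (ha : a < p - 1) :
    x ((dl τ)^[a] (g i)) - 1 ∈ h.FP π g ψ ((a + 1) * l) :=
  FF_gen _ (yP x σ τ p b v π g ψ) _ (some (Sum.inl (i, ⟨a, ha⟩)))

lemma St.FP_T (j : Fin m) {a : ℕ} (ha : 1 ≤ a) (ha' : a < p) :
    (df σ)^[a] (x (v + b (ψ j 0))) / x v ∈ h.FP π g ψ (a * l) := by
  obtain ⟨a, rfl⟩ : ∃ c, a = c + 1 := ⟨a - 1, by omega⟩
  exact FF_gen _ (yP x σ τ p b v π g ψ) (wP l r m p) (some (Sum.inr (j, ⟨a, by omega⟩)))

variable (hp : Pr τ p b P v Q g ψ)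
include hp

lemma St.FP_h {κ : Λ} (hκ : Sp b (II Q) κ) (hN : Nm τ p κ = 0) : x κ - 1 ∈ h.FP π g ψ l := by
  have hf := h.FP_fil (π := π) (g := g) (ψ := ψ)
  refine h.hl (fun y hy z hz => hf.smul hy hz) hp.F (fun i a ha => ?_) hκ hN
  exact hf.anti l ((a + 1) * l) (Nat.le_mul_of_pos_left l (Nat.succ_pos a)) (h.FP_Y i ha)

lemma St.FP_e {α β : Λ} (hα : NN b (II Q) α) (hβ : NN b (II Q) β) (hN : Nm τ p (α - β) = 0) :
    x α - x β ∈ h.FP π g ψ l := by
  have hf := h.FP_fil (π := π) (g := g) (ψ := ψ)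
  refine h.el (fun y hy z hz => hf.smul hy hz) hp.F (fun i a ha => ?_) hp.Or
    (fun j a h1 h2 => ?_) hα hβ hN
  · exact hf.anti l ((a + 1) * l) (Nat.le_mul_of_pos_left l (Nat.succ_pos a)) (h.FP_Y i ha)
  · exact hf.anti l (a * l) (Nat.le_mul_of_pos_left l h1) (h.FP_T j h1 h2)

variable (h1π : π ∈ 𝔓) (h2π : π ∉ 𝔓 ^ 2)
include h1π h2π

lemma St.FP_pow (k : ℕ) {o : O} (ho : o ∈ 𝔓 ^ k) : algebraMap O K o ∈ h.FP π g ψ k :=
  h.pow_F h.FP_fil h1π h2π h.FP_pi k ho

lemma St.FP_p : (p : K) ∈ h.FP π g ψ ((p - 1) * l) := by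
  rw [← map_natCast (algebraMap O K)]
  exact h.FP_pow hp h1π h2π _ h.pl

lemma St.FP_L {y : K} (hy : y ∈ LL (ej O b x) Q) : σ y - y ∈ h.FP π g ψ l := by
  have hf := h.FP_fil (π := π) (g := g) (ψ := ψ)
  have key : ∀ c, σ (ej O b x c) - ej O b x c ∈ h.FP π g ψ l := by
    intro c
    induction c using MvPolynomial.induction_on with
    | C e =>
      rw [ej_C, h.com, ← map_sub]
      exact hf.anti l (l + 1) (by omega) (h.FP_pow hp h1π h2π _ (h.dv e))
    | add f g hf' hg' =>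
      rw [map_add, map_add, add_sub_add_comm]
      exact AddSubgroup.add_mem _ hf' hg'
    | mul_X f i hf' =>
      rw [map_mul, map_mul, ej_X, h.act]
      have h2 : σ (ej O b x f) * x (τ (b i)) - ej O b x f * x (b i) =
          x (τ (b i)) * (σ (ej O b x f) - ej O b x f) +
            ej O b x f * (x (τ (b i)) - x (b i)) := by ring
      rw [h2]
      refine AddSubgroup.add_mem _ (hf.smul (h.x_mem (h.nn_b i)) hf') (hf.smul (LL_of _) ?_)
      exact h.FP_e hp (h.nn_b i) (NN_of_Nn (Nn_b i)) (by rw [Nm_sub, Nm_map h.tp, sub_self])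
  have hy' := hy
  obtain ⟨c, hc, d, hcd⟩ := hy
  obtain ⟨h0, h1, h2⟩ := h.s_unit hc
  have h0' : σ (ej O b x c) ≠ 0 := by
    intro h3
    exact h0 (σ.injective (h3.trans (map_zero σ).symm))
  have h3 : σ (ej O b x c) * σ y = σ (ej O b x d) := by rw [← map_mul, hcd]
  have h4 : σ y = (σ (ej O b x c))⁻¹ * σ (ej O b x d) := by
    rw [← h3, ← mul_assoc, inv_mul_cancel₀ h0', one_mul]
  have h5 : σ y - y = (σ (ej O b x c))⁻¹ * ((σ (ej O b x d) - ej O b x d) -
      y * (σ (ej O b x c) - ej O b x c)) := by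
    rw [← hcd, h4, ← hcd]
    field_simp
    ring
  rw [h5]
  exact hf.smul h2 (AddSubgroup.sub_mem _ (key d) (hf.smul hy' (key c)))

/-- `σ - 1` increases the degree of `Y`. -/
lemma St.FP_dY (i : Fin r) {a : ℕ} (ha : a < p - 1) :
    σ (x ((dl τ)^[a] (g i)) - 1) - (x ((dl τ)^[a] (g i)) - 1) ∈
      h.FP π g ψ ((a + 1) * l + l) := by
  have hf := h.FP_fil (π := π) (g := g) (ψ := ψ)
  have hsp := h.sp_dl (hp.F.sp i) a
  have h1 : σ (x ((dl τ)^[a] (g i)) - 1) - (x ((dl τ)^[a] (g i)) - 1) =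
      x ((dl τ)^[a] (g i)) * (x ((dl τ)^[a + 1] (g i)) - 1) := by
    rw [map_sub, map_one, h.act, Function.iterate_succ_apply' (dl τ) a]
    change x (τ _) - 1 - _ = _ * (x (τ _ - _) - 1)
    rw [h.chr.sub]
    have := h.chr.ne ((dl τ)^[a] (g i))
    field_simp
    ring
  rw [h1, show (a + 1) * l + l = (a + 1 + 1) * l by ring]
  refine hf.smul (h.x_mem (NN_of_Sp hsp)) ?_
  by_cases ha' : a + 1 < p - 1
  · exact h.FP_Y i ha'
  · have hp2 := h.pp.two_le
    have ha2 : a + 1 = p - 1 := by omega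
    rw [ha2, show p - 1 + 1 = p by omega]
    obtain ⟨κ, hκ, hN, hκ', -⟩ := hp.F.top i
    rw [hκ', h.chr.neg, natCast_zsmul, h.chr.nsmul]
    have hL : x κ ∈ LL (ej O b x) Q := h.x_mem (NN_of_Sp hκ)
    have hz := h.FP_h (π := π) hp hκ hN
    have h3 : x κ ^ p - 1 ∈ h.FP π g ψ (p * l) := by
      obtain ⟨s, hs⟩ := exists_add_pow_prime_eq h.pp
        (⟨x κ - 1, Subring.sub_mem _ hL (Subring.one_mem _)⟩ : LL (ej O b x) Q) 1
      have hs' := congrArg (fun y : LL (ej O b x) Q => (y : K)) hs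
      have h4 : (x κ - 1 + 1) ^ p = (x κ - 1) ^ p + 1 ^ p + p * (x κ - 1) * 1 * s := by
        simpa using hs'
      have h5 : x κ ^ p - 1 = (x κ - 1) ^ p + p * (x κ - 1) * s := by
        rw [sub_add_cancel] at h4
        rw [h4]
        ring
      rw [h5]
      refine AddSubgroup.add_mem _ (hf.pow hz p) ?_
      have h6 := hf.mul _ _ _ _ (hf.mul _ _ _ _ (h.FP_p hp h1π h2π) hz) (hf.one _ s.2)
      have h7 : (p - 1) * l + l + 0 = p * l := by
        have h8 : (p - 1 + 1) * l = (p - 1) * l + l := by ring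
        rw [add_zero, ← h8, show p - 1 + 1 = p by omega]
      rwa [h7] at h6
    have h4 : (x κ ^ p)⁻¹ - 1 = -((x κ ^ p)⁻¹ * (x κ ^ p - 1)) := by
      have := h.chr.ne κ
      field_simp
      ring
    rw [h4]
    refine AddSubgroup.neg_mem _ (hf.smul ?_ h3)
    rw [← inv_pow]
    exact Subring.pow_mem _ (h.x_neg hκ) p

/-- `σ - 1` increases the degree of `T`. -/
lemma St.FP_dT (j : Fin m) {a : ℕ} (ha : 1 ≤ a) (ha' : a < p) :
    σ ((df σ)^[a] (x (v + b (ψ j 0))) / x v) - (df σ)^[a] (x (v + b (ψ j 0))) / x v ∈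
      h.FP π g ψ (a * l + l) := by
  have hf := h.FP_fil (π := π) (g := g) (ψ := ψ)
  rw [h.tw_id]
  have h3 : Sp b (II Q) (v - τ v) := by
    rw [← neg_sub]
    exact Sp_neg (h.sp_v 1)
  refine AddSubgroup.add_mem _ (hf.smul h.tv_mem ?_) (hf.mul _ _ _ _ (h.FP_T j ha ha')
    (h.FP_h hp h3 (by rw [Nm_sub, Nm_map h.tp, sub_self])))
  have h4 : σ ((df σ)^[a] (x (v + b (ψ j 0)))) - (df σ)^[a] (x (v + b (ψ j 0))) =
      (df σ)^[a + 1] (x (v + b (ψ j 0))) := by
    rw [Function.iterate_succ_apply']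
    rfl
  rw [h4, show a * l + l = (a + 1) * l by ring]
  by_cases hap : a + 1 < p
  · exact h.FP_T j (by omega) hap
  · have ha2 : a + 1 = p := by omega
    rw [ha2]
    obtain ⟨N, c, hc⟩ := df_pow_p h.pp (sg σ 1) (h.sgp 1)
    have h5 : (df σ)^[p] (x (v + b (ψ j 0))) / x v = (p : K) * ∑ k ∈ Finset.range N, (c k : K) *
        (x (τ^[k + 1] (v + b (ψ j 0)) - v) - x (τ^[k] (v + b (ψ j 0)) - v)) := by
      have h6 := hc (x (v + b (ψ j 0)))
      change (df σ)^[p] _ = _ * ∑ k ∈ Finset.range N, _ * σ^[k] (df σ _) at h6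
      rw [h6, mul_div_assoc, Finset.sum_div]
      congr 1
      refine Finset.sum_congr rfl fun k _ => ?_
      rw [mul_div_assoc]
      congr 1
      unfold df
      rw [h.act, iterate_map_sub, h.it, h.it, ← Function.iterate_succ_apply, h.chr.sub,
        h.chr.sub]
      ring
    rw [h5]
    have hnn : ∀ k : ℕ, NN b (II Q) (τ^[k] (v + b (ψ j 0)) - v) :=
      fun k => NN_of_Nn (h.nnP (P_iter h.vx.st k (h.vx.bP _)))
    have h7 : (∑ k ∈ Finset.range N, (c k : K) *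
        (x (τ^[k + 1] (v + b (ψ j 0)) - v) - x (τ^[k] (v + b (ψ j 0)) - v))) ∈
          h.FP π g ψ l := by
      refine AddSubgroup.sum_mem _ fun k _ => ?_
      rw [← zsmul_eq_mul]
      refine AddSubgroup.zsmul_mem _ (h.FP_e hp (hnn _) (hnn _) ?_) _
      rw [sub_sub_sub_cancel_right, Nm_sub, Nm_iter h.tp, Nm_iter h.tp, sub_self]
    have h8 := hf.mul _ _ _ _ (h.FP_p (ψ := ψ) hp h1π h2π) h7
    have h9 : (p - 1) * l + l = p * l := by
      have hp2 := h.pp.two_le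
      have h8 : (p - 1 + 1) * l = (p - 1) * l + l := by ring
      rw [← h8, show p - 1 + 1 = p by omega]
    rwa [h9] at h8

/-- **Stability** of the filtration. -/
lemma St.FP_d {k : ℕ} {y : K} (hy : y ∈ h.FP π g ψ k) : σ y - y ∈ h.FP π g ψ (k + l) := by
  have hf := h.FP_fil (π := π) (g := g) (ψ := ψ)
  have hG : Fil (LL (ej O b x) Q) (SF σ (h.FP π g ψ) (h.FP π g ψ) l) :=
    { one := fun y hy => ⟨hf.one y hy, by rw [zero_add]; exact h.FP_L hp h1π h2π hy⟩
      mul := fun m n y z hy hz => SF_mul (fun _ => le_rfl) hf.anti hf.mul hf.mul hy hz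
      anti := fun m n hmn => SF_anti hf.anti hf.anti hmn }
  refine (FF_le (y := yP x σ τ p b v π g ψ) (w := wP l r m p) hG ?_ k hy).2
  rintro (_ | ⟨i, a⟩ | ⟨j, a⟩)
  · refine ⟨h.FP_pi, ?_⟩
    change σ (algebraMap O K π) - algebraMap O K π ∈ h.FP π g ψ (1 + l)
    rw [h.com, ← map_sub, add_comm]
    exact h.FP_pow hp h1π h2π _ (h.dv π)
  · exact ⟨h.FP_Y i a.2, h.FP_dY hp h1π h2π i a.2⟩
  · refine ⟨h.FP_T j (Nat.succ_pos a) (by have := a.2; omega), ?_⟩
    exact h.FP_dT hp h1π h2π j (Nat.succ_pos a) (by have := a.2; omega)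

lemma St.FP_it {k : ℕ} {y : K} (hy : y ∈ h.FP π g ψ k) (e : ℕ) :
    σ^[e] y - y ∈ h.FP π g ψ (k + l) := by
  have hf := h.FP_fil (π := π) (g := g) (ψ := ψ)
  induction e with
  | zero =>
    change y - y ∈ _
    rw [sub_self]
    exact AddSubgroup.zero_mem _
  | succ e ih =>
    have h1 : σ^[e] y ∈ h.FP π g ψ k := by
      have h2 := AddSubgroup.add_mem _ (hf.anti k (k + l) (by omega) ih) hy
      rwa [sub_add_cancel] at h2
    have h2 := AddSubgroup.add_mem _ (h.FP_d hp h1π h2π h1) ih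
    rwa [sub_add_sub_cancel, ← Function.iterate_succ_apply' (⇑σ) e y] at h2

/-- The differences. -/
lemma St.FP_D {e a : ℕ} {μ ν : Λ} (hμ : μ ∈ P) (hν : ν ∈ P) (hN : Nm τ p (μ - ν) = 0) :
    (df (σ^[e]))^[a] (x μ - x ν) / x v ∈ h.FP π g ψ ((a + 1) * l) := by
  have hf := h.FP_fil (π := π) (g := g) (ψ := ψ)
  induction a with
  | zero =>
    have h1 : (df (σ^[e]))^[0] (x μ - x ν) / x v = x (μ - v) - x (ν - v) := by
      change (x μ - x ν) / x v = _
      rw [h.chr.sub, h.chr.sub]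
      ring
    rw [h1, zero_add, one_mul]
    exact h.FP_e hp (NN_of_Nn (h.nnP hμ)) (NN_of_Nn (h.nnP hν))
      (by rw [sub_sub_sub_cancel_right, hN])
  | succ a ih =>
    rw [Function.iterate_succ_apply']
    generalize (df (σ^[e]))^[a] (x μ - x ν) = y at ih
    have h1 : df (σ^[e]) y / x v = x (τ^[e] v - v) * ((σ^[e] (y / x v) - y / x v) -
        y / x v * (x (v - τ^[e] v) - 1)) := by
      have h2 : σ^[e] (y / x v) = σ^[e] y / x (τ^[e] v) := by
        rw [← h.it]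
        change (σ^[e]) (y / x v) = _
        have h3 : ∀ (e : ℕ) (a c : K), σ^[e] (a / c) = σ^[e] a / σ^[e] c := by
          intro e
          induction e with
          | zero => intro a c; rfl
          | succ e ih =>
            intro a c
            rw [Function.iterate_succ_apply, map_div₀, ih]
            rfl
        exact h3 e y (x v)
      unfold df
      rw [h2, h.chr.sub, h.chr.sub]
      have := h.chr.ne v
      have := h.chr.ne (τ^[e] v)
      field_simp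
      ring
    rw [h1, show (a + 1 + 1) * l = (a + 1) * l + l by ring]
    have h3 : Sp b (II Q) (v - τ^[e] v) := by
      rw [← neg_sub]
      exact Sp_neg (h.sp_v e)
    refine hf.smul (h.x_mem (NN_of_Sp (h.sp_v e))) (AddSubgroup.sub_mem _
      (h.FP_it hp h1π h2π ih e) ?_)
    exact hf.mul _ _ _ _ ih (h.FP_h hp h3 (by rw [Nm_sub, Nm_iter h.tp, sub_self]))

/-- **The graded algebra is contained in the filtration.** -/
lemma St.R_le {k : ℕ} {y : K} (hy : hm k y ∈ WB x σ τ p l 𝔓 P (x v)) : y ∈ h.FP π g ψ k := by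
  have hf := h.FP_fil (π := π) (g := g) (ψ := ψ)
  let F : ℕ → Set K := fun k => {y | y ∈ h.FP π g ψ k}
  have h1 := coeff_filt (k := O) F ?_ ?_ ?_ ?_ ?_ _ ?_ (hm k y) hy k
  · rw [coeff_hm_same, Int.toNat_natCast] at h1
    exact h1
  · intro k
    exact (h.FP π g ψ k).zero_mem
  · intro k y z hy hz
    exact (h.FP π g ψ k).add_mem hy hz
  · intro m k y z hy hz
    exact hf.mul _ _ _ _ hy hz
  · intro m k hmk y hy
    exact hf.anti _ _ hmk hy
  · intro o
    exact hf.one _ (h.alg_L o)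
  · rintro f (((rfl | ⟨e, he, rfl⟩) | ⟨μ, hμ, rfl⟩) | ⟨e, a, μ, ν, he1, he2, ha, hμ, hν, hN, rfl⟩)
    · refine ⟨-1, 1, ?_, rfl⟩
      have h3 : (-1 : ℤ).toNat = 0 := by decide
      rw [h3]
      exact hf.one _ (Subring.one_mem _)
    · refine ⟨1, _, ?_, rfl⟩
      have h3 : (1 : ℤ).toNat = 1 := by decide
      rw [h3]
      have h4 := h.FP_pow (ψ := ψ) hp h1π h2π 1 (o := e) (by rwa [pow_one])
      exact h4
    · refine ⟨0, _, ?_, rfl⟩
      have h3 : (0 : ℤ).toNat = 0 := by decide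
      rw [h3, ← h.chr.sub]
      exact hf.one _ (h.x_mem (NN_of_Nn (h.nnP hμ)))
    · refine ⟨_, _, ?_, rfl⟩
      rw [Int.toNat_natCast]
      exact h.FP_D hp h1π h2π hμ hν hN

end vtx

end Pool.Agent.K3h75.TO
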