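import Pool.Agent.K3h75.TO.Vtx

/-!
# Algebraic tori over number fields: modules over the local ring at a fixed point
-/

set_option autoImplicit false
set_option linter.unusedSectionVars false
set_option linter.overlappingInstances false

namespace Pool.Agent.K3h75.TO

open Pool.Agent.Y223.G Pool.Agent.W418.LU2 MvPolynomial Module
open Pool.Agent.K3h8.FixZ (Nn mn_add mn_zero)

section vtx

variable {Λ O K : Type} [AddCommGroup Λ] [CommRing O] [IsDomain O] [IsDedekindDomain O]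
  [Field K] [Algebra O K] {x : Λ → K} {σ : K ≃+* K} {t : O ≃+* O} {τ : Λ →+ Λ} {p l : ℕ}
  {𝔓 : Ideal O} {n : ℕ} {b : Basis (Fin n) ℤ Λ} {P : Finset Λ} {v : Λ}
  {Q : Ideal (MvPolynomial (Fin n) O)} [hQ : Q.IsPrime]

variable (h : St x σ t τ p l 𝔓 b P v Q)
include h

lemma St.s_ej (c : MvPolynomial (Fin n) O) :
    σ (ej O b x c) ∈ LL (ej O b x) Q ∧ σ (ej O b x c) - ej O b x c ∈ MM (ej O b x) Q := by
  induction c using MvPolynomial.induction_on with
  | C e =>
    rw [ej_C, h.com, ← map_sub]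
    refine ⟨?_, ?_⟩
    · rw [← ej_C (b := b) (x := x)]
      exact LL_of _
    · rw [← ej_C (b := b) (x := x)]
      refine MM_of (h.fx.f1 _ ?_)
      exact Ideal.pow_le_self (Nat.succ_ne_zero l) (h.dv e)
  | add f g hf hg =>
    rw [map_add, map_add]
    refine ⟨Subring.add_mem _ hf.1 hg.1, ?_⟩
    rw [add_sub_add_comm]
    exact AddSubgroup.add_mem _ hf.2 hg.2
  | mul_X f i hf =>
    rw [map_mul, map_mul, ej_X, h.act]
    have h1 : x (τ (b i)) ∈ LL (ej O b x) Q := h.x_mem (h.nn_b i)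
    refine ⟨Subring.mul_mem _ hf.1 h1, ?_⟩
    have h2 : σ (ej O b x f) * x (τ (b i)) - ej O b x f * x (b i) =
        x (τ (b i)) * (σ (ej O b x f) - ej O b x f) +
          ej O b x f * (x (τ (b i)) - x (b i)) := by ring
    rw [h2]
    exact AddSubgroup.add_mem _ (MM_mul h1 hf.2) (MM_mul (LL_of _) (h.cong i))

/-- `σ c` is a unit if `c` is not in `Q`. -/
lemma St.s_unit {c : MvPolynomial (Fin n) O} (hc : c ∉ Q) :
    ej O b x c ≠ 0 ∧ (ej O b x c)⁻¹ ∈ LL (ej O b x) Q ∧ (σ (ej O b x c))⁻¹ ∈ LL (ej O b x) Q := by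
  obtain ⟨h1, h2⟩ := LL_inv_of h.inj hc
  exact ⟨h1, h2, (unit_cong h.inj h1 h2 (LL_of c) (h.s_ej c).2).2.2⟩

lemma St.s_LL {y : K} (hy : y ∈ LL (ej O b x) Q) :
    σ y ∈ LL (ej O b x) Q ∧ σ y - y ∈ MM (ej O b x) Q := by
  have hy' := hy
  obtain ⟨c, hc, d, hcd⟩ := hy
  obtain ⟨h0, h1, h2⟩ := h.s_unit hc
  have h0' : σ (ej O b x c) ≠ 0 := by
    intro h3
    exact h0 (σ.injective (h3.trans (map_zero σ).symm))
  have h3 : σ (ej O b x c) * σ y = σ (ej O b x d) := by rw [← map_mul, hcd]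
  have h4 : σ y = (σ (ej O b x c))⁻¹ * σ (ej O b x d) := by
    rw [← h3, ← mul_assoc, inv_mul_cancel₀ h0', one_mul]
  refine ⟨?_, ?_⟩
  · rw [h4]
    exact Subring.mul_mem _ h2 (h.s_ej d).1
  · have h5 : σ y - y = (σ (ej O b x c))⁻¹ * ((σ (ej O b x d) - ej O b x d) -
        y * (σ (ej O b x c) - ej O b x c)) := by
      rw [← hcd, h4, ← hcd]
      field_simp
      ring
    rw [h5]
    exact MM_mul h2 (AddSubgroup.sub_mem _ (h.s_ej d).2 (MM_mul hy' (h.s_ej c).2))

/-- The unit `1 + x a + ... + x a ^ (d - 1)`. -/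
lemma St.geom {a : Λ} (ha : Sp b (II Q) a) (hN : Nm τ p a = 0) {d : ℕ} (hd : ¬ p ∣ d) :
    (∑ k ∈ Finset.range d, x a ^ k) ≠ 0 ∧
      (∑ k ∈ Finset.range d, x a ^ k)⁻¹ ∈ LL (ej O b x) Q := by
  have h1 : ∀ m : ℕ, (∑ k ∈ Finset.range m, x a ^ k) - m ∈ MM (ej O b x) Q := by
    intro m
    induction m with
    | zero =>
      rw [Finset.sum_range_zero, Nat.cast_zero, sub_zero]
      exact AddSubgroup.zero_mem _
    | succ m ih =>
      have h2 := AddSubgroup.add_mem _ ih (U1_pow (h.U1_nm ha hN) m)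
      rw [Finset.sum_range_succ, Nat.cast_succ]
      have h3 : (∑ k ∈ Finset.range m, x a ^ k) + x a ^ m - (m + 1) =
          (∑ k ∈ Finset.range m, x a ^ k) - m + (x a ^ m - 1) := by ring
      rw [h3]
      exact h2
  have hdL : (d : K) ∈ LL (ej O b x) Q := natCast_mem _ d
  have h2 : (d : K) ∉ MM (ej O b x) Q := by
    intro h3
    have h4 : IsCoprime (d : ℤ) (p : ℤ) :=
      Nat.isCoprime_iff_coprime.2 ((h.pp.coprime_iff_not_dvd.2 hd).symm)
    obtain ⟨u, w, huw⟩ := h4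
    have h5 : (u : K) * d + w * p = 1 := by exact_mod_cast congrArg (Int.cast : ℤ → K) huw
    apply MM_one h.inj (Q := Q)
    rw [← h5]
    exact AddSubgroup.add_mem _ (MM_mul (intCast_mem _ u) h3) (MM_mul (intCast_mem _ w) h.p_MM)
  have h3 := LL_inv h.inj hdL h2
  have h4 := unit_cong h.inj h3.1 h3.2 hdL (h1 d)
  exact h4.2

/-- **The first lemma on modules**: the elements `x a - 1`, for `a` in the kernel of the norm. -/
lemma St.hl {A : AddSubgroup K} (hA : ∀ y ∈ LL (ej O b x) Q, ∀ z ∈ A, y * z ∈ A) {r : ℕ}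
    {g : Fin r → Λ} (hF : Fam b τ p (II Q) g)
    (hg : ∀ i a, a < p - 1 → x ((dl τ)^[a] (g i)) - 1 ∈ A) {κ : Λ} (hκ : Sp b (II Q) κ)
    (hN : Nm τ p κ = 0) : x κ - 1 ∈ A := by
  have hp2 := h.pp.two_le
  -- the subgroup
  let S : AddSubgroup Λ :=
    { carrier := {a | Sp b (II Q) a ∧ x a - 1 ∈ A}
      zero_mem' := ⟨Sp_zero, by rw [h.chr.zero, sub_self]; exact A.zero_mem⟩
      add_mem' := by
        rintro a c ⟨ha, ha'⟩ ⟨hc, hc'⟩
        refine ⟨Sp_add ha hc, ?_⟩
        have h1 : x (a + c) - 1 = x a * (x c - 1) + (x a - 1) := by rw [h.chr.add]; ring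
        rw [h1]
        exact A.add_mem (hA _ (h.x_mem (NN_of_Sp ha)) _ hc') ha'
      neg_mem' := by
        rintro a ⟨ha, ha'⟩
        refine ⟨Sp_neg ha, ?_⟩
        have h1 : x (-a) - 1 = -(x (-a) * (x a - 1)) := by
          rw [h.chr.neg]
          have := h.chr.ne a
          field_simp
          ring
        rw [h1]
        exact A.neg_mem (hA _ (h.x_mem (NN_of_Sp (Sp_neg ha))) _ ha') }
  have memS : ∀ a, a ∈ S ↔ Sp b (II Q) a ∧ x a - 1 ∈ A := fun _ => Iff.rfl
  have h1 : ∀ (i : Fin r) (k m : ℕ), m + k < p - 1 → τ^[k] ((dl τ)^[m] (g i)) ∈ S := by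
    intro i k
    induction k with
    | zero =>
      intro m hm
      exact ⟨h.sp_dl (hF.sp i) m, hg i m hm⟩
    | succ k ih =>
      intro m hm
      rw [Function.iterate_succ_apply]
      have h2 : τ ((dl τ)^[m] (g i)) = (dl τ)^[m + 1] (g i) + (dl τ)^[m] (g i) := by
        rw [Function.iterate_succ_apply']
        change _ = (τ _ - _) + _
        rw [sub_add_cancel]
      rw [h2, iterate_map_add]
      exact S.add_mem (ih (m + 1) (by omega)) (ih m (by omega))
  have h2 : ∀ (i : Fin r) (k : ℕ), k < p → τ^[k] (g i) ∈ S := by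
    intro i k hk
    by_cases hk' : k < p - 1
    · exact h1 i k 0 (by omega)
    · have hk2 : k = p - 1 := by omega
      subst hk2
      have h3 := hF.nm i
      unfold Nm at h3
      have h4 : p = (p - 1) + 1 := by omega
      rw [h4, Finset.sum_range_succ] at h3
      have h5 : τ^[p - 1] (g i) = -∑ k ∈ Finset.range (p - 1), τ^[k] (g i) :=
        eq_neg_of_add_eq_zero_right h3
      rw [h5]
      refine S.neg_mem (S.sum_mem fun k hk => ?_)
      exact h1 i k 0 (by rw [Finset.mem_range] at hk; omega)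
  obtain ⟨d, hd, hdκ⟩ := hF.gen κ hκ hN
  have h3 : d • κ ∈ S := by
    refine (AddSubgroup.closure_le S).2 ?_ hdκ
    rintro _ ⟨i, k, rfl⟩
    have h4 : τ^[k] (g i) = τ^[k % p] (g i) := by
      conv_lhs => rw [← Nat.div_add_mod k p, add_comm, Function.iterate_add_apply, h.itp]
    rw [SetLike.mem_coe, h4]
    exact h2 i _ (Nat.mod_lt _ h.pp.pos)
  obtain ⟨h4, h5⟩ := h.geom hκ hN hd
  have h6 := ((memS _).1 h3).2
  rw [h.chr.nsmul, ← geom_sum_mul] at h6
  have h7 := hA _ h5 _ h6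
  rwa [← mul_assoc, inv_mul_cancel₀ h4, one_mul] at h7

/-- **The second lemma on modules.** -/
lemma St.el {A : AddSubgroup K} (hA : ∀ y ∈ LL (ej O b x) Q, ∀ z ∈ A, y * z ∈ A) {r : ℕ}
    {g : Fin r → Λ} (hF : Fam b τ p (II Q) g)
    (hg : ∀ i a, a < p - 1 → x ((dl τ)^[a] (g i)) - 1 ∈ A) {m : ℕ} {ψ : Fin m → ℕ → Fin n}
    (hO : Orb b τ p (II Q) ψ)
    (hψ : ∀ j a, 1 ≤ a → a < p → (df σ)^[a] (x (v + b (ψ j 0))) / x v ∈ A) {α β : Λ}
    (hα : NN b (II Q) α) (hβ : NN b (II Q) β) (hN : Nm τ p (α - β) = 0) : x α - x β ∈ A := by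
  have hxv := h.chr.ne v
  refine hO.gen (fun a c => x a - x c ∈ A) ?_ ?_ ?_ ?_ ?_ ?_ α β hα hβ hN
  · intro a
    rw [sub_self]
    exact A.zero_mem
  · intro a c hac
    rw [← neg_sub]
    exact A.neg_mem hac
  · intro a c d hac hcd
    rw [← sub_add_sub_cancel _ (x c)]
    exact A.add_mem hac hcd
  · intro a c d _ _ hd hac
    rw [h.chr.add, h.chr.add, ← sub_mul, mul_comm]
    exact hA _ (h.x_mem hd) _ hac
  · intro j k hk
    have hD : ∀ (s i : ℕ), 1 ≤ i → i + s < p →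
        σ^[s] ((df σ)^[i] (x (v + b (ψ j 0)))) / x v ∈ A := by
      intro s
      induction s with
      | zero =>
        intro i hi hs
        exact hψ j i hi (by omega)
      | succ s ih =>
        intro i hi hs
        rw [Function.iterate_succ_apply]
        have h2 : σ ((df σ)^[i] (x (v + b (ψ j 0)))) =
            (df σ)^[i + 1] (x (v + b (ψ j 0))) + (df σ)^[i] (x (v + b (ψ j 0))) := by
          rw [Function.iterate_succ_apply']
          unfold df
          rw [sub_add_cancel]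
        rw [h2, iterate_map_add, add_div]
        exact A.add_mem (ih (i + 1) (by omega) (by omega)) (ih i hi (by omega))
    have h1 : (σ^[k] (x (v + b (ψ j 0))) - x (v + b (ψ j 0))) / x v ∈ A := by
      have h2 := iter_sub_one (sg σ 1) k (x (v + b (ψ j 0)))
      change σ^[k] _ - _ = ∑ i ∈ Finset.range k, σ^[i] ((df σ)^[1] _) at h2
      rw [h2, Finset.sum_div]
      refine A.sum_mem fun i hi => hD i 1 le_rfl ?_
      rw [Finset.mem_range] at hi
      omega
    have h3 : Sp b (II Q) (v - τ^[k] v) := by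
      rw [← neg_sub]
      exact Sp_neg (h.sp_v k)
    have h4 : x (v - τ^[k] v) - 1 ∈ A :=
      h.hl hA hF hg h3 (by rw [Nm_sub, Nm_iter h.tp, sub_self])
    have h5 : x (τ^[k] (b (ψ j 0))) - x (b (ψ j 0)) =
        x (v - τ^[k] v) * ((σ^[k] (x (v + b (ψ j 0))) - x (v + b (ψ j 0))) / x v) +
          x (b (ψ j 0)) * (x (v - τ^[k] v) - 1) := by
      rw [h.it, iterate_map_add, h.chr.add, h.chr.add, h.chr.sub]
      have := h.chr.ne (τ^[k] v)
      field_simp
      ring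
    change x (τ^[k] (b (ψ j 0))) - x (b (ψ j 0)) ∈ A
    rw [h5]
    exact A.add_mem (hA _ (h.x_mem (NN_of_Sp h3)) _ h1)
      (hA _ (h.x_mem (NN_of_Nn (Nn_b _))) _ h4)
  · intro a ha hN
    rw [h.chr.zero]
    exact h.hl hA hF hg ha hN

end vtx

end Pool.Agent.K3h75.TO
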