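import Pool.Agent.K3h75.TO.Frm

/-!
# Algebraic tori over number fields: local rings in a field, filtrations
-/

set_option autoImplicit false
set_option linter.unusedSectionVars false
set_option linter.overlappingInstances false

namespace Pool.Agent.K3h75.TO

open Pool.Agent.Y223.G Pool.Agent.W418.LU2 MvPolynomial Module

section loc

variable {C K : Type} [CommRing C] [Field K] (j : C →+* K) (Q : Ideal C) [hQ : Q.IsPrime]

/-- The local ring at `Q`, as a subring of `K`. -/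
def LL : Subring K where
  carrier := {y | ∃ c : C, c ∉ Q ∧ ∃ d : C, j c * y = j d}
  one_mem' := ⟨1, fun h => hQ.ne_top ((Ideal.eq_top_iff_one Q).2 h), 1, by rw [map_one, mul_one]⟩
  zero_mem' := ⟨1, fun h => hQ.ne_top ((Ideal.eq_top_iff_one Q).2 h), 0, by
    rw [map_one, mul_zero, map_zero]⟩
  mul_mem' := by
    rintro a b ⟨c, hc, d, h⟩ ⟨c', hc', d', h'⟩
    refine ⟨c * c', hQ.mul_notMem hc hc', d * d', ?_⟩
    rw [map_mul, map_mul, ← h, ← h']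
    ring
  add_mem' := by
    rintro a b ⟨c, hc, d, h⟩ ⟨c', hc', d', h'⟩
    refine ⟨c * c', hQ.mul_notMem hc hc', c' * d + c * d', ?_⟩
    rw [map_mul, map_add, map_mul, map_mul, ← h, ← h']
    ring
  neg_mem' := by
    rintro a ⟨c, hc, d, h⟩
    refine ⟨c, hc, -d, ?_⟩
    rw [map_neg, ← h]
    ring

/-- The maximal ideal of the local ring. -/
def MM : AddSubgroup K where
  carrier := {y | ∃ c : C, c ∉ Q ∧ ∃ d ∈ Q, j c * y = j d}
  zero_mem' := ⟨1, fun h => hQ.ne_top ((Ideal.eq_top_iff_one Q).2 h), 0, Q.zero_mem, by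
    rw [map_one, mul_zero, map_zero]⟩
  add_mem' := by
    rintro a b ⟨c, hc, d, hd, h⟩ ⟨c', hc', d', hd', h'⟩
    refine ⟨c * c', hQ.mul_notMem hc hc', c' * d + c * d',
      Q.add_mem (Q.mul_mem_left _ hd) (Q.mul_mem_left _ hd'), ?_⟩
    rw [map_mul, map_add, map_mul, map_mul, ← h, ← h']
    ring
  neg_mem' := by
    rintro a ⟨c, hc, d, hd, h⟩
    refine ⟨c, hc, -d, Q.neg_mem hd, ?_⟩
    rw [map_neg, ← h]
    ring

variable {j Q}

lemma one_notMem (Q : Ideal C) [hQ : Q.IsPrime] : (1 : C) ∉ Q :=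
  fun h => hQ.ne_top ((Ideal.eq_top_iff_one Q).2 h)

lemma LL_of (c : C) : j c ∈ LL j Q := ⟨1, one_notMem Q, c, by rw [map_one, one_mul]⟩

lemma MM_of {c : C} (hc : c ∈ Q) : j c ∈ MM j Q := ⟨1, one_notMem Q, c, hc, by rw [map_one, one_mul]⟩

lemma MM_le {y : K} (h : y ∈ MM j Q) : y ∈ LL j Q := by
  obtain ⟨c, hc, d, hd, h⟩ := h
  exact ⟨c, hc, d, h⟩

lemma MM_mul {y z : K} (hy : y ∈ LL j Q) (hz : z ∈ MM j Q) : y * z ∈ MM j Q := by
  obtain ⟨c, hc, d, h⟩ := hy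
  obtain ⟨c', hc', d', hd', h'⟩ := hz
  refine ⟨c * c', hQ.mul_notMem hc hc', d * d', Q.mul_mem_left _ hd', ?_⟩
  rw [map_mul, map_mul, ← h, ← h']
  ring

lemma MM_one (hj : Function.Injective j) : (1 : K) ∉ MM j Q := by
  rintro ⟨c, hc, d, hd, h⟩
  rw [mul_one] at h
  exact hc (hj h ▸ hd)

lemma MM_iff (hj : Function.Injective j) {c : C} : j c ∈ MM j Q ↔ c ∈ Q := by
  refine ⟨?_, MM_of⟩
  rintro ⟨c', hc', d, hd, h⟩
  rw [← map_mul] at h
  have h1 := hj h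
  exact (hQ.mem_or_mem (h1 ▸ hd)).resolve_left hc'

lemma LL_inv (hj : Function.Injective j) {y : K} (hy : y ∈ LL j Q) (hy' : y ∉ MM j Q) :
    y ≠ 0 ∧ y⁻¹ ∈ LL j Q := by
  obtain ⟨c, hc, d, h⟩ := hy
  have hd : d ∉ Q := fun hd => hy' ⟨c, hc, d, hd, h⟩
  have hy0 : y ≠ 0 := by
    rintro rfl
    exact hy' (MM j Q).zero_mem
  refine ⟨hy0, d, hd, c, ?_⟩
  rw [← h]
  field_simp

lemma LL_inv_of (hj : Function.Injective j) {c : C} (hc : c ∉ Q) : j c ≠ 0 ∧ (j c)⁻¹ ∈ LL j Q :=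
  LL_inv hj (LL_of c) fun h => hc ((MM_iff hj).1 h)

lemma notMem_MM (hj : Function.Injective j) {y : K} (hy0 : y ≠ 0) (hy : y⁻¹ ∈ LL j Q) :
    y ∉ MM j Q := by
  intro h
  have h1 := MM_mul hy h
  rw [inv_mul_cancel₀ hy0] at h1
  exact MM_one hj h1

lemma MM_prime (hj : Function.Injective j) {y z : K} (hz : z ∈ LL j Q)
    (h : y * z ∈ MM j Q) (hy : y ∈ LL j Q) : y ∈ MM j Q ∨ z ∈ MM j Q := by
  by_contra h1
  push Not at h1
  obtain ⟨h2, h3⟩ := LL_inv hj hy h1.1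
  apply h1.2
  have h4 := MM_mul h3 h
  rwa [← mul_assoc, inv_mul_cancel₀ h2, one_mul] at h4

lemma MM_of_pow (hj : Function.Injective j) {y : K} (hy : y ∈ LL j Q) {k : ℕ}
    (h : y ^ k ∈ MM j Q) : y ∈ MM j Q := by
  induction k with
  | zero =>
    rw [pow_zero] at h
    exact absurd h (MM_one hj)
  | succ k ih =>
    rw [pow_succ] at h
    rcases MM_prime hj hy h (Subring.pow_mem _ hy k) with h | h
    · exact ih h
    · exact h

/-- An element which is congruent to a unit is a unit. -/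
lemma unit_cong (hj : Function.Injective j) {y z : K} (hz0 : z ≠ 0) (hz' : z⁻¹ ∈ LL j Q)
    (hz : z ∈ LL j Q) (h : y - z ∈ MM j Q) : y ∈ LL j Q ∧ y ≠ 0 ∧ y⁻¹ ∈ LL j Q := by
  have h1 : y ∈ LL j Q := by
    have := Subring.add_mem _ (MM_le h) hz
    rwa [sub_add_cancel] at this
  refine ⟨h1, LL_inv hj h1 fun h2 => notMem_MM hj hz0 hz' ?_⟩
  have h3 := (MM j Q).sub_mem h2 h
  rwa [sub_sub_cancel] at h3

/-- The localization of a submodule. -/
def LZ (j : C →+* K) (Q : Ideal C) [hQ : Q.IsPrime] (A : AddSubgroup K)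
    (hA : ∀ c, ∀ y ∈ A, j c * y ∈ A) : AddSubgroup K where
  carrier := {y | ∃ c : C, c ∉ Q ∧ j c * y ∈ A}
  zero_mem' := ⟨1, one_notMem Q, by rw [mul_zero]; exact A.zero_mem⟩
  add_mem' := by
    rintro a b ⟨c, hc, h⟩ ⟨c', hc', h'⟩
    refine ⟨c * c', hQ.mul_notMem hc hc', ?_⟩
    have h1 : j (c * c') * (a + b) = j c' * (j c * a) + j c * (j c' * b) := by
      rw [map_mul]
      ring
    rw [h1]
    exact A.add_mem (hA _ _ h) (hA _ _ h')
  neg_mem' := by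
    rintro a ⟨c, hc, h⟩
    refine ⟨c, hc, ?_⟩
    rw [mul_neg]
    exact A.neg_mem h

lemma mem_LZ {A : AddSubgroup K} {hA : ∀ c, ∀ y ∈ A, j c * y ∈ A} {y : K} :
    y ∈ LZ j Q A hA ↔ ∃ c : C, c ∉ Q ∧ j c * y ∈ A := Iff.rfl

lemma LZ_of {A : AddSubgroup K} {hA : ∀ c, ∀ y ∈ A, j c * y ∈ A} {y : K} (h : y ∈ A) :
    y ∈ LZ j Q A hA := ⟨1, one_notMem Q, by rwa [map_one, one_mul]⟩

end loc

section fil

variable {K : Type} [Field K]

/-- A multiplicative filtration of algebras over `L`. -/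
structure Fil (L : Subring K) (F : ℕ → AddSubgroup K) : Prop where
  one : ∀ y ∈ L, y ∈ F 0
  mul : ∀ m n y z, y ∈ F m → z ∈ F n → y * z ∈ F (m + n)
  anti : ∀ m n, m ≤ n → F n ≤ F m

lemma Fil.smul {L : Subring K} {F : ℕ → AddSubgroup K} (h : Fil L F) {n : ℕ} {y z : K}
    (hy : y ∈ L) (hz : z ∈ F n) : y * z ∈ F n := by
  have h1 := h.mul 0 n y z (h.one y hy) hz
  rwa [zero_add] at h1

lemma Fil.pow {L : Subring K} {F : ℕ → AddSubgroup K} (h : Fil L F) {n : ℕ} {y : K}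
    (hy : y ∈ F n) (k : ℕ) : y ^ k ∈ F (k * n) := by
  induction k with
  | zero =>
    rw [pow_zero, zero_mul]
    exact h.one _ L.one_mem
  | succ k ih =>
    rw [pow_succ, Nat.succ_mul]
    exact h.mul _ _ _ _ ih hy

/-- The smallest filtration which contains the `y i` in the degrees `w i`. -/
def FF {ι : Type} (L : Subring K) (y : ι → K) (w : ι → ℕ) (n : ℕ) : AddSubgroup K :=
  ⨅ G : {G : ℕ → AddSubgroup K // Fil L G ∧ ∀ i, y i ∈ G (w i)}, G.1 n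

lemma mem_FF {ι : Type} {L : Subring K} {y : ι → K} {w : ι → ℕ} {n : ℕ} {z : K} :
    z ∈ FF L y w n ↔ ∀ G : ℕ → AddSubgroup K, Fil L G → (∀ i, y i ∈ G (w i)) → z ∈ G n := by
  unfold FF
  rw [AddSubgroup.mem_iInf]
  exact ⟨fun h G h1 h2 => h ⟨G, h1, h2⟩, fun h G => h G.1 G.2.1 G.2.2⟩

lemma FF_fil {ι : Type} (L : Subring K) (y : ι → K) (w : ι → ℕ) : Fil L (FF L y w) where
  one := fun y hy => mem_FF.2 fun G h _ => h.one y hy
  mul := fun m n y z hy hz => mem_FF.2 fun G h h' =>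
    h.mul m n y z (mem_FF.1 hy G h h') (mem_FF.1 hz G h h')
  anti := fun m n hmn z hz => mem_FF.2 fun G h h' => h.anti m n hmn (mem_FF.1 hz G h h')

lemma FF_gen {ι : Type} (L : Subring K) (y : ι → K) (w : ι → ℕ) (i : ι) :
    y i ∈ FF L y w (w i) := mem_FF.2 fun _ _ h' => h' i

lemma FF_le {ι : Type} {L : Subring K} {y : ι → K} {w : ι → ℕ} {G : ℕ → AddSubgroup K}
    (h : Fil L G) (h' : ∀ i, y i ∈ G (w i)) (n : ℕ) : FF L y w n ≤ G n :=
  fun _ hz => mem_FF.1 hz G h h'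

/-- The filtration of the elements `y` such that `σ y - y` is in the filtration `H`, in the degree
increased by `l`. -/
def SF (σ : K ≃+* K) (F H : ℕ → AddSubgroup K) (l n : ℕ) : AddSubgroup K where
  carrier := {y | y ∈ F n ∧ σ y - y ∈ H (n + l)}
  zero_mem' := ⟨(F n).zero_mem, by rw [map_zero, sub_zero]; exact (H _).zero_mem⟩
  add_mem' := by
    rintro a b ⟨h1, h2⟩ ⟨h3, h4⟩
    refine ⟨(F n).add_mem h1 h3, ?_⟩
    have h5 : σ (a + b) - (a + b) = (σ a - a) + (σ b - b) := by rw [map_add]; ring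
    rw [h5]
    exact (H _).add_mem h2 h4
  neg_mem' := by
    rintro a ⟨h1, h2⟩
    refine ⟨(F n).neg_mem h1, ?_⟩
    have h5 : σ (-a) - (-a) = -(σ a - a) := by rw [map_neg]; ring
    rw [h5]
    exact (H _).neg_mem h2

lemma mem_SF {σ : K ≃+* K} {F H : ℕ → AddSubgroup K} {l n : ℕ} {y : K} :
    y ∈ SF σ F H l n ↔ y ∈ F n ∧ σ y - y ∈ H (n + l) := Iff.rfl

lemma SF_mul {σ : K ≃+* K} {F H : ℕ → AddSubgroup K} {l : ℕ} (hHF : ∀ n, H n ≤ F n)
    (hF : ∀ m n, m ≤ n → F n ≤ F m)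
    (hFF : ∀ m n y z, y ∈ F m → z ∈ F n → y * z ∈ F (m + n))
    (hFH : ∀ m n y z, y ∈ F m → z ∈ H n → y * z ∈ H (m + n)) {m n : ℕ} {y z : K}
    (hy : y ∈ SF σ F H l m) (hz : z ∈ SF σ F H l n) : y * z ∈ SF σ F H l (m + n) := by
  obtain ⟨h1, h2⟩ := hy
  obtain ⟨h3, h4⟩ := hz
  refine ⟨hFF _ _ _ _ h1 h3, ?_⟩
  have h5 : σ (y * z) - y * z = σ z * (σ y - y) + y * (σ z - z) := by rw [map_mul]; ring
  have h6 : σ z ∈ F n := by
    have h7 := (F n).add_mem (hF n (n + l) (by omega) (hHF _ h4)) h3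
    rwa [sub_add_cancel] at h7
  rw [h5]
  refine (H _).add_mem ?_ ?_
  · have h8 := hFH _ _ _ _ h6 h2
    rwa [show n + (m + l) = m + n + l by ring] at h8
  · have h8 := hFH _ _ _ _ h1 h4
    rwa [show m + (n + l) = m + n + l by ring] at h8

lemma SF_anti {σ : K ≃+* K} {F H : ℕ → AddSubgroup K} {l : ℕ} (hF : ∀ m n, m ≤ n → F n ≤ F m)
    (hH : ∀ m n, m ≤ n → H n ≤ H m) {m n : ℕ} (hmn : m ≤ n) : SF σ F H l n ≤ SF σ F H l m :=
  fun _ h => ⟨hF _ _ hmn h.1, hH _ _ (by omega) h.2⟩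

end fil

end Pool.Agent.K3h75.TO
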