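import Pool.Agent.K3h75.TO.Fil
import Pool.Agent.K3h66.TO.CHT
import Pool.Agent.K3h66.TO.Ind
import Pool.Agent.K3h9.GAH.Jac
import Pool.Agent.K3h44.Orb.Main
import Pool.Agent.Y223.G.Stm2

/-!
# Algebraic tori over number fields: the graded algebra at a vertex is regular
-/

set_option autoImplicit false
set_option linter.unusedSectionVars false
set_option linter.overlappingInstances false

namespace Pool.Agent.K3h75.TO

open Pool.Agent.Y223.G Pool.Agent.W418.LU2 MvPolynomial Module Pool.Agent.Y614.WC IsLocalRing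
open Pool.Agent.K3h8.FixZ (Nn mn_add mn_zero)
open Pool.Agent.K3h66.TO (ex x_ex ex_ps)

section gen

/-- Independent elements, multiplied by units. -/
lemma ind_unit {B : Type} [CommRing B] [IsLocalRing B] {ι : Type} [Fintype ι] {z s : ι → B}
    (hz : Ind z) (hs : ∀ i, IsUnit (s i)) : Ind (fun i => s i * z i) := by
  refine ⟨fun i => Ideal.mul_mem_left _ _ (hz.1 i), fun c hc i => ?_⟩
  have h1 := hz.2 (fun i => c i * s i) (by
    convert hc using 2 with i
    ring) i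
  rcases (maximalIdeal.isMaximal B).isPrime.mem_or_mem h1 with h2 | h2
  · exact h2
  · exact absurd h2 (by rw [mem_maximalIdeal, mem_nonunits_iff, not_not]; exact hs i)

lemma FI_map {B B' : Type} [CommRing B] [CommRing B'] {ι : Type} [Fintype ι] (f : B →+* B')
    (z : ι → B) (w : ι → ℕ) (k : ℕ) {y : B} (hy : y ∈ FI z w k) :
    f y ∈ FI (fun i => f (z i)) w k := by
  have h1 : FI z w k ≤ (FI (fun i => f (z i)) w k).comap f := by
    unfold FI
    rw [Ideal.span_le]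
    rintro _ ⟨m, hm, rfl⟩
    rw [SetLike.mem_coe, Ideal.mem_comap, map_prod]
    refine Ideal.subset_span ⟨m, hm, ?_⟩
    exact Finset.prod_congr rfl fun i _ => map_pow f _ _
  exact h1 hy

end gen

section vtx

variable {Λ O K : Type} [AddCommGroup Λ] [CommRing O] [IsDomain O] [IsDedekindDomain O]
  [Field K] [Algebra O K] {x : Λ → K} {σ : K ≃+* K} {t : O ≃+* O} {τ : Λ →+ Λ} {p l : ℕ}
  {𝔓 : Ideal O} {n : ℕ} {b : Basis (Fin n) ℤ Λ} {P : Finset Λ} {v : Λ}
  {Q : Ideal (MvPolynomial (Fin n) O)} [hQ : Q.IsPrime]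

lemma ej_mono (hc : Chr Λ O K x) (m : Fin n →₀ ℕ) (o : O) :
    ej O b x (monomial m o) = algebraMap O K o * x (ex b m) := by
  change ev O b x _ = _
  unfold ev
  rw [aeval_monomial, Finsupp.prod_fintype _ _ (fun i => pow_zero _), x_ex hc]

lemma repr_ex (m : Fin n →₀ ℕ) (i : Fin n) : b.repr (ex b m) i = m i := by
  unfold ex
  simp_rw [← natCast_zsmul]
  rw [Basis.repr_sum_self]

/-- The binomial of `κ`. -/
lemma ej_bin (hc : Chr Λ O K x) {I : Set (Fin n)} {κ : Λ} (hκ : Sp b I κ) :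
    ∃ κ' : Λ, Sp b I κ' ∧ ej O b x (bin O b κ) = x κ' * (x κ - 1) := by
  refine ⟨ex b (ps b (-κ)), ?_, ?_⟩
  · intro i hi
    rw [repr_ex]
    unfold ps
    rw [Finsupp.mapRange_apply, map_neg, Finsupp.neg_apply, hκ i hi]
    rfl
  · unfold bin
    rw [map_sub, ej_mono hc, ej_mono hc, map_one, one_mul, one_mul]
    have h1 : ex b (ps b κ) = ex b (ps b (-κ)) + κ := by
      apply b.repr.injective
      ext i
      rw [map_add, Finsupp.add_apply, repr_ex, repr_ex]
      unfold ps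
      rw [Finsupp.mapRange_apply, Finsupp.mapRange_apply, map_neg, Finsupp.neg_apply]
      have := Int.toNat_sub_toNat_neg (b.repr κ i)
      omega
    rw [h1, hc.add]
    ring

/-- The formula for the iterates of `σ - 1`. -/
lemma df_sum (σ : K ≃+* K) (a : ℕ) (y : K) : (df σ)^[a] y =
    ∑ k ∈ Finset.range (a + 1), ((-1) ^ (a - k) * (a.choose k : K)) * σ^[k] y := by
  have h1 := df_iter_eq (sg σ 1) a y
  change (df σ)^[a] y = _ at h1
  rw [h1]
  set s : Module.End ℤ K := (sg σ 1).toIntLinearMap with hs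
  have h2 : (s - 1) ^ a = ∑ k ∈ Finset.range (a + 1),
      s ^ k * (-1) ^ (a - k) * (a.choose k : Module.End ℤ K) := by
    rw [sub_eq_add_neg]
    exact (Commute.neg_right (Commute.one_right s)).add_pow a
  rw [h2, LinearMap.sum_apply]
  refine Finset.sum_congr rfl fun k _ => ?_
  have h3 : (s ^ k) y = σ^[k] y := (iter_eq (sg σ 1) k y).symm
  have h4 : s ^ k * (-1) ^ (a - k) * (a.choose k : Module.End ℤ K) =
      ((-1) ^ (a - k) * (a.choose k : ℤ) : ℤ) • s ^ k := by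
    rw [zsmul_eq_mul, (Int.cast_commute _ _).eq]
    push_cast
    rw [mul_assoc]
  rw [h4, LinearMap.smul_apply, h3, zsmul_eq_mul]
  push_cast
  rfl

/-- The differences of monomials. -/
lemma ej_tt (hc : Chr Λ O K x) (hW : ∀ (k : ℕ) (a : Λ), σ^[k] (x a) = x (τ^[k] a)) {w : Λ}
    (hw : ∀ k : ℕ, Nn b (τ^[k] w - v)) (a : ℕ) :
    ej O b x (tt O (fun k => ps b (τ^[k] w - v)) a) = (df σ)^[a] (x w) / x v := by
  unfold tt
  rw [map_sum, df_sum, Finset.sum_div]
  refine Finset.sum_congr rfl fun k _ => ?_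
  rw [ej_mono hc, ex_ps b _ (hw k), hW, hc.sub, map_mul, map_pow, map_neg, map_one, map_natCast]
  ring

variable (h : St x σ t τ p l 𝔓 b P v Q)
include h

/-- The exponents of the monomials of an orbit. -/
noncomputable def eP (τ : Λ →+ Λ) (b : Basis (Fin n) ℤ Λ) (v w : Λ) (k : ℕ) : Fin n →₀ ℕ :=
  ps b (τ^[k] w - v)

/-- The parameters in the polynomial ring. -/
noncomputable def uP (O : Type) [CommRing O] {Λ : Type} [AddCommGroup Λ] (τ : Λ →+ Λ) (p : ℕ)
    {n : ℕ} (b : Basis (Fin n) ℤ Λ) (v : Λ) {r : ℕ} (g : Fin r → Λ) {m : ℕ}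
    (ψ : Fin m → ℕ → Fin n) :
    (Fin r × Fin (p - 1)) ⊕ (Fin m × Fin (p - 1)) → MvPolynomial (Fin n) O
  | Sum.inl (i, a) => bin O b ((dl τ)^[a] (g i))
  | Sum.inr (j, a) => tt O (eP τ b v (v + b (ψ j 0))) (a + 1)

variable {r : ℕ} {g : Fin r → Λ} {m : ℕ} {ψ : Fin m → ℕ → Fin n} (hp : Pr τ p b P v Q g ψ)
include hp

lemma St.uP_eq (π : O) (i : PI r m p) : ∃ s : K, s ∈ LL (ej O b x) Q ∧ s ≠ 0 ∧
    s⁻¹ ∈ LL (ej O b x) Q ∧
    ej O b x (i.elim (C π) (uP O τ p b v g ψ)) = s * yP x σ τ p b v π g ψ i := by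
  rcases i with _ | ⟨i, a⟩ | ⟨j, a⟩
  · refine ⟨1, Subring.one_mem _, one_ne_zero, by rw [inv_one]; exact Subring.one_mem _, ?_⟩
    rw [one_mul]
    exact ej_C π
  · obtain ⟨κ', h1, h2⟩ := ej_bin h.chr (h.sp_dl (hp.F.sp i) a)
    exact ⟨x κ', h.x_mem (NN_of_Sp h1), h.chr.ne _, h.x_neg h1, h2⟩
  · refine ⟨1, Subring.one_mem _, one_ne_zero, by rw [inv_one]; exact Subring.one_mem _, ?_⟩
    rw [one_mul]
    exact ej_tt h.chr h.it (fun k => h.nnP (P_iter h.vx.st k (h.vx.bP _))) _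

lemma St.yP_mem (π : O) (hπ : π ∈ 𝔓) (i : PI r m p) :
    yP x σ τ p b v π g ψ i ∈ h.RQ (wP l r m p i) := by
  rcases i with _ | ⟨i, a⟩ | ⟨j, a⟩
  · exact h.RQ_of (k := 1) (WB_e hπ)
  · exact h.Y_mem hp i a
  · refine h.RQ_of ?_
    exact h.T_mem (ψ j 0) (a + 1) (by omega) (by have := a.2; omega)

lemma St.eP_eq (j : Fin m) {k : ℕ} (hk : k < p) {i : Fin n} (hi : i ∉ II Q) :
    eP τ b v (v + b (ψ j 0)) k i = if ψ j k = i then 1 else 0 := by
  have h1 := hp.Or.sp j k hk i hi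
  have h2 := h.sp_v k i hi
  have h3 : τ^[k] (v + b (ψ j 0)) - v = (τ^[k] v - v) + (τ^[k] (b (ψ j 0)) - b (ψ j k)) +
      b (ψ j k) := by
    rw [iterate_map_add]
    abel
  unfold eP ps
  rw [Finsupp.mapRange_apply, h3, map_add, map_add, Finsupp.add_apply, Finsupp.add_apply, h1, h2,
    Basis.repr_self, Finsupp.single_apply]
  split_ifs <;> rfl

/-- The Jacobian condition. -/
lemma St.jac (hJAC : S_JAC) (c : (Fin r × Fin (p - 1)) ⊕ (Fin m × Fin (p - 1)) →
    MvPolynomial (Fin n) O) (hc : ∀ i, ∑ a, c a * pderiv i (uP O τ p b v g ψ a) ∈ Q) (a) :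
    c a ∈ Q := by
  have hQp : (C (p : O) : MvPolynomial (Fin n) O) ∈ Q := h.fx.f1 _ h.p_mem
  have key := hJAC O Λ n b τ p h.pp Q hQp (II Q) (fun i => Iff.rfl) (fun a ha => h.sp ha) r g
    hp.F ?_ m ψ hp.Or.out hp.Or.inj (fun j => eP τ b v (v + b (ψ j 0))) ?_ ?_
    (fun i a => c (Sum.inl (i, a))) (fun j a => c (Sum.inr (j, a))) ?_
  · rcases a with ⟨i, a⟩ | ⟨j, a⟩
    · exact key.1 i a
    · exact key.2 j a
  · intro i a
    obtain ⟨κ', h1, h2⟩ := ej_bin h.chr (h.sp_dl (hp.F.sp i) a)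
    have h3 := h.U1_nm (h.sp_dl (hp.F.sp i) a) (h.nm_dl (hp.F.nm i) a)
    have h4 := MM_mul (h.x_mem (NN_of_Sp h1)) h3
    rw [← h2] at h4
    exact (MM_iff h.inj).1 h4
  · intro j k hk
    rw [h.eP_eq hp j hk (hp.Or.out j k hk), if_pos rfl]
  · intro j k hk i hi hik
    rw [h.eP_eq hp j hk hi, if_neg (Ne.symm hik)]
  · intro i
    have h1 := hc i
    rw [Fintype.sum_sum_type, Fintype.sum_prod_type, Fintype.sum_prod_type] at h1
    exact h1

/-- The filtration of the chart, in the field. -/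
noncomputable def GF (j : MvPolynomial (Fin n) O →+* K) (Q : Ideal (MvPolynomial (Fin n) O))
    [hQ : Q.IsPrime] {ι : Type} [Fintype ι] (z : ι → MvPolynomial (Fin n) O) (w : ι → ℕ) (k : ℕ) :
    AddSubgroup K where
  carrier := {y | ∃ c : MvPolynomial (Fin n) O, c ∉ Q ∧ ∃ d ∈ FI z w k, j c * y = j d}
  zero_mem' := ⟨1, one_notMem Q, 0, Ideal.zero_mem _, by rw [mul_zero, map_zero]⟩
  add_mem' := by
    rintro a c ⟨s, hs, d, hd, h⟩ ⟨s', hs', d', hd', h'⟩
    refine ⟨s * s', hQ.mul_notMem hs hs', s' * d + s * d', Ideal.add_mem _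
      (Ideal.mul_mem_left _ _ hd) (Ideal.mul_mem_left _ _ hd'), ?_⟩
    rw [map_mul, map_add, map_mul, map_mul, ← h, ← h']
    ring
  neg_mem' := by
    rintro a ⟨s, hs, d, hd, h⟩
    exact ⟨s, hs, -d, Ideal.neg_mem_iff _ |>.2 hd, by rw [map_neg, ← h, mul_neg]⟩

omit h hp in
lemma GF_fil (j : MvPolynomial (Fin n) O →+* K) (Q : Ideal (MvPolynomial (Fin n) O))
    [hQ : Q.IsPrime] {ι : Type} [Fintype ι] (z : ι → MvPolynomial (Fin n) O) (w : ι → ℕ) :
    Fil (LL j Q) (GF j Q z w) where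
  one := by
    rintro y ⟨c, hc, d, hcd⟩
    refine ⟨c, hc, d, ?_, hcd⟩
    rw [FI_zero]
    trivial
  mul := by
    rintro m k y y' ⟨s, hs, d, hd, h⟩ ⟨s', hs', d', hd', h'⟩
    refine ⟨s * s', hQ.mul_notMem hs hs', d * d', FI_mul _ _ hd hd', ?_⟩
    rw [map_mul, map_mul, ← h, ← h']
    ring
  anti := by
    rintro m k hmk y ⟨s, hs, d, hd, h⟩
    exact ⟨s, hs, d, FI_anti _ _ hmk hd, h⟩

omit hp in
lemma St.tw_MM {y : K} (hy : y / x v ∈ LL (ej O b x) Q) : (σ y - y) / x v ∈ MM (ej O b x) Q := by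
  have h1 := (h.s_LL hy).2
  have h2 := (h.U1_inv (h.U1_v 1)).2
  rw [Function.iterate_one, ← h.chr.neg, neg_sub] at h2
  have h3 : (σ y - y) / x v = x (τ v - v) * ((σ (y / x v) - y / x v) -
      y / x v * (x (v - τ v) - 1)) := by
    rw [h.tw_id, h.chr.sub, h.chr.sub]
    have := h.chr.ne v
    have := h.chr.ne (τ v)
    field_simp
    ring
  rw [h3]
  exact MM_mul (h.x_mem (NN_of_Sp (h.sp_v 1))) (AddSubgroup.sub_mem _ h1 (MM_mul hy h2))

/-- **The local condition.** -/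
theorem St.local (hIND : S_IND) (hJAC : S_JAC) :
    ∃ (ι : Type) (_ : Fintype ι) (z : ι → MvPolynomial (Fin n) O) (w : ι → ℕ),
      (∀ i, 0 < w i ∧ hm (w i) (ej O b x (z i)) ∈ WB x σ τ p l 𝔓 P (x v)) ∧
      Ind (fun i => algebraMap (MvPolynomial (Fin n) O) (Localization.AtPrime Q) (z i)) ∧
      ∀ (k : ℕ) (y : MvPolynomial (Fin n) O), hm k (ej O b x y) ∈ WB x σ τ p l 𝔓 P (x v) →
        algebraMap (MvPolynomial (Fin n) O) (Localization.AtPrime Q) y ∈
          FI (fun i => algebraMap (MvPolynomial (Fin n) O) (Localization.AtPrime Q) (z i)) w k := by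
  obtain ⟨π, h1π, hπ⟩ := h.un
  have h2π : π ∉ 𝔓 ^ 2 := not_mem_sq (t : O →+* O) h.dv hπ
  have hf := h.RQ_fil
  have hu : ∀ i : PI r m p, ∃ c : MvPolynomial (Fin n) O, c ∉ Q ∧ hm (wP l r m p i)
      (ej O b x (c * i.elim (C π) (uP O τ p b v g ψ))) ∈ WB x σ τ p l 𝔓 P (x v) := by
    intro i
    obtain ⟨s, h1, h2, h3, h4⟩ := h.uP_eq hp π i
    have h5 : ej O b x (i.elim (C π) (uP O τ p b v g ψ)) ∈ h.RQ (wP l r m p i) := by
      rw [h4]
      exact hf.smul h1 (h.yP_mem hp π h1π i)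
    obtain ⟨c, hc, h6⟩ := h5
    refine ⟨c, hc, ?_⟩
    rw [map_mul]
    exact h6
  choose c hc hcR using hu
  have hunit : ∀ c : MvPolynomial (Fin n) O, c ∉ Q →
      IsUnit (algebraMap (MvPolynomial (Fin n) O) (Localization.AtPrime Q) c) := fun c hc =>
    IsLocalization.map_units (M := Q.primeCompl) (Localization.AtPrime Q)
      (⟨c, hc⟩ : Q.primeCompl)
  refine ⟨PI r m p, inferInstance, fun i => c i * i.elim (C π) (uP O τ p b v g ψ), wP l r m p,
    ?_, ?_, ?_⟩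
  · intro i
    refine ⟨?_, hcR i⟩
    have hl := h.l1
    rcases i with _ | ⟨i, a⟩ | ⟨j, a⟩
    · exact one_pos
    · exact Nat.mul_pos (Nat.succ_pos _) hl
    · exact Nat.mul_pos (Nat.succ_pos _) hl
  · have hQ𝔓 : Q.comap (C : O →+* MvPolynomial (Fin n) O) = 𝔓 := by
      have h2 : (Q.comap (C : O →+* MvPolynomial (Fin n) O)).IsPrime := Ideal.comap_isPrime _ _
      exact (h.mx.eq_of_le h2.ne_top fun e he => h.fx.f1 e he).symm
    have h3 := hIND O n Q 𝔓 h.mx h.ne hQ𝔓 π h1π h2π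
      ((Fin r × Fin (p - 1)) ⊕ (Fin m × Fin (p - 1))) (uP O τ p b v g ψ) ?_ (h.jac hp hJAC)
    · have h4 := ind_unit h3 (s := fun i => algebraMap _ (Localization.AtPrime Q) (c i))
        (fun i => hunit _ (hc i))
      convert h4 using 2 with i
      rw [map_mul]
    · intro a
      obtain ⟨s, h5, h6, h7, h8⟩ := h.uP_eq hp π (some a)
      have h9 : ej O b x (uP O τ p b v g ψ a) ∈ MM (ej O b x) Q := by
        change ej O b x (uP O τ p b v g ψ a) = _ at h8
        rw [h8]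
        refine MM_mul h5 ?_
        rcases a with ⟨i, a⟩ | ⟨j, a⟩
        · exact h.U1_nm (h.sp_dl (hp.F.sp i) a) (h.nm_dl (hp.F.nm i) a)
        · have h10 : ∀ k : ℕ, (df σ)^[k] (x (v + b (ψ j 0))) / x v ∈ LL (ej O b x) Q := by
            intro k
            induction k with
            | zero =>
              change x (v + b (ψ j 0)) / x v ∈ LL (ej O b x) Q
              rw [← h.chr.sub]
              exact h.x_mem (NN_of_Nn (h.nnP (h.vx.bP _)))
            | succ k ih =>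
              rw [Function.iterate_succ_apply']
              exact MM_le (h.tw_MM ih)
          change (df σ)^[(a : ℕ) + 1] (x (v + b (ψ j 0))) / x v ∈ _
          rw [Function.iterate_succ_apply']
          exact h.tw_MM (h10 a)
      exact (MM_iff h.inj).1 h9
  · intro k y hy
    have h3 := h.R_le hp h1π h2π hy
    have h4 := FF_le (GF_fil (ej O b x) Q (fun i => c i * i.elim (C π) (uP O τ p b v g ψ))
      (wP l r m p)) (y := yP x σ τ p b v π g ψ) ?_ k h3
    · obtain ⟨s, hs, d, hd, hsd⟩ := h4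
      rw [← map_mul] at hsd
      have h5 := h.inj hsd
      have h6 := FI_map (algebraMap (MvPolynomial (Fin n) O) (Localization.AtPrime Q)) _ _ k hd
      rw [← h5, map_mul] at h6
      exact (Ideal.unit_mul_mem_iff_mem _ (hunit s hs)).1 h6
    · intro i
      obtain ⟨s, h5, h6, h7, h8⟩ := h.uP_eq hp π i
      have hgf := GF_fil (ej O b x) Q (fun i => c i * i.elim (C π) (uP O τ p b v g ψ))
        (wP l r m p)
      have h9 : ej O b x (c i * i.elim (C π) (uP O τ p b v g ψ)) ∈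
          GF (ej O b x) Q (fun i => c i * i.elim (C π) (uP O τ p b v g ψ)) (wP l r m p)
            (wP l r m p i) :=
        ⟨1, one_notMem Q, _, FI_gen _ _ i, by rw [map_one, one_mul]⟩
      obtain ⟨h10, h11⟩ := LL_inv_of h.inj (hc i)
      have h12 : yP x σ τ p b v π g ψ i = (s⁻¹ * (ej O b x (c i))⁻¹) *
          ej O b x (c i * i.elim (C π) (uP O τ p b v g ψ)) := by
        rw [map_mul, h8]
        field_simp
      rw [h12]
      exact hgf.smul (Subring.mul_mem _ h7 h11) h9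

end vtx

end Pool.Agent.K3h75.TO
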