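import Pool.Agent.K3h75.TO.Hlm
import Pool.Agent.Y614.WC.A

/-!
# Algebraic tori over number fields: the graded algebra at a fixed point
-/

set_option autoImplicit false
set_option linter.unusedSectionVars false
set_option linter.overlappingInstances false

namespace Pool.Agent.K3h75.TO

open Pool.Agent.Y223.G Pool.Agent.W418.LU2 MvPolynomial Module Pool.Agent.Y614.WC
open Pool.Agent.K3h8.FixZ (Nn mn_add mn_zero)

section vtx

variable {Λ O K : Type} [AddCommGroup Λ] [CommRing O] [IsDomain O] [IsDedekindDomain O]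
  [Field K] [Algebra O K] {x : Λ → K} {σ : K ≃+* K} {t : O ≃+* O} {τ : Λ →+ Λ} {p l : ℕ}
  {𝔓 : Ideal O} {n : ℕ} {b : Basis (Fin n) ℤ Λ} {P : Finset Λ} {v : Λ}
  {Q : Ideal (MvPolynomial (Fin n) O)} [hQ : Q.IsPrime]

/-- The part of degree `n` of the graded algebra of the chart `x v`. -/
def Rn (x : Λ → K) (σ : K ≃+* K) (τ : Λ →+ Λ) (p l : ℕ) (𝔓 : Ideal O) (P : Finset Λ) (v : Λ)
    (n : ℕ) : AddSubgroup K where
  carrier := {y | hm n y ∈ WB x σ τ p l 𝔓 P (x v)}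
  zero_mem' := by
    change hm n 0 ∈ WB x σ τ p l 𝔓 P (x v)
    rw [hm_zero]
    exact Subalgebra.zero_mem _
  add_mem' := by
    intro a c ha hc
    change hm n (a + c) ∈ WB x σ τ p l 𝔓 P (x v)
    rw [hm_add]
    exact Subalgebra.add_mem _ ha hc
  neg_mem' := by
    intro a ha
    change hm n (-a) ∈ WB x σ τ p l 𝔓 P (x v)
    rw [hm_neg]
    exact Subalgebra.neg_mem _ ha

lemma mem_Rn {y : K} {k : ℕ} : y ∈ Rn x σ τ p l 𝔓 P v k ↔ hm k y ∈ WB x σ τ p l 𝔓 P (x v) :=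
  Iff.rfl

omit hQ in
/-- The chart homomorphism has values in degree zero. -/
lemma ej_mem (hc : Chr Λ O K x) (hb : ∀ i, v + b i ∈ P) (c : MvPolynomial (Fin n) O) :
    hm 0 (ej O b x c) ∈ WB x σ τ p l 𝔓 P (x v) := by
  induction c using MvPolynomial.induction_on with
  | C e =>
    rw [ej_C]
    exact Subalgebra.algebraMap_mem _ e
  | add f g hf hg => rw [map_add, hm_add]; exact Subalgebra.add_mem _ hf hg
  | mul_X f i hf =>
    rw [map_mul]
    have h1 := WB_x (x := x) (σ := σ) (τ := τ) (p := p) (l := l) (𝔓 := 𝔓) (s := x v) (hb i)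
    rw [hc.add, mul_div_cancel_left₀ _ (hc.ne v)] at h1
    have h2 := Subalgebra.mul_mem _ hf h1
    rwa [hm_mul, zero_add, ← ej_X (O := O) (b := b) (x := x)] at h2

variable (h : St x σ t τ p l 𝔓 b P v Q)
include h

lemma St.Rn_smul (k : ℕ) (c : MvPolynomial (Fin n) O) (y : K) (hy : y ∈ Rn x σ τ p l 𝔓 P v k) :
    ej O b x c * y ∈ Rn x σ τ p l 𝔓 P v k := by
  have h1 := Subalgebra.mul_mem _ (ej_mem (σ := σ) (τ := τ) (p := p) (l := l) (𝔓 := 𝔓) h.chr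
    h.vx.bP c) hy
  rwa [hm_mul, zero_add] at h1

/-- The localization of the graded algebra. -/
noncomputable def St.RQ (h : St x σ t τ p l 𝔓 b P v Q) (k : ℕ) : AddSubgroup K :=
  LZ (ej O b x) Q (Rn x σ τ p l 𝔓 P v k) (h.Rn_smul k)

lemma St.RQ_of {k : ℕ} {y : K} (hy : hm k y ∈ WB x σ τ p l 𝔓 P (x v)) : y ∈ h.RQ k :=
  LZ_of hy

lemma St.RQ_fil : Fil (LL (ej O b x) Q) h.RQ where
  one := by
    rintro y ⟨c, hc, d, hcd⟩
    refine ⟨c, hc, ?_⟩
    rw [hcd]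
    exact ej_mem (σ := σ) (τ := τ) (p := p) (l := l) (𝔓 := 𝔓) h.chr h.vx.bP d
  mul := by
    rintro m k y z ⟨c, hc, hy⟩ ⟨d, hd, hz⟩
    refine ⟨c * d, hQ.mul_notMem hc hd, ?_⟩
    rw [mem_Rn] at hy hz
    have h1 := Subalgebra.mul_mem _ hy hz
    rw [hm_mul] at h1
    rw [mem_Rn, map_mul]
    convert h1 using 2
    · push_cast
      ring
    · ring
  anti := by
    rintro m k hmk y ⟨c, hc, hy⟩
    exact ⟨c, hc, WB_down hy (by exact_mod_cast hmk)⟩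

/-- **Stability**: `σ - 1` increases the degree. The filtration `H` is `h.RQ` or an ideal of it. -/
lemma St.dst {H : ℕ → AddSubgroup K} (hle : ∀ k, H k ≤ h.RQ k) (hH : ∀ m k, m ≤ k → H k ≤ H m)
    (hm' : ∀ m k y z, y ∈ h.RQ m → z ∈ H k → y * z ∈ H (m + k))
    (g1 : ∀ o : O, algebraMap O K (t o - o) ∈ H l)
    (g2 : ∀ e ∈ 𝔓, algebraMap O K (t e - e) ∈ H (1 + l))
    (g3 : ∀ μ ∈ P, σ (x μ / x v) - x μ / x v ∈ H l)
    (g4 : ∀ (e a : ℕ) (μ ν : Λ), 1 ≤ e → e < p → a < p → μ ∈ P → ν ∈ P → Nm τ p (μ - ν) = 0 →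
      σ ((df (σ^[e]))^[a] (x μ - x ν) / x v) - (df (σ^[e]))^[a] (x μ - x ν) / x v ∈
        H ((a + 1) * l + l)) {k : ℕ} {y : K} (hy : y ∈ h.RQ k) : σ y - y ∈ H (k + l) := by
  have hf := h.RQ_fil
  have key : ∀ (k : ℕ) (y : K), hm k y ∈ WB x σ τ p l 𝔓 P (x v) → y ∈ SF σ h.RQ H l k := by
    intro k y hy
    let F : ℕ → Set K := fun k => {y | y ∈ SF σ h.RQ H l k}
    have h1 := coeff_filt (k := O) F ?_ ?_ ?_ ?_ ?_ _ ?_ (hm k y) hy k
    · rw [coeff_hm_same, Int.toNat_natCast] at h1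
      exact h1
    · intro k
      exact (SF σ h.RQ H l k).zero_mem
    · intro k y z hy hz
      exact (SF σ h.RQ H l k).add_mem hy hz
    · intro m k y z hy hz
      exact SF_mul hle hf.anti hf.mul hm' hy hz
    · intro m k hmk y hy
      exact SF_anti hf.anti hH hmk hy
    · intro o
      refine ⟨hf.one _ ?_, ?_⟩
      · rw [← ej_C (b := b) (x := x)]
        exact LL_of _
      · rw [zero_add, h.com, ← map_sub]
        exact g1 o
    · rintro f (((rfl | ⟨e, he, rfl⟩) | ⟨μ, hμ, rfl⟩) | ⟨e, a, μ, ν, he1, he2, ha, hμ, hν, hN, rfl⟩)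
      · refine ⟨-1, 1, ?_, rfl⟩
        have h3 : (-1 : ℤ).toNat = 0 := by decide
        rw [h3]
        refine ⟨hf.one _ (Subring.one_mem _), ?_⟩
        rw [map_one, sub_self]
        exact AddSubgroup.zero_mem _
      · refine ⟨1, _, ?_, rfl⟩
        have h3 : (1 : ℤ).toNat = 1 := by decide
        rw [h3]
        refine ⟨h.RQ_of (WB_e he), ?_⟩
        rw [h.com, ← map_sub]
        exact g2 e he
      · refine ⟨0, _, ?_, rfl⟩
        have h3 : (0 : ℤ).toNat = 0 := by decide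
        rw [h3]
        refine ⟨h.RQ_of (WB_x hμ), ?_⟩
        rw [zero_add]
        exact g3 μ hμ
      · refine ⟨_, _, ?_, rfl⟩
        rw [Int.toNat_natCast]
        exact ⟨h.RQ_of (WB_D he1 he2 ha hμ hν hN), g4 e a μ ν he1 he2 ha hμ hν hN⟩
  obtain ⟨c, hc, hcy⟩ := hy
  obtain ⟨h0, h1, h2⟩ := h.s_unit hc
  have h0' : σ (ej O b x c) ≠ 0 := by
    intro h3
    exact h0 (σ.injective (h3.trans (map_zero σ).symm))
  have h3 := key k _ hcy
  have h4 := key 0 (ej O b x c) (ej_mem (σ := σ) (τ := τ) (p := p) (l := l) (𝔓 := 𝔓) h.chr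
    h.vx.bP c)
  have h5 : σ y - y = (σ (ej O b x c))⁻¹ * ((σ (ej O b x c * y) - ej O b x c * y) -
      y * (σ (ej O b x c) - ej O b x c)) := by
    rw [map_mul]
    field_simp
    ring
  rw [h5]
  have h6 : ∀ z ∈ H (k + l), (σ (ej O b x c))⁻¹ * z ∈ H (k + l) := by
    intro z hz
    have h7 := hm' 0 (k + l) _ z (hf.one _ h2) hz
    rwa [zero_add] at h7
  refine h6 _ (AddSubgroup.sub_mem _ h3.2 ?_)
  have h7 := hm' k l y _ ⟨c, hc, hcy⟩ (by
    have h8 := h4.2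
    rwa [zero_add] at h8)
  exact h7

/-- The unit `x (v - τ v)`. -/
lemma St.tv_mem : x (v - τ v) ∈ LL (ej O b x) Q := by
  have h3 : Sp b (II Q) (v - τ^[1] v) := by
    rw [← neg_sub]
    exact Sp_neg (h.sp_v 1)
  exact h.x_mem (NN_of_Sp h3)

lemma St.tv_sub : x (v - τ v) - 1 ∈ h.RQ l := by
  have h1 := h.frm0 h.vx.st (x v) h.vx.vP
  rw [mem_Vd] at h1
  have h2 : x (v - τ v) - 1 = x (v - τ v) * -((σ (x v) - x v) / x v) := by
    rw [h.act, h.chr.sub]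
    have := h.chr.ne v
    have := h.chr.ne (τ v)
    field_simp
    ring
  rw [h2]
  exact h.RQ_fil.smul h.tv_mem ((h.RQ l).neg_mem (h.RQ_of h1))

lemma St.tw_id (y : K) : σ (y / x v) - y / x v =
    x (v - τ v) * ((σ y - y) / x v) + y / x v * (x (v - τ v) - 1) := by
  rw [map_div₀, h.act, h.chr.sub]
  have := h.chr.ne v
  have := h.chr.ne (τ v)
  field_simp
  ring

/-- `σ - 1` increases the degree. -/
lemma St.dRQ {k : ℕ} {y : K} (hy : y ∈ h.RQ k) : σ y - y ∈ h.RQ (k + l) := by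
  have hf := h.RQ_fil
  have hpow : ∀ (k : ℕ) (o : O), o ∈ 𝔓 ^ k → algebraMap O K o ∈ h.RQ k :=
    fun k o ho => h.RQ_of (WB_pow ho)
  refine h.dst (fun _ => le_rfl) hf.anti hf.mul ?_ ?_ ?_ ?_ hy
  · intro o
    exact hf.anti l (l + 1) (by omega) (hpow _ _ (h.dv o))
  · intro e he
    rw [add_comm]
    exact hpow _ _ (h.dv e)
  · intro μ hμ
    rw [h.tw_id]
    refine AddSubgroup.add_mem _ (hf.smul h.tv_mem (h.RQ_of (h.frm0 h.vx.st (x v) hμ))) ?_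
    have h2 := hf.mul 0 l _ _ (h.RQ_of (k := 0) (WB_x hμ)) h.tv_sub
    rwa [zero_add] at h2
  · intro e a μ ν he1 he2 ha hμ hν hN
    rw [h.tw_id]
    refine AddSubgroup.add_mem _ (hf.smul h.tv_mem ?_) ?_
    · have h2 := h.frm1 h.vx.st (x v) he1 he2 ha hμ hν hN
      rw [mem_Vd] at h2
      exact h.RQ_of (by exact_mod_cast h2)
    · exact hf.mul _ _ _ _ (h.RQ_of (WB_D he1 he2 ha hμ hν hN)) h.tv_sub

/-- The parameters. -/
structure Pr (τ : Λ →+ Λ) (p : ℕ) (b : Basis (Fin n) ℤ Λ) (P : Finset Λ) (v : Λ)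
    (Q : Ideal (MvPolynomial (Fin n) O)) {r : ℕ} (g : Fin r → Λ) {m : ℕ}
    (ψ : Fin m → ℕ → Fin n) : Prop where
  F : Fam b τ p (II Q) g
  gP : ∀ i, ∃ μ ∈ P, ∃ ν ∈ P, Sp b (II Q) (μ - v) ∧ Sp b (II Q) (ν - v) ∧ μ - ν = g i
  Or : Orb b τ p (II Q) ψ

lemma St.pr_ex (hORB : S_ORB) : ∃ (r : ℕ) (g : Fin r → Λ) (m : ℕ) (ψ : Fin m → ℕ → Fin n),
    Pr τ p b P v Q g ψ := by
  obtain ⟨r, g, hF, hg⟩ := h.vx.lg (II Q) fun a ha => h.sp ha
  obtain ⟨m, ψ, hψ⟩ := hORB Λ n b τ p h.pp h.tp (II Q) (fun a ha => h.sp ha)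
    fun i _ => h.nn_b i
  exact ⟨r, g, m, ψ, hF, hg, hψ⟩

variable {r : ℕ} {g : Fin r → Λ} {m : ℕ} {ψ : Fin m → ℕ → Fin n} (hp : Pr τ p b P v Q g ψ)
include hp

lemma St.Y_mem (i : Fin r) (a : ℕ) : x ((dl τ)^[a] (g i)) - 1 ∈ h.RQ ((a + 1) * l) := by
  have hf := h.RQ_fil
  induction a with
  | zero =>
    obtain ⟨μ, hμ, ν, hν, hμ', hν', hg⟩ := hp.gP i
    have h1 := WB_D (x := x) (σ := σ) (τ := τ) (p := p) (l := l) (𝔓 := 𝔓) (P := P) (s := x v)
      (e := 1) (a := 0) le_rfl h.pp.one_lt h.pp.pos hμ hν (by rw [hg]; exact hp.F.nm i)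
    have h2 : x (g i) - 1 = x (-(ν - v)) * ((x μ - x ν) / x v) := by
      rw [← hg, h.chr.sub, h.chr.neg, h.chr.sub]
      have := h.chr.ne ν
      have := h.chr.ne v
      field_simp
    change x (g i) - 1 ∈ _
    rw [h2]
    exact hf.smul (h.x_mem (NN_of_Sp (Sp_neg hν'))) (h.RQ_of h1)
  | succ a ih =>
    have h1 := h.dRQ ih
    have h2 : x ((dl τ)^[a + 1] (g i)) - 1 = x (-((dl τ)^[a] (g i))) *
        (σ (x ((dl τ)^[a] (g i)) - 1) - (x ((dl τ)^[a] (g i)) - 1)) := by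
      rw [Function.iterate_succ_apply']
      change x (τ _ - _) - 1 = _
      rw [map_sub, map_one, h.act, h.chr.sub, h.chr.neg]
      have := h.chr.ne ((dl τ)^[a] (g i))
      field_simp
      ring
    rw [h2, show (a + 1 + 1) * l = (a + 1) * l + l by ring]
    exact hf.smul (h.x_mem (NN_of_Sp (Sp_neg (h.sp_dl (hp.F.sp i) a)))) h1

omit hp in
lemma St.T_mem (i : Fin n) (a : ℕ) (h1 : 1 ≤ a) (h2 : a ≤ p) :
    hm ((a * l : ℕ) : ℤ) ((df σ)^[a] (x (v + b i)) / x v) ∈ WB x σ τ p l 𝔓 P (x v) := by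
  obtain ⟨a, rfl⟩ : ∃ c, a = c + 1 := ⟨a - 1, by omega⟩
  have h3 := WB_D (x := x) (σ := σ) (τ := τ) (p := p) (l := l) (𝔓 := 𝔓) (P := P) (s := x v)
      (e := 1) (a := a) le_rfl h.pp.one_lt (by omega) (h.vx.st _ (h.vx.bP i)) (h.vx.bP i)
      (by rw [Nm_sub, Nm_map h.tp, sub_self])
  rw [Function.iterate_succ_apply]
  unfold df
  rw [h.act]
  exact h3

end vtx

end Pool.Agent.K3h75.TO
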