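import Pool.Agent.K3h75.TO.StmB

/-!
# Algebraic tori over number fields: all charts, fixed points
-/

set_option autoImplicit false

namespace Pool.Agent.K3h75.TO

open Pool.Agent.Y223.G Pool.Agent.W418.LU2 MvPolynomial Module

/-- The monomial with the (nonnegative) exponent `a`. -/
noncomputable def mn (O : Type) [CommRing O] {Λ : Type} [AddCommGroup Λ] {n : ℕ}
    (b : Basis (Fin n) ℤ Λ) (a : Λ) : MvPolynomial (Fin n) O := monomial (ps b a) 1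

/-- The chart of the vertex: the homomorphism from the polynomial ring to the field. -/
noncomputable def ev (O : Type) {K : Type} [CommRing O] [Field K] [Algebra O K] {Λ : Type}
    [AddCommGroup Λ] {n : ℕ} (b : Basis (Fin n) ℤ Λ) (x : Λ → K) :
    MvPolynomial (Fin n) O →ₐ[O] K := aeval fun i => x (b i)

/-- The prime ideal `Q` of the chart of the vertex `v` is a fixed point of the action. -/
structure Fx {Λ O : Type} [AddCommGroup Λ] [CommRing O] {n : ℕ} (b : Basis (Fin n) ℤ Λ)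
    (τ : Λ →+ Λ) (p : ℕ) (𝔓 : Ideal O) (P : Finset Λ) (v : Λ)
    (Q : Ideal (MvPolynomial (Fin n) O)) : Prop where
  f1 : ∀ e ∈ 𝔓, (C e : MvPolynomial (Fin n) O) ∈ Q
  f2 : ∀ μ ∈ P, ∀ ν ∈ P, Nm τ p (μ - ν) = 0 → mn O b (μ - v) - mn O b (ν - v) ∈ Q

/-- **FIXZ**: the zeros of the leading form lie over the fixed points. -/
def S_FIXZ : Prop := ∀ (Λ O K : Type) [AddCommGroup Λ] [CommRing O] [IsDomain O]
  [IsDedekindDomain O] [Field K] [Algebra O K] (x : Λ → K) (σ : K ≃+* K) (t : O ≃+* O)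
  (τ : Λ →+ Λ) (p l : ℕ) (𝔓 : Ideal O), Wd Λ O K x σ t τ p l 𝔓 → ∀ (n : ℕ)
  (b : Basis (Fin n) ℤ Λ) (P : Finset Λ) (v : Λ), v ∈ P → (∀ a ∈ P, τ a ∈ P) →
  (∀ i, v + b i ∈ P) → (∀ a ∈ P, ∀ i, 0 ≤ b.repr (a - v) i) →
  ∀ (Q : Ideal (WB x σ τ p l 𝔓 P (x v))) [Q.IsPrime], Zr x σ t τ p l 𝔓 P (x v) Q →
  ∀ q : Ideal (MvPolynomial (Fin n) O), (∀ c, c ∈ q ↔ MQ _ Q (hm 0 (ev O b x c))) →
  q.IsPrime ∧ Fx b τ p 𝔓 P v q

/-- The ideal `Q` contains the zeros of the leading form of `σ - 1`, in the chart `s`. -/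
structure Zr2 {Λ O K : Type} [AddCommGroup Λ] [CommRing O] [Field K] [Algebra O K]
    (x : Λ → K) (σ : K ≃+* K) (t : O ≃+* O) (τ : Λ →+ Λ) (p l : ℕ) (𝔓 : Ideal O) (P : Finset Λ)
    (s : K) (Q : Ideal (WB x σ τ p l 𝔓 P s)) : Prop where
  z1 : ∀ e ∈ 𝔓, MQ _ Q (hm 0 (algebraMap O K e))
  z2 : ∀ e ∈ 𝔓, MQ _ Q (hm (1 + l) (algebraMap O K (t e - e)))
  z3 : ∀ μ ∈ P, ∀ ν ∈ P, MQ _ Q (hm l ((x ν * σ (x μ) - x μ * σ (x ν)) / s ^ 2))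
  z4 : ∀ (e a : ℕ) (μ ν κ : Λ), 1 ≤ e → e < p → a < p → μ ∈ P → ν ∈ P → κ ∈ P →
    Nm τ p (μ - ν) = 0 → MQ _ Q (hm ((((a + 1) * l : ℕ) : ℤ) + l)
      ((x κ * σ ((df (σ^[e]))^[a] (x μ - x ν)) -
        (df (σ^[e]))^[a] (x μ - x ν) * σ (x κ)) / s ^ 2))

/-- **CHT**: from the charts of the vertices to all charts. -/
def S_CHT : Prop := ∀ (Λ O K : Type) [AddCommGroup Λ] [CommRing O] [IsDomain O]
  [IsDedekindDomain O] [Field K] [Algebra O K] (x : Λ → K) (σ : K ≃+* K) (t : O ≃+* O)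
  (τ : Λ →+ Λ) (p l : ℕ) (𝔓 : Ideal O), Wd Λ O K x σ t τ p l 𝔓 → ∀ (P : Finset Λ),
  (∀ a ∈ P, τ a ∈ P) →
  (∀ μ ∈ P, ∃ v ∈ P, (∃ s : Multiset Λ, (∀ κ ∈ s, κ ∈ P) ∧ (s.card + 1) • μ = v + s.sum) ∧
    IsRegularRing (WB x σ τ p l 𝔓 P (x v)) ∧
    ∀ (Q : Ideal (WB x σ τ p l 𝔓 P (x v))) [Q.IsPrime], Zr x σ t τ p l 𝔓 P (x v) Q →
      ∀ (k : ℕ) (y : K), 0 < k → hm k y ∈ WB x σ τ p l 𝔓 P (x v) → MQ _ Q (hm k y)) →
  ∀ s : K, s ≠ 0 → s ∈ Submodule.span O (x '' (P : Set Λ)) →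
  IsRegularRing (WB x σ τ p l 𝔓 P s) ∧
  ∀ (Q : Ideal (WB x σ τ p l 𝔓 P s)) [Q.IsPrime], Zr2 x σ t τ p l 𝔓 P s Q →
    ∀ (k : ℕ) (y : K), 0 < k → hm k y ∈ WB x σ τ p l 𝔓 P s → MQ _ Q (hm k y)

/-- **CH0**: the charts of the toric scheme are regular. -/
def S_CH0 : Prop := ∀ (Λ O K : Type) [AddCommGroup Λ] [CommRing O] [IsDomain O]
  [IsDedekindDomain O] [Field K] [Algebra O K] (x : Λ → K), Chr Λ O K x →
  ∀ P : Finset Λ, (∀ μ ∈ P, ∃ v ∈ P,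
    (∃ s : Multiset Λ, (∀ κ ∈ s, κ ∈ P) ∧ (s.card + 1) • μ = v + s.sum) ∧
    ∃ (n : ℕ) (b : Basis (Fin n) ℤ Λ), (∀ i, v + b i ∈ P) ∧
      ∀ κ ∈ P, ∀ i, 0 ≤ b.repr (κ - v) i) →
  ∀ s : K, s ≠ 0 → s ∈ Submodule.span O (x '' (P : Set Λ)) →
  IsRegularRing (Algebra.adjoin O ((fun μ => x μ / s) '' (P : Set Λ)))

end Pool.Agent.K3h75.TO
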