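import Mathlib

/-!
# Algebraic tori over number fields: definitions and statements of the parts of the proof

Project of helper75: regular proper models over `ℤ` of algebraic tori with wild ramification.
Lattices, polytopes, the Jacobian condition, covers (only Mathlib is used here).
-/

set_option autoImplicit false

namespace Pool.Agent.K3h75.TO

open MvPolynomial Module

/-! ## Lattices -/

section lattice

variable {Λ : Type} [AddCommGroup Λ]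

/-- The operator `τ - 1` on the lattice. -/
def dl (τ : Λ →+ Λ) (a : Λ) : Λ := τ a - a

/-- The norm `1 + τ + ... + τ ^ (p - 1)`. -/
def Nm (τ : Λ →+ Λ) (p : ℕ) (a : Λ) : Λ := ∑ k ∈ Finset.range p, τ^[k] a

variable {n : ℕ} (b : Basis (Fin n) ℤ Λ)

/-- `a` is in the span of the `b i`, `i ∈ I`. -/
def Sp (I : Set (Fin n)) (a : Λ) : Prop := ∀ i, i ∉ I → b.repr a i = 0

/-- The coordinates of `a` outside `I` are nonnegative. -/
def NN (I : Set (Fin n)) (a : Λ) : Prop := ∀ i, i ∉ I → 0 ≤ b.repr a i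

/-- A family of generators, prime to `p`, over `ℤ[τ]`, of the kernel of the norm in the span of the
`b i`, `i ∈ I`. -/
structure Fam (τ : Λ →+ Λ) (p : ℕ) (I : Set (Fin n)) {r : ℕ} (g : Fin r → Λ) : Prop where
  sp : ∀ i, Sp b I (g i)
  nm : ∀ i, Nm τ p (g i) = 0
  ind : ∀ c : Fin r → Fin (p - 1) → ℤ,
    (∃ κ : Λ, ∑ i, ∑ a : Fin (p - 1), c i a • (dl τ)^[a] (g i) = (p : ℤ) • κ) →
    ∀ i a, (p : ℤ) ∣ c i a
  gen : ∀ a, Sp b I a → Nm τ p a = 0 → ∃ d : ℕ, ¬ p ∣ d ∧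
    d • a ∈ AddSubgroup.closure {y | ∃ (i : Fin r) (k : ℕ), y = τ^[k] (g i)}
  top : ∀ i, ∃ κ : Λ, Sp b I κ ∧ Nm τ p κ = 0 ∧ (dl τ)^[p - 1] (g i) = -((p : ℤ) • κ) ∧
    κ - g i ∈ AddSubgroup.closure {y | ∃ k : ℕ, y = (dl τ)^[k + 1] (g i)}

/-- The orbits of length `p` of `τ` on the `b i`, `i ∉ I`, modulo the span of the `b i`, `i ∈ I`:
`ψ j k`, `k < p`, is the orbit `j`. -/
structure Orb (τ : Λ →+ Λ) (p : ℕ) (I : Set (Fin n)) {m : ℕ} (ψ : Fin m → ℕ → Fin n) : Prop where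
  out : ∀ j k, k < p → ψ j k ∉ I
  inj : ∀ j k j' k', k < p → k' < p → ψ j k = ψ j' k' → j = j' ∧ k = k'
  sp : ∀ j k, k < p → Sp b I (τ^[k] (b (ψ j 0)) - b (ψ j k))
  gen : ∀ Rel : Λ → Λ → Prop, (∀ a, Rel a a) → (∀ a c, Rel a c → Rel c a) →
    (∀ a c d, Rel a c → Rel c d → Rel a d) →
    (∀ a c d, NN b I a → NN b I c → NN b I d → Rel a c → Rel (a + d) (c + d)) →
    (∀ j k, k < p → Rel (τ^[k] (b (ψ j 0))) (b (ψ j 0))) →
    (∀ a, Sp b I a → Nm τ p a = 0 → Rel a 0) →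
    ∀ a c, NN b I a → NN b I c → Nm τ p (a - c) = 0 → Rel a c

end lattice

/-- **LAT**: the family of generators of the kernel of the norm. -/
def S_LAT : Prop := ∀ (Λ : Type) [AddCommGroup Λ] (n : ℕ) (b : Basis (Fin n) ℤ Λ) (τ : Λ →+ Λ)
  (p : ℕ), p.Prime → (∀ a, τ^[p] a = a) → ∀ I : Set (Fin n), (∀ a, Sp b I a → Sp b I (τ a)) →
  ∃ (r : ℕ) (g : Fin r → Λ), Fam b τ p I g

/-- **ORB**: the orbits of `τ` on the coordinates outside `I`. -/
def S_ORB : Prop := ∀ (Λ : Type) [AddCommGroup Λ] (n : ℕ) (b : Basis (Fin n) ℤ Λ) (τ : Λ →+ Λ)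
  (p : ℕ), p.Prime → (∀ a, τ^[p] a = a) → ∀ I : Set (Fin n), (∀ a, Sp b I a → Sp b I (τ a)) →
  (∀ i, i ∉ I → NN b I (τ (b i))) → ∃ (m : ℕ) (ψ : Fin m → ℕ → Fin n), Orb b τ p I ψ

/-! ## Smooth polytopes -/

/-- `P` is the set of the lattice points of a smooth polytope, or at least it behaves in this way:
for every `μ ∈ P` there is a vertex `v` of the smallest face which contains `μ` (a multiple of `μ`
is a sum of points of `P` one of which is `v`), and the points of `P` next to `v` on the edges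
through `v` form, together with `v`, an affine basis of the lattice, with respect to which all
points of `P` have nonnegative coordinates. -/
structure SmP {Λ : Type} [AddCommGroup Λ] (P : Finset Λ) : Prop where
  ne : P.Nonempty
  vx : ∀ μ ∈ P, ∃ v ∈ P,
    (∃ s : Multiset Λ, (∀ κ ∈ s, κ ∈ P) ∧ (s.card + 1) • μ = v + s.sum) ∧
    ∃ (n : ℕ) (b : Basis (Fin n) ℤ Λ), (∀ i, v + b i ∈ P) ∧ ∀ κ ∈ P, ∀ i, 0 ≤ b.repr (κ - v) i

/-- `P` is large near the vertex `v`, for the action of `τ` of order `p`. -/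
def Lg {Λ : Type} [AddCommGroup Λ] {n : ℕ} (b : Basis (Fin n) ℤ Λ) (τ : Λ →+ Λ) (p : ℕ)
    (P : Finset Λ) (v : Λ) : Prop :=
  ∀ I : Set (Fin n), (∀ a, Sp b I a → Sp b I (τ a)) →
    ∃ (r : ℕ) (g : Fin r → Λ), Fam b τ p I g ∧
      ∀ i, ∃ μ ∈ P, ∃ ν ∈ P, Sp b I (μ - v) ∧ Sp b I (ν - v) ∧ μ - ν = g i

/-- **PK**: a multiple of a smooth polytope is large near the vertices. -/
def S_PK : Prop := ∀ (Λ G : Type) [AddCommGroup Λ] [Group G] [Finite G] [DistribMulAction G Λ]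
  (P : Finset Λ), SmP P → (∀ (g : G), ∀ μ ∈ P, g • μ ∈ P) →
  ∃ P' : Finset Λ, P'.Nonempty ∧ (∀ (g : G), ∀ μ ∈ P', g • μ ∈ P') ∧
    ∀ μ ∈ P', ∃ v ∈ P',
      (∃ s : Multiset Λ, (∀ κ ∈ s, κ ∈ P') ∧ (s.card + 1) • μ = v + s.sum) ∧
      ∃ (n : ℕ) (b : Basis (Fin n) ℤ Λ), (∀ i, v + b i ∈ P') ∧
        (∀ κ ∈ P', ∀ i, 0 ≤ b.repr (κ - v) i) ∧
        ∀ (g : G) (p : ℕ), p.Prime → (∀ a : Λ, (DistribSMul.toAddMonoidHom Λ g)^[p] a = a) →
          Lg b (DistribSMul.toAddMonoidHom Λ g) p P' v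

/-! ## The Jacobian condition -/

/-- The nonnegative part of the coordinates of `a`. -/
noncomputable def ps {Λ : Type} [AddCommGroup Λ] {n : ℕ} (b : Basis (Fin n) ℤ Λ) (a : Λ) :
    Fin n →₀ ℕ :=
  (b.repr a).mapRange Int.toNat Int.toNat_zero

/-- The binomial of the character `κ`. -/
noncomputable def bin (O : Type) [CommRing O] {Λ : Type} [AddCommGroup Λ] {n : ℕ}
    (b : Basis (Fin n) ℤ Λ) (κ : Λ) : MvPolynomial (Fin n) O :=
  monomial (ps b κ) 1 - monomial (ps b (-κ)) 1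

/-- The difference of order `a` of the monomials with the exponents `e 0`, `e 1`, .... -/
noncomputable def tt (O : Type) [CommRing O] {n : ℕ} (e : ℕ → Fin n →₀ ℕ) (a : ℕ) :
    MvPolynomial (Fin n) O :=
  ∑ k ∈ Finset.range (a + 1), monomial (e k) ((-1) ^ (a - k) * (a.choose k : O))

/-- **JAC**: the Jacobian condition for the parameters. -/
def S_JAC : Prop := ∀ (O Λ : Type) [CommRing O] [IsDomain O] [AddCommGroup Λ] (n : ℕ)
  (b : Basis (Fin n) ℤ Λ) (τ : Λ →+ Λ) (p : ℕ), p.Prime →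
  ∀ (Q : Ideal (MvPolynomial (Fin n) O)) [Q.IsPrime], (C (p : O) : MvPolynomial (Fin n) O) ∈ Q →
  ∀ I : Set (Fin n), (∀ i, i ∈ I ↔ (X i : MvPolynomial (Fin n) O) ∉ Q) →
  (∀ a, Sp b I a → Sp b I (τ a)) → ∀ (r : ℕ) (g : Fin r → Λ), Fam b τ p I g →
  (∀ (i : Fin r) (a : Fin (p - 1)), bin O b ((dl τ)^[a] (g i)) ∈ Q) →
  ∀ (m : ℕ) (ψ : Fin m → ℕ → Fin n), (∀ j k, k < p → ψ j k ∉ I) →
  (∀ j k j' k', k < p → k' < p → ψ j k = ψ j' k' → j = j' ∧ k = k') →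
  ∀ e : Fin m → ℕ → Fin n →₀ ℕ, (∀ j k, k < p → e j k (ψ j k) = 1) →
  (∀ j k, k < p → ∀ i, i ∉ I → i ≠ ψ j k → e j k i = 0) →
  ∀ (c : Fin r → Fin (p - 1) → MvPolynomial (Fin n) O)
    (c' : Fin m → Fin (p - 1) → MvPolynomial (Fin n) O),
  (∀ l, ∑ i, ∑ a : Fin (p - 1), c i a * pderiv l (bin O b ((dl τ)^[a] (g i))) +
    ∑ j, ∑ a : Fin (p - 1), c' j a * pderiv l (tt O (e j) (a + 1)) ∈ Q) →
  (∀ i a, c i a ∈ Q) ∧ ∀ j a, c' j a ∈ Q

/-! ## Covers -/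

/-- **COV**: regularity from a cover by regular rings. -/
def S_COV : Prop := ∀ (D : Type) [CommRing D] [IsDomain D] (B : Subring D), IsNoetherianRing B →
  (∀ (q : Ideal B) [q.IsPrime], ∃ (B' : Subring D) (f g : D) (hf : f ∈ B),
    (⟨f, hf⟩ : B) ∉ q ∧ g ∈ B' ∧ f * g = 1 ∧ IsRegularRing B' ∧
    (∀ b ∈ B, ∃ N : ℕ, b * g ^ N ∈ B') ∧ (∀ b ∈ B', ∃ N : ℕ, b * f ^ N ∈ B)) →
  IsRegularRing B

end Pool.Agent.K3h75.TO
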