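import Pool.Agent.W418.LU2.Ind

/-!
# Algebraic tori over number fields: regular parameters of polynomial rings
-/

set_option autoImplicit false

namespace Pool.Agent.K3h75.TO

open Pool.Agent.W418.LU2 MvPolynomial

/-! ## Regular parameters -/

/-- **IND**: regular parameters of a polynomial ring over a Dedekind domain, by the Jacobian
criterion. -/
def S_IND : Prop := ∀ (O : Type) [CommRing O] [IsDomain O] [IsDedekindDomain O] (n : ℕ)
  (Q : Ideal (MvPolynomial (Fin n) O)) [Q.IsPrime] (𝔓 : Ideal O), 𝔓.IsMaximal → 𝔓 ≠ ⊥ →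
  Q.comap (C : O →+* MvPolynomial (Fin n) O) = 𝔓 → ∀ π ∈ 𝔓, π ∉ 𝔓 ^ 2 →
  ∀ (α : Type) [Fintype α] (u : α → MvPolynomial (Fin n) O), (∀ a, u a ∈ Q) →
  (∀ c : α → MvPolynomial (Fin n) O, (∀ i, ∑ a, c a * pderiv i (u a) ∈ Q) → ∀ a, c a ∈ Q) →
  Ind (fun a : Option α => algebraMap (MvPolynomial (Fin n) O) (Localization.AtPrime Q)
    (a.elim (C π) u))

end Pool.Agent.K3h75.TO
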