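import Pool.Agent.Y223.G.WDefs
import Pool.Agent.K3h75.TO.StmA
import Pool.Agent.K3h75.TO.StmI

/-!
# Algebraic tori over number fields: the graded algebra at a wild prime
-/

set_option autoImplicit false

namespace Pool.Agent.K3h75.TO

open Pool.Agent.Y223.G Pool.Agent.W418.LU2 MvPolynomial Module

/-! ## The graded algebra at a wild prime -/

/-- Characters with values in the field `K`. -/
structure Chr (Λ O K : Type) [AddCommGroup Λ] [CommRing O] [Field K] [Algebra O K]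
    (x : Λ → K) : Prop where
  zero : x 0 = 1
  add : ∀ a b, x (a + b) = x a * x b
  ind : LinearIndependent O x

/-- The action of an automorphism of prime order `p` with wild ramification at `𝔓`. -/
structure Wd (Λ O K : Type) [AddCommGroup Λ] [CommRing O] [IsDomain O] [IsDedekindDomain O]
    [Field K] [Algebra O K] (x : Λ → K) (σ : K ≃+* K) (t : O ≃+* O) (τ : Λ →+ Λ) (p l : ℕ)
    (𝔓 : Ideal O) : Prop extends Chr Λ O K x where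
  pp : p.Prime
  mx : 𝔓.IsMaximal
  ne : 𝔓 ≠ ⊥
  com : ∀ o, σ (algebraMap O K o) = algebraMap O K (t o)
  act : ∀ a, σ (x a) = x (τ a)
  ord : ∀ y, σ^[p] y = y
  l1 : 1 ≤ l
  dv : ∀ o, t o - o ∈ 𝔓 ^ (l + 1)
  un : ∃ π ∈ 𝔓, t π - π ∉ 𝔓 ^ (l + 2)
  pl : (p : O) ∈ 𝔓 ^ ((p - 1) * l)

/-- The set `P` at the vertex `v`. -/
structure Vx {Λ : Type} [AddCommGroup Λ] {n : ℕ} (b : Basis (Fin n) ℤ Λ) (τ : Λ →+ Λ) (p : ℕ)
    (P : Finset Λ) (v : Λ) : Prop where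
  vP : v ∈ P
  st : ∀ a ∈ P, τ a ∈ P
  bP : ∀ i, v + b i ∈ P
  nn : ∀ a ∈ P, ∀ i, 0 ≤ b.repr (a - v) i
  lg : Lg b τ p P v

/-- The graded algebra of the weighted blowup over the chart of the form `s`: it is generated by
`T⁻¹`, `e T` for `e ∈ 𝔓`, `x μ / s` for `μ ∈ P` and
`(σ ^ e - 1) ^ a (x μ - x ν) / s T ^ ((a + 1) l)`, where the norm of `μ - ν` is zero. -/
noncomputable def WB {Λ O K : Type} [AddCommGroup Λ] [CommRing O] [Field K] [Algebra O K]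
    (x : Λ → K) (σ : K ≃+* K) (τ : Λ →+ Λ) (p l : ℕ) (𝔓 : Ideal O) (P : Finset Λ) (s : K) :
    Subalgebra O (LP K) :=
  Algebra.adjoin O ({hm (-1) 1} ∪ {f | ∃ e ∈ 𝔓, f = hm 1 (algebraMap O K e)} ∪
    {f | ∃ μ ∈ P, f = hm 0 (x μ / s)} ∪
    {f | ∃ (e a : ℕ) (μ ν : Λ), 1 ≤ e ∧ e < p ∧ a < p ∧ μ ∈ P ∧ ν ∈ P ∧ Nm τ p (μ - ν) = 0 ∧
      f = hm (((a + 1) * l : ℕ) : ℤ) ((df (σ^[e]))^[a] (x μ - x ν) / s)})

/-- `f` is in the ideal `Q` of the algebra `R`. -/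
def MQ {O A : Type} [CommRing O] [CommRing A] [Algebra O A] (R : Subalgebra O A) (Q : Ideal R)
    (f : A) : Prop := ∃ h : f ∈ R, (⟨f, h⟩ : R) ∈ Q

/-- The ideal `Q` contains the zeros of the leading form of `σ - 1`, in the chart `s`. -/
structure Zr {Λ O K : Type} [AddCommGroup Λ] [CommRing O] [Field K] [Algebra O K]
    (x : Λ → K) (σ : K ≃+* K) (t : O ≃+* O) (τ : Λ →+ Λ) (p l : ℕ) (𝔓 : Ideal O) (P : Finset Λ)
    (s : K) (Q : Ideal (WB x σ τ p l 𝔓 P s)) : Prop where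
  z1 : ∀ e ∈ 𝔓, MQ _ Q (hm 0 (algebraMap O K e))
  z2 : ∀ e ∈ 𝔓, MQ _ Q (hm (1 + l) (algebraMap O K (t e - e)))
  z3 : ∀ μ ∈ P, MQ _ Q (hm l ((s * σ (x μ) - x μ * σ s) / s ^ 2))
  z4 : ∀ (e a : ℕ) (μ ν : Λ), 1 ≤ e → e < p → a < p → μ ∈ P → ν ∈ P → Nm τ p (μ - ν) = 0 →
    MQ _ Q (hm ((((a + 1) * l : ℕ) : ℤ) + l)
      ((s * σ ((df (σ^[e]))^[a] (x μ - x ν)) - (df (σ^[e]))^[a] (x μ - x ν) * σ s) / s ^ 2))

/-- **VREG**: the graded algebra at a vertex is regular. -/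
def S_VREG : Prop := ∀ (Λ O K : Type) [AddCommGroup Λ] [CommRing O] [IsDomain O]
  [IsDedekindDomain O] [Field K] [Algebra O K] (x : Λ → K) (σ : K ≃+* K) (t : O ≃+* O)
  (τ : Λ →+ Λ) (p l : ℕ) (𝔓 : Ideal O), Wd Λ O K x σ t τ p l 𝔓 → ∀ (n : ℕ)
  (b : Basis (Fin n) ℤ Λ) (P : Finset Λ) (v : Λ), Vx b τ p P v →
  IsRegularRing (WB x σ τ p l 𝔓 P (x v))

/-- **VNZ**: the leading form of `σ - 1` has no zeros outside the vertex, in the chart of a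
vertex. -/
def S_VNZ : Prop := ∀ (Λ O K : Type) [AddCommGroup Λ] [CommRing O] [IsDomain O]
  [IsDedekindDomain O] [Field K] [Algebra O K] (x : Λ → K) (σ : K ≃+* K) (t : O ≃+* O)
  (τ : Λ →+ Λ) (p l : ℕ) (𝔓 : Ideal O), Wd Λ O K x σ t τ p l 𝔓 → ∀ (n : ℕ)
  (b : Basis (Fin n) ℤ Λ) (P : Finset Λ) (v : Λ), Vx b τ p P v →
  ∀ (Q : Ideal (WB x σ τ p l 𝔓 P (x v))) [Q.IsPrime], Zr x σ t τ p l 𝔓 P (x v) Q →
  ∀ (k : ℕ) (y : K), 0 < k → hm k y ∈ WB x σ τ p l 𝔓 P (x v) → MQ _ Q (hm k y)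

end Pool.Agent.K3h75.TO
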