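import Pool.Agent.K3h75.TO.StmA

/-!
# Algebraic tori over number fields: existence of a stable smooth polytope

A finite group `G` acts on a lattice; there is a smooth projective `G`-stable fan (Brylinski,
Künnemann; Colliot-Thélène, Harari, Skorobogatov). Elementary version: the maximal cones are given
by the sets of their generators, the support function by its values on the generators.
-/

set_option autoImplicit false

namespace Pool.Agent.K3h75.TO

open Module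

/-- `S` is the set of the maximal cones (given by their generators) of a simplicial fan, `φ` is a
strictly concave support function (given by its values on the generators). -/
structure Dat {N : Type} [AddCommGroup N] (φ : N → ℚ) (S : Finset (Finset N)) : Prop where
  ne : S.Nonempty
  card : ∀ σ ∈ S, σ.card = Module.finrank ℤ N
  ind : ∀ σ ∈ S, LinearIndependent ℤ (fun u : {u // u ∈ σ} => (u : N))
  cvx : ∀ σ ∈ S, ∃ v : N →+ ℚ, (∀ u ∈ σ, v u = φ u) ∧ ∀ σ' ∈ S, ∀ u ∈ σ', u ∉ σ → φ u < v u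
  adj : ∀ σ ∈ S, ∀ u ∈ σ, ∃ σ' ∈ S, u ∉ σ' ∧ ∀ w ∈ σ, w ≠ u → w ∈ σ'

/-- The data are stable under the group; the generators have colours, fixed by the group, such that
the generators of a cone have different colours. -/
structure DatG (G : Type) {N : Type} [AddCommGroup N] [Group G] [DistribMulAction G N]
    (φ : N → ℚ) (S : Finset (Finset N)) (c : N → ℕ) : Prop extends Dat φ S where
  st : ∀ (g : G), ∀ σ ∈ S, ∃ σ' ∈ S, ∀ w, w ∈ σ' ↔ g⁻¹ • w ∈ σ
  φ_st : ∀ (g : G), ∀ σ ∈ S, ∀ u ∈ σ, φ (g • u) = φ u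
  c_st : ∀ (g : G), ∀ σ ∈ S, ∀ u ∈ σ, c (g • u) = c u
  c_inj : ∀ σ ∈ S, ∀ u ∈ σ, ∀ u' ∈ σ, c u = c u' → u = u'

/-- **EXA**: the flags of the cells of a hyperplane arrangement. -/
def S_EXA : Prop := ∀ (G N : Type) [AddCommGroup N] [Module.Free ℤ N] [Module.Finite ℤ N]
  [Group G] [Finite G] [DistribMulAction G N],
  ∃ (φ : N → ℚ) (S : Finset (Finset N)) (c : N → ℕ), DatG G φ S c

/-- **EXB**: the star subdivision at an orbit of lattice points. -/
def S_EXB : Prop := ∀ (G N : Type) [AddCommGroup N] [Module.Free ℤ N] [Module.Finite ℤ N]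
  [Group G] [Finite G] [DistribMulAction G N], ∃ mlt : Finset N → ℕ,
  ∀ (φ : N → ℚ) (S : Finset (Finset N)) (c : N → ℕ), DatG G φ S c → ∀ σ₀ ∈ S,
  AddSubgroup.closure (σ₀ : Set N) ≠ ⊤ →
  ∃ (φ' : N → ℚ) (S' : Finset (Finset N)) (c' : N → ℕ), DatG G φ' S' c' ∧ σ₀ ∉ S' ∧
    ∀ σ' ∈ S', σ' ∈ S ∨ ∃ σ ∈ S, AddSubgroup.closure (σ : Set N) ≠ ⊤ ∧ mlt σ' < mlt σ

/-- **EXC**: the resolution. -/
def S_EXC : Prop := S_EXB → ∀ (G N : Type) [AddCommGroup N] [Module.Free ℤ N]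
  [Module.Finite ℤ N] [Group G] [Finite G] [DistribMulAction G N] (φ : N → ℚ)
  (S : Finset (Finset N)) (c : N → ℕ), DatG G φ S c →
  ∃ (φ' : N → ℚ) (S' : Finset (Finset N)) (c' : N → ℕ), DatG G φ' S' c' ∧
    ∀ σ ∈ S', AddSubgroup.closure (σ : Set N) = ⊤

/-- **EXD**: the polytope. -/
def S_EXD : Prop := ∀ (G N Λ : Type) [AddCommGroup N] [Module.Free ℤ N] [Module.Finite ℤ N]
  [AddCommGroup Λ] [Group G] [Finite G] [DistribMulAction G N] [DistribMulAction G Λ]
  (B : N →+ Λ →+ ℤ), (∀ (g : G) u a, B (g • u) (g • a) = B u a) →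
  (∀ f : N →+ ℤ, ∃! a : Λ, ∀ u, B u a = f u) →
  ∀ (φ : N → ℚ) (S : Finset (Finset N)) (c : N → ℕ), DatG G φ S c →
  (∀ σ ∈ S, AddSubgroup.closure (σ : Set N) = ⊤) →
  ∃ P : Finset Λ, SmP P ∧ ∀ (g : G), ∀ μ ∈ P, g • μ ∈ P

/-- **EXP**: a lattice with an action of a finite group has a stable smooth polytope. -/
def S_EXP : Prop := ∀ (G Λ : Type) [AddCommGroup Λ] [Module.Free ℤ Λ] [Module.Finite ℤ Λ]
  [Group G] [Finite G] [DistribMulAction G Λ],
  ∃ P : Finset Λ, SmP P ∧ ∀ (g : G), ∀ μ ∈ P, g • μ ∈ P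

end Pool.Agent.K3h75.TO
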