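import Pool.Agent.R383.TM.NumF
import Pool.Agent.K3h75.TO.Stm2

/-!
# Algebraic tori over number fields: wild inertia groups of order `p` in number fields; the assembly
-/

set_option autoImplicit false

open NumberField

namespace Pool.Agent.K3h75.TO

open Pool.Agent.Y223.G Pool.Agent.W418.LU2 Pool.Agent.R383.TM Module

/-- **NUM**: the wild inertia group of a prime of a number field, of order `p`. -/
def S_NUM : Prop := ∀ (E M : Type) [Field E] [NumberField E] [Field M] [NumberField M]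
  [Algebra E M] [IsGalois E M] (𝔓 : Ideal (𝓞 M)), 𝔓.IsMaximal →
  (∀ p : ℕ, p.Prime → (p : 𝓞 M) ∈ 𝔓 → ¬ p ^ 2 ∣ Nat.card (inert E 𝔓)) →
  ∀ g : M ≃ₐ[E] M, IsW E 𝔓 g → ∃ p l : ℕ, p.Prime ∧ 1 ≤ l ∧ 𝔓 ≠ ⊥ ∧ g ^ p = 1 ∧
    (p : 𝓞 M) ∈ 𝔓 ^ ((p - 1) * l) ∧ (∀ o : 𝓞 M, TT E M g o - o ∈ 𝔓 ^ (l + 1)) ∧
    (∃ π ∈ 𝔓, TT E M g π - π ∉ 𝔓 ^ (l + 2)) ∧
    ∀ h : M ≃ₐ[E] M, IsW E 𝔓 h ↔ ∃ e : ℕ, 1 ≤ e ∧ e < p ∧ h = g ^ e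

/-- **FML**: the family of the coordinates. -/
def S_FML : Prop := S_PK → S_VREG → S_VNZ → S_CHT → S_CH0 → S_NUM →
  ∀ (E M : Type) [Field E] [NumberField E] [Field M] [NumberField M] [Algebra E M]
  [IsGalois E M], (∀ 𝔓 : Ideal (𝓞 M), 𝔓.IsMaximal → ∀ p : ℕ, p.Prime → (p : 𝓞 M) ∈ 𝔓 →
    ¬ p ^ 2 ∣ Nat.card (inert E 𝔓)) →
  ∀ (Λ : Type) [AddCommGroup Λ] [DistribMulAction (M ≃ₐ[E] M) Λ] (P : Finset Λ), SmP P →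
  (∀ (g : M ≃ₐ[E] M), ∀ μ ∈ P, g • μ ∈ P) →
  ∀ (K : Type) [Field K] [Algebra M K] [Algebra E K] [IsScalarTower E M K]
  (ρ : (M ≃ₐ[E] M) →* (K ≃ₐ[E] K)), (∀ g c, ρ g (algebraMap M K c) = algebraMap M K (g c)) →
  ∀ x : Λ → K, x 0 = 1 → (∀ a b, x (a + b) = x a * x b) → LinearIndependent M x →
  IntermediateField.adjoin M (Set.range x) = ⊤ → (∀ g a, ρ g (x a) = x (g • a)) →
  ∃ (m : ℕ) (z : Fin (m + 1) → K), (∀ j, z j ≠ 0) ∧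
    IntermediateField.adjoin M (Set.range fun j => z j / z 0) = ⊤ ∧
    (∀ g j, ρ g (z j) ∈ Submodule.span (𝓞 M) (Set.range z)) ∧
    (∀ j, IsRegularRing (Algebra.adjoin (𝓞 M) (Set.range fun i => z i / z j))) ∧
    ∃ (e : Ideal (𝓞 M) → ℕ) (w : Ideal (𝓞 M) → Fin (m + 1) → ℕ), DATA ρ z e w

end Pool.Agent.K3h75.TO
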