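import Pool.Agent.K3h75.TO.VReg

/-!
# Algebraic tori over number fields: VNZ
-/

set_option autoImplicit false
set_option linter.unusedSectionVars false
set_option linter.overlappingInstances false

namespace Pool.Agent.K3h75.TO

open Pool.Agent.Y223.G Pool.Agent.W418.LU2 MvPolynomial Module Pool.Agent.Y614.WC IsLocalRing
open Pool.Agent.K3h8.FixZ (Nn mn_add mn_zero)

section mq

variable {O A : Type} [CommRing O] [CommRing A] [Algebra O A] {R : Subalgebra O A} {q : Ideal R}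

lemma MQ.add {f g : A} (hf : MQ R q f) (hg : MQ R q g) : MQ R q (f + g) :=
  ⟨R.add_mem hf.1 hg.1, q.add_mem hf.2 hg.2⟩

lemma MQ.neg {f : A} (hf : MQ R q f) : MQ R q (-f) :=
  ⟨R.neg_mem hf.1, q.neg_mem hf.2⟩

lemma MQ.zero : MQ R q (0 : A) := ⟨R.zero_mem, q.zero_mem⟩

lemma MQ.smul {f g : A} (hg : g ∈ R) (hf : MQ R q f) : MQ R q (g * f) :=
  ⟨R.mul_mem hg hf.1, q.mul_mem_left ⟨g, hg⟩ hf.2⟩

lemma MQ.prime [hq : q.IsPrime] {f g : A} (hf : f ∈ R) (hg : g ∈ R) (h : MQ R q (f * g)) :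
    MQ R q f ∨ MQ R q g := by
  obtain ⟨h1, h2⟩ := h
  have h3 : (⟨f * g, h1⟩ : R) = ⟨f, hf⟩ * ⟨g, hg⟩ := rfl
  rw [h3] at h2
  exact (hq.mem_or_mem h2).imp (fun h => ⟨hf, h⟩) fun h => ⟨hg, h⟩

lemma MQ.pow [hq : q.IsPrime] {f : A} (hf : f ∈ R) {k : ℕ} (h : MQ R q (f ^ k)) : MQ R q f := by
  obtain ⟨h1, h2⟩ := h
  have h3 : (⟨f ^ k, h1⟩ : R) = ⟨f, hf⟩ ^ k := rfl
  rw [h3] at h2
  exact ⟨hf, hq.mem_of_pow_mem k h2⟩

end mq

/-- A multiple of the power of the uniformizer. -/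
lemma unif_pow {O : Type} [CommRing O] [IsDomain O] [IsDedekindDomain O] {𝔓 : Ideal O} {k : ℕ}
    {π a : O} (hπ : π ∈ 𝔓) (h1 : a ∈ 𝔓 ^ k) (h2 : a ∉ 𝔓 ^ (k + 1)) :
    ∃ s : O, s ∉ 𝔓 ∧ ∃ o : O, s * π ^ k = a * o := by
  have h3 : 𝔓 ^ k ∣ Ideal.span {a} := by
    rw [Ideal.dvd_iff_le, Ideal.span_singleton_le_iff_mem]
    exact h1
  obtain ⟨𝔞, h𝔞⟩ := h3
  have h4 : ¬ 𝔞 ≤ 𝔓 := by
    intro h
    apply h2
    have h5 : a ∈ 𝔓 ^ k * 𝔞 := by
      rw [← h𝔞]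
      exact Ideal.mem_span_singleton_self a
    rw [pow_succ]
    exact Ideal.mul_mono_right h h5
  obtain ⟨s, hs, hs'⟩ := Set.not_subset.1 h4
  refine ⟨s, hs', ?_⟩
  have h6 : π ^ k * s ∈ Ideal.span {a} := by
    rw [h𝔞]
    exact Ideal.mul_mem_mul (Ideal.pow_mem_pow hπ k) hs
  obtain ⟨o, ho⟩ := Ideal.mem_span_singleton.1 h6
  exact ⟨o, by rw [mul_comm, ho]⟩

section vtx

variable {Λ O K : Type} [AddCommGroup Λ] [CommRing O] [IsDomain O] [IsDedekindDomain O]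
  [Field K] [Algebra O K] {x : Λ → K} {σ : K ≃+* K} {t : O ≃+* O} {τ : Λ →+ Λ} {p l : ℕ}
  {𝔓 : Ideal O} {n : ℕ} {b : Basis (Fin n) ℤ Λ} {P : Finset Λ} {v : Λ}
  {Q : Ideal (MvPolynomial (Fin n) O)} [hQ : Q.IsPrime]
  {q : Ideal (WB x σ τ p l 𝔓 P (x v))}

/-- The prime ideal of the graded algebra over `Q` with the zeros of the leading form. -/
structure Sz (x : Λ → K) (σ : K ≃+* K) (t : O ≃+* O) (τ : Λ →+ Λ) (p l : ℕ) (𝔓 : Ideal O)
    (b : Basis (Fin n) ℤ Λ) (P : Finset Λ) (v : Λ) (Q : Ideal (MvPolynomial (Fin n) O))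
    (q : Ideal (WB x σ τ p l 𝔓 P (x v))) : Prop extends St x σ t τ p l 𝔓 b P v Q where
  pr : q.IsPrime
  ov : ∀ c, c ∈ Q ↔ MQ _ q (hm 0 (ej O b x c))
  zr : Zr x σ t τ p l 𝔓 P (x v) q

/-- The part of degree `k` of the prime ideal. -/
def Qn (x : Λ → K) (σ : K ≃+* K) (τ : Λ →+ Λ) (p l : ℕ) (𝔓 : Ideal O) (P : Finset Λ) (v : Λ)
    (q : Ideal (WB x σ τ p l 𝔓 P (x v))) (k : ℕ) : AddSubgroup K where
  carrier := {y | MQ _ q (hm k y)}
  zero_mem' := by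
    change MQ _ q (hm k 0)
    rw [hm_zero]
    exact MQ.zero
  add_mem' := by
    intro a c ha hc
    change MQ _ q (hm k (a + c))
    rw [hm_add]
    exact MQ.add ha hc
  neg_mem' := by
    intro a ha
    change MQ _ q (hm k (-a))
    rw [hm_neg]
    exact MQ.neg ha

variable (h : Sz x σ t τ p l 𝔓 b P v Q q)
include h

lemma Sz.Qn_smul (k : ℕ) (c : MvPolynomial (Fin n) O) (y : K)
    (hy : y ∈ Qn x σ τ p l 𝔓 P v q k) : ej O b x c * y ∈ Qn x σ τ p l 𝔓 P v q k := by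
  have h1 := MQ.smul (ej_mem (σ := σ) (τ := τ) (p := p) (l := l) (𝔓 := 𝔓) h.toSt.chr
    h.vx.bP c) hy
  rwa [hm_mul, zero_add] at h1

/-- The localization of the prime ideal. -/
noncomputable def Sz.QQ (h : Sz x σ t τ p l 𝔓 b P v Q q) (k : ℕ) : AddSubgroup K :=
  LZ (ej O b x) Q (Qn x σ τ p l 𝔓 P v q k) (h.Qn_smul k)

lemma Sz.QQ_of {k : ℕ} {y : K} (hy : MQ _ q (hm k y)) : y ∈ h.QQ k := LZ_of hy

lemma Sz.hle (k : ℕ) : h.QQ k ≤ h.toSt.RQ k := by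
  rintro y ⟨c, hc, hy⟩
  exact ⟨c, hc, hy.1⟩

lemma Sz.hH (m k : ℕ) (hmk : m ≤ k) : h.QQ k ≤ h.QQ m := by
  rintro y ⟨c, hc, hy⟩
  refine ⟨c, hc, ?_⟩
  have h1 := MQ.smul (Subalgebra.pow_mem _ (WB_T (x := x) (σ := σ) (τ := τ) (p := p) (l := l)
    (𝔓 := 𝔓) (P := P) (s := x v)) (k - m)) hy
  rw [hm_pow, hm_mul, one_pow, one_mul] at h1
  have h2 : ((k - m : ℕ) : ℤ) * -1 + k = m := by omega
  rw [h2] at h1
  exact h1

lemma Sz.hm' (m k : ℕ) (y z : K) (hy : y ∈ h.toSt.RQ m) (hz : z ∈ h.QQ k) :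
    y * z ∈ h.QQ (m + k) := by
  obtain ⟨c, hc, hy⟩ := hy
  obtain ⟨d, hd, hz⟩ := hz
  refine ⟨c * d, hQ.mul_notMem hc hd, ?_⟩
  have h1 := MQ.smul hy hz
  rw [hm_mul] at h1
  rw [map_mul]
  change MQ _ q (hm ((m + k : ℕ) : ℤ) _)
  convert h1 using 2
  · push_cast
    ring
  · ring

lemma Sz.QQ_smul {k : ℕ} {y z : K} (hy : y ∈ LL (ej O b x) Q) (hz : z ∈ h.QQ k) :
    y * z ∈ h.QQ k := by
  have h1 := h.hm' 0 k y z (h.toSt.RQ_fil.one y hy) hz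
  rwa [zero_add] at h1

/-- An element of positive degree `k` is in `q` if it is in the localization. -/
lemma Sz.of_QQ {k : ℕ} {y : K} (hy : hm k y ∈ WB x σ τ p l 𝔓 P (x v)) (hy' : y ∈ h.QQ k) :
    MQ _ q (hm k y) := by
  have := h.pr
  obtain ⟨c, hc, h1⟩ := hy'
  have h2 : hm k (ej O b x c * y) = hm 0 (ej O b x c) * hm k y := by rw [hm_mul, zero_add]
  change MQ _ q (hm k (ej O b x c * y)) at h1
  rw [h2] at h1
  rcases MQ.prime (ej_mem (σ := σ) (τ := τ) (p := p) (l := l) (𝔓 := 𝔓) h.toSt.chr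
    h.vx.bP c) hy h1 with h3 | h3
  · exact absurd ((h.ov c).2 h3) hc
  · exact h3

/-- The root of an element of the localization. -/
lemma Sz.QQ_root {k : ℕ} {y : K} (hy : y ∈ h.toSt.RQ k) {s : ℕ} (hs : s ≠ 0)
    (hys : y ^ s ∈ h.QQ (s * k)) : y ∈ h.QQ k := by
  have := h.pr
  obtain ⟨c, hc, h1⟩ := hy
  refine ⟨c, hc, ?_⟩
  rw [mem_Rn] at h1
  change MQ _ q (hm k (ej O b x c * y))
  refine MQ.pow h1 (k := s) ?_
  rw [hm_pow]
  have h2 : (ej O b x c * y) ^ s ∈ h.QQ (s * k) := by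
    rw [mul_pow, ← map_pow]
    exact h.QQ_smul (LL_of _) hys
  have h3 := Subalgebra.pow_mem _ h1 s
  rw [hm_pow] at h3
  exact_mod_cast h.of_QQ (by exact_mod_cast h3) h2

/-- The filtration `GZ`: the algebra in degree zero, the ideal in positive degrees. -/
noncomputable def Sz.GZ (h : Sz x σ t τ p l 𝔓 b P v Q q) (k : ℕ) : AddSubgroup K :=
  if k = 0 then h.toSt.RQ 0 else h.QQ k

lemma Sz.GZ_zero : h.GZ 0 = h.toSt.RQ 0 := if_pos rfl

lemma Sz.GZ_pos {k : ℕ} (hk : k ≠ 0) : h.GZ k = h.QQ k := if_neg hk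

lemma Sz.GZ_le (k : ℕ) : h.GZ k ≤ h.toSt.RQ k := by
  by_cases hk : k = 0
  · subst hk
    rw [h.GZ_zero]
  · rw [h.GZ_pos hk]
    exact h.hle k

lemma Sz.GZ_fil : Fil (LL (ej O b x) Q) h.GZ where
  one := fun y hy => by
    rw [h.GZ_zero]
    exact h.toSt.RQ_fil.one y hy
  mul := fun m k y z hy hz => by
    by_cases hk : k = 0
    · subst hk
      rw [h.GZ_zero] at hz
      by_cases hm0 : m = 0
      · subst hm0
        rw [h.GZ_zero] at hy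
        rw [add_zero, h.GZ_zero]
        exact h.toSt.RQ_fil.mul 0 0 _ _ hy hz
      · rw [h.GZ_pos hm0] at hy
        rw [add_zero, h.GZ_pos hm0, mul_comm]
        have h1 := h.hm' 0 m _ _ hz hy
        rwa [zero_add] at h1
    · rw [h.GZ_pos hk] at hz
      rw [h.GZ_pos (by omega)]
      exact h.hm' m k _ _ (h.GZ_le m hy) hz
  anti := fun m k hmk y hy => by
    by_cases hm0 : m = 0
    · subst hm0
      rw [h.GZ_zero]
      exact h.toSt.RQ_fil.anti 0 k (Nat.zero_le _) (h.GZ_le k hy)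
    · rw [h.GZ_pos hm0]
      rw [h.GZ_pos (by omega)] at hy
      exact h.hH m k hmk hy

variable {π : O} (h1π : π ∈ 𝔓) (h3π : t π - π ∉ 𝔓 ^ (l + 2))
include h1π h3π

/-- The uniformizer is in the ideal. -/
lemma Sz.pi_mem : algebraMap O K π ∈ h.GZ 1 := by
  have := h.pr
  rw [h.GZ_pos one_ne_zero]
  refine h.QQ_of ?_
  have h1 := h.zr.z2 π h1π
  obtain ⟨s, hs, o, hso⟩ := unif_pow h1π (h.dv π) h3π
  have h2 := MQ.smul (Subalgebra.algebraMap_mem (WB x σ τ p l 𝔓 P (x v)) o) h1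
  rw [algebraMap_LP, hm_mul, ← map_mul, mul_comm o, ← hso] at h2
  have h3 : hm (1 + l) (algebraMap O K (s * π ^ (l + 1))) = hm 0 (algebraMap O K s) *
      hm 1 (algebraMap O K π) ^ (l + 1) := by
    rw [hm_pow, hm_mul, map_mul, map_pow]
    congr 1
    push_cast
    ring
  rw [zero_add, h3] at h2
  have h4 : hm 0 (algebraMap O K s) ∈ WB x σ τ p l 𝔓 P (x v) := Subalgebra.algebraMap_mem _ s
  rcases MQ.prime h4 (Subalgebra.pow_mem _ (WB_e h1π) _) h2 with h5 | h5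
  · exfalso
    apply h.toSt.C_notMem hs
    rw [h.ov, ej_C]
    exact h5
  · exact MQ.pow (WB_e h1π) h5

lemma Sz.pow_mem (k : ℕ) {o : O} (ho : o ∈ 𝔓 ^ k) : algebraMap O K o ∈ h.GZ k :=
  h.toSt.pow_F h.GZ_fil h1π (not_mem_sq (t : O →+* O) h.dv h3π) (h.pi_mem h1π h3π) k ho

lemma Sz.p_mem' : (p : K) ∈ h.QQ ((p - 1) * l) := by
  have h1 : (p - 1) * l ≠ 0 := by
    have := h.pp.two_le
    have := h.l1
    exact Nat.mul_ne_zero (by omega) (by omega)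
  rw [← h.GZ_pos h1, ← map_natCast (algebraMap O K)]
  exact h.pow_mem h1π h3π _ h.pl

omit h1π h3π in
lemma Sz.tw {y : K} {w : ℕ}
    (hy : MQ _ q (hm (w + l) ((x v * σ y - y * σ (x v)) / x v ^ 2))) :
    σ (y / x v) - y / x v ∈ h.QQ (w + l) := by
  have h1 : σ (y / x v) - y / x v = x (v - τ v) * ((x v * σ y - y * σ (x v)) / x v ^ 2) := by
    rw [map_div₀, h.act, h.toSt.chr.sub]
    have := h.toSt.chr.ne v
    have := h.toSt.chr.ne (τ v)
    field_simp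
  rw [h1]
  exact h.QQ_smul h.toSt.tv_mem (h.QQ_of (by exact_mod_cast hy))

/-- `σ - 1` maps the algebra to the ideal. -/
lemma Sz.dQ {k : ℕ} {y : K} (hy : y ∈ h.toSt.RQ k) : σ y - y ∈ h.QQ (k + l) := by
  refine h.toSt.dst h.hle h.hH h.hm' ?_ ?_ ?_ ?_ hy
  · intro o
    refine h.hH l (l + 1) (by omega) ?_
    rw [← h.GZ_pos (Nat.succ_ne_zero l)]
    exact h.pow_mem h1π h3π _ (h.dv o)
  · intro e he
    exact h.QQ_of (by exact_mod_cast h.zr.z2 e he)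
  · intro μ hμ
    have h1 := h.tw (y := x μ) (w := 0) (by
      have := h.zr.z3 μ hμ
      rw [Nat.cast_zero, zero_add]
      exact this)
    rwa [zero_add] at h1
  · intro e a μ ν he1 he2 ha hμ hν hN
    exact h.tw (h.zr.z4 e a μ ν he1 he2 ha hμ hν hN)

variable {r : ℕ} {g : Fin r → Λ} {m : ℕ} {ψ : Fin m → ℕ → Fin n} (hp : Pr τ p b P v Q g ψ)
include hp

lemma Sz.Y_succ (i : Fin r) (a : ℕ) :
    x ((dl τ)^[a + 1] (g i)) - 1 ∈ h.QQ ((a + 1) * l + l) := by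
  have h1 := h.dQ h1π h3π (h.toSt.Y_mem hp i a)
  have h2 : x ((dl τ)^[a + 1] (g i)) - 1 = x (-((dl τ)^[a] (g i))) *
      (σ (x ((dl τ)^[a] (g i)) - 1) - (x ((dl τ)^[a] (g i)) - 1)) := by
    rw [Function.iterate_succ_apply']
    change x (τ _ - _) - 1 = _
    rw [map_sub, map_one, h.act, h.toSt.chr.sub, h.toSt.chr.neg]
    have := h.toSt.chr.ne ((dl τ)^[a] (g i))
    field_simp
    ring
  rw [h2]
  exact h.QQ_smul (h.toSt.x_mem (NN_of_Sp (Sp_neg (h.toSt.sp_dl (hp.F.sp i) a)))) h1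

/-- The parameter `Y` of weight `l` is in the ideal. -/
lemma Sz.Y_zero (i : Fin r) : x (g i) - 1 ∈ h.QQ l := by
  have hf := h.toSt.RQ_fil
  have hl := h.l1
  have hp2 := h.pp.two_le
  obtain ⟨κ, hκ, hN, hκ', hcl⟩ := hp.F.top i
  have hL : x κ ∈ LL (ej O b x) Q := h.toSt.x_mem (NN_of_Sp hκ)
  -- `x κ - 1`
  have hzR : x κ - 1 ∈ h.toSt.RQ l := by
    refine h.toSt.hl (fun y hy z hz => hf.smul hy hz) hp.F (fun i a _ => ?_) hκ hN
    exact hf.anti l ((a + 1) * l) (Nat.le_mul_of_pos_left l (Nat.succ_pos a))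
      (h.toSt.Y_mem hp i a)
  have h1 : x κ ^ p - 1 ∈ h.QQ (p * l) := by
    have h2 := h.Y_succ h1π h3π hp i (p - 2)
    rw [show p - 2 + 1 = p - 1 by omega, hκ', h.toSt.chr.neg, natCast_zsmul,
      h.toSt.chr.nsmul] at h2
    have h3 : (p - 1) * l + l = p * l := by
      have h8 : (p - 1 + 1) * l = (p - 1) * l + l := by ring
      rw [← h8, show p - 1 + 1 = p by omega]
    rw [h3] at h2
    have h4 : x κ ^ p - 1 = -(x κ ^ p * ((x κ ^ p)⁻¹ - 1)) := by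
      have := h.toSt.chr.ne κ
      field_simp
      ring
    rw [h4]
    exact AddSubgroup.neg_mem _ (h.QQ_smul (Subring.pow_mem _ hL p) h2)
  have hz : x κ - 1 ∈ h.QQ l := by
    refine h.QQ_root hzR h.pp.ne_zero ?_
    obtain ⟨s, hs⟩ := exists_add_pow_prime_eq h.pp
      (⟨x κ - 1, Subring.sub_mem _ hL (Subring.one_mem _)⟩ : LL (ej O b x) Q) 1
    have hs' := congrArg (fun y : LL (ej O b x) Q => (y : K)) hs
    have h4 : (x κ - 1 + 1) ^ p = (x κ - 1) ^ p + 1 ^ p + p * (x κ - 1) * 1 * s := by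
      simpa using hs'
    have h5 : (x κ - 1) ^ p = (x κ ^ p - 1) - s * ((x κ - 1) * p) := by
      rw [sub_add_cancel] at h4
      rw [h4]
      ring
    rw [h5]
    refine AddSubgroup.sub_mem _ h1 (h.QQ_smul s.2 ?_)
    have h6 := h.hm' l _ _ _ hzR (h.p_mem' h1π h3π)
    have h7 : l + (p - 1) * l = p * l := by
      have h8 : (p - 1 + 1) * l = (p - 1) * l + l := by ring
      rw [add_comm, ← h8, show p - 1 + 1 = p by omega]
    rwa [h7] at h6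
  -- the subgroup
  let S : AddSubgroup Λ :=
    { carrier := {a | Sp b (II Q) a ∧ x a - 1 ∈ h.QQ l}
      zero_mem' := ⟨Sp_zero, by rw [h.toSt.chr.zero, sub_self]; exact AddSubgroup.zero_mem _⟩
      add_mem' := by
        rintro a c ⟨ha, ha'⟩ ⟨hc, hc'⟩
        refine ⟨Sp_add ha hc, ?_⟩
        have h1 : x (a + c) - 1 = x a * (x c - 1) + (x a - 1) := by rw [h.toSt.chr.add]; ring
        rw [h1]
        exact AddSubgroup.add_mem _ (h.QQ_smul (h.toSt.x_mem (NN_of_Sp ha)) hc') ha'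
      neg_mem' := by
        rintro a ⟨ha, ha'⟩
        refine ⟨Sp_neg ha, ?_⟩
        have h1 : x (-a) - 1 = -(x (-a) * (x a - 1)) := by
          rw [h.toSt.chr.neg]
          have := h.toSt.chr.ne a
          field_simp
          ring
        rw [h1]
        exact AddSubgroup.neg_mem _ (h.QQ_smul (h.toSt.x_mem (NN_of_Sp (Sp_neg ha))) ha') }
  have h2 : κ - g i ∈ S := by
    refine (AddSubgroup.closure_le S).2 ?_ hcl
    rintro _ ⟨k, rfl⟩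
    exact ⟨h.toSt.sp_dl (hp.F.sp i) _, h.hH l _ (by omega) (h.Y_succ h1π h3π hp i k)⟩
  have h3 : κ ∈ S := ⟨hκ, hz⟩
  have h4 := S.sub_mem h3 h2
  rw [sub_sub_cancel] at h4
  exact h4.2

lemma Sz.Y_all (i : Fin r) (a : ℕ) : x ((dl τ)^[a] (g i)) - 1 ∈ h.QQ ((a + 1) * l) := by
  rcases a with _ | a
  · rw [zero_add, one_mul]
    exact h.Y_zero h1π h3π hp i
  · rw [show (a + 1 + 1) * l = (a + 1) * l + l by ring]
    exact h.Y_succ h1π h3π hp i a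

lemma Sz.H_mem {κ : Λ} (hκ : Sp b (II Q) κ) (hN : Nm τ p κ = 0) : x κ - 1 ∈ h.QQ l :=
  h.toSt.hl (fun _ hy _ hz => h.QQ_smul hy hz) hp.F (fun i a _ =>
    h.hH l ((a + 1) * l) (Nat.le_mul_of_pos_left l (Nat.succ_pos a))
      (h.Y_all h1π h3π hp i a)) hκ hN

lemma Sz.T_all (j : Fin m) {a : ℕ} (ha : a < p) :
    (df σ)^[a + 1] (x (v + b (ψ j 0))) / x v ∈ h.QQ ((a + 1) * l) := by
  have hR : (df σ)^[a] (x (v + b (ψ j 0))) / x v ∈ h.toSt.RQ (a * l) := by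
    rcases a with _ | a
    · rw [zero_mul]
      exact h.toSt.RQ_of (k := 0) (WB_x (h.vx.bP _))
    · exact h.toSt.RQ_of (h.toSt.T_mem _ (a + 1) (by omega) (by omega))
  rw [Function.iterate_succ_apply']
  generalize (df σ)^[a] (x (v + b (ψ j 0))) = y at hR
  have h1 := h.dQ h1π h3π hR
  have h3 : Sp b (II Q) (v - τ v) := by
    rw [← neg_sub]
    exact Sp_neg (h.toSt.sp_v 1)
  have h2 : x (v - τ v) - 1 ∈ h.QQ l :=
    h.H_mem h1π h3π hp h3 (by rw [Nm_sub, Nm_map h.tp, sub_self])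
  have h4 : df σ y / x v = x (τ v - v) * ((σ (y / x v) - y / x v) -
      y / x v * (x (v - τ v) - 1)) := by
    unfold df
    rw [h.toSt.tw_id, h.toSt.chr.sub, h.toSt.chr.sub]
    have := h.toSt.chr.ne v
    have := h.toSt.chr.ne (τ v)
    field_simp
    ring
  rw [h4, show (a + 1) * l = a * l + l by ring]
  exact h.QQ_smul (h.toSt.x_mem (NN_of_Sp (h.toSt.sp_v 1)))
    (AddSubgroup.sub_mem _ h1 (h.hm' _ _ _ _ hR h2))

/-- **The conclusion.** -/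
lemma Sz.concl {k : ℕ} (hk : 0 < k) {y : K} (hy : hm k y ∈ WB x σ τ p l 𝔓 P (x v)) :
    MQ _ q (hm k y) := by
  have hl := h.l1
  have h2π : π ∉ 𝔓 ^ 2 := not_mem_sq (t : O →+* O) h.dv h3π
  refine h.of_QQ hy ?_
  have h1 := h.toSt.R_le hp h1π h2π hy
  have h2 := FF_le h.GZ_fil (y := yP x σ τ p b v π g ψ) (w := wP l r m p) ?_ k h1
  · rwa [h.GZ_pos (by omega)] at h2
  · rintro (_ | ⟨i, a⟩ | ⟨j, a⟩)
    · exact h.pi_mem h1π h3π
    · have h3 : wP l r m p (some (Sum.inl (i, a))) ≠ 0 :=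
        Nat.mul_ne_zero (Nat.succ_ne_zero _) (by omega)
      rw [h.GZ_pos h3]
      exact h.Y_all h1π h3π hp i a
    · have h3 : wP l r m p (some (Sum.inr (j, a))) ≠ 0 :=
        Nat.mul_ne_zero (Nat.succ_ne_zero _) (by omega)
      rw [h.GZ_pos h3]
      exact h.T_all h1π h3π hp j (by have := a.2; omega)

end vtx

theorem t_VNZ (hORB : S_ORB) (hFIXZ : S_FIXZ) : S_VNZ := by
  intro Λ O K _ _ _ _ _ _ x σ t τ p l 𝔓 hW n b P v hV q hq hZ k y hk hy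
  -- the prime ideal of the chart
  have hmem : ∀ c, Pool.Agent.K3h8.FixZ.evL O b x c ∈ WB x σ τ p l 𝔓 P (x v) := by
    intro c
    rw [Pool.Agent.K3h8.FixZ.evL_eq]
    exact ej_mem hW.toChr hV.bP c
  set φ : MvPolynomial (Fin n) O →ₐ[O] WB x σ τ p l 𝔓 P (x v) :=
    (Pool.Agent.K3h8.FixZ.evL O b x).codRestrict _ hmem with hφ
  obtain ⟨Q, hQ⟩ : ∃ Q : Ideal (MvPolynomial (Fin n) O), Q = Ideal.comap φ q := ⟨_, rfl⟩
  have hov : ∀ c, c ∈ Q ↔ MQ _ q (hm 0 (ev O b x c)) := by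
    intro c
    rw [hQ, Ideal.mem_comap]
    constructor
    · intro h1
      refine ⟨?_, ?_⟩
      · rw [← Pool.Agent.K3h8.FixZ.evL_eq]; exact hmem c
      · convert h1
        exact (Pool.Agent.K3h8.FixZ.evL_eq c).symm
    · rintro ⟨h1, h2⟩
      convert h2
      exact Pool.Agent.K3h8.FixZ.evL_eq c
  obtain ⟨hpr, hfx⟩ := hFIXZ Λ O K x σ t τ p l 𝔓 hW n b P v hV.vP hV.st hV.bP hV.nn q hZ Q hov
  have hS : Sz x σ t τ p l 𝔓 b P v Q q :=
    { toWd := hW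
      vx := hV
      fx := hfx
      pr := hq
      ov := hov
      zr := hZ }
  obtain ⟨r, g, m, ψ, hp⟩ := hS.toSt.pr_ex hORB
  obtain ⟨π, h1π, h3π⟩ := hW.un
  exact hS.concl h1π h3π hp hk hy

end Pool.Agent.K3h75.TO
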