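import Pool.Agent.K3h75.TO.Reg

/-!
# Algebraic tori over number fields: VREG
-/

set_option autoImplicit false
set_option linter.unusedSectionVars false
set_option linter.overlappingInstances false

namespace Pool.Agent.K3h75.TO

open Pool.Agent.Y223.G Pool.Agent.W418.LU2 MvPolynomial Module Pool.Agent.Y614.WC IsLocalRing
open Pool.Agent.K3h8.FixZ (Nn mn_add mn_zero)

section vtx

variable {Λ O K : Type} [AddCommGroup Λ] [CommRing O] [IsDomain O] [IsDedekindDomain O]
  [Field K] [Algebra O K] {x : Λ → K} {σ : K ≃+* K} {t : O ≃+* O} {τ : Λ →+ Λ} {p l : ℕ}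
  {𝔓 : Ideal O} {n : ℕ} {b : Basis (Fin n) ℤ Λ} {P : Finset Λ} {v : Λ}

/-- The coefficients of the elements of the graded algebra are in the ring of the chart. -/
lemma coeff_range (h : Wd Λ O K x σ t τ p l 𝔓) (hV : Vx b τ p P v) {d : ℤ} {y : K}
    (hy : hm d y ∈ WB x σ τ p l 𝔓 P (x v)) : ∃ c, ej O b x c = y := by
  have hPx : ∀ μ ∈ P, ∃ c, ej O b x c = x μ / x v := by
    intro μ hμ
    refine ⟨mn O b (μ - v), ?_⟩
    rw [ej_mn h.toChr (hV.nn μ hμ), h.toChr.sub]
  let F : ℕ → Set K := fun _ => {y | ∃ c, ej O b x c = y}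
  have h1 := coeff_filt (k := O) F ?_ ?_ ?_ ?_ ?_ _ ?_ (hm d y) hy d
  · rw [coeff_hm_same] at h1
    exact h1
  · intro k
    exact ⟨0, map_zero _⟩
  · rintro k y z ⟨c, rfl⟩ ⟨d, rfl⟩
    exact ⟨c + d, map_add _ _ _⟩
  · rintro m k y z ⟨c, rfl⟩ ⟨d, rfl⟩
    exact ⟨c * d, map_mul _ _ _⟩
  · intro m k hmk y hy
    exact hy
  · intro o
    exact ⟨C o, ej_C o⟩
  · rintro f (((rfl | ⟨e, he, rfl⟩) | ⟨μ, hμ, rfl⟩) | ⟨e, a, μ, ν, he1, he2, ha, hμ, hν, hN, rfl⟩)
    · exact ⟨-1, 1, ⟨1, map_one _⟩, rfl⟩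
    · exact ⟨1, _, ⟨C e, ej_C e⟩, rfl⟩
    · exact ⟨0, _, hPx μ hμ, rfl⟩
    · refine ⟨_, _, ?_, rfl⟩
      have h2 : ∀ a : ℕ, (df (σ^[e]))^[a] (x μ - x ν) ∈ AddSubgroup.closure (x '' (P : Set Λ)) := by
        intro a
        induction a with
        | zero =>
          exact AddSubgroup.sub_mem _ (AddSubgroup.subset_closure ⟨μ, hμ, rfl⟩)
            (AddSubgroup.subset_closure ⟨ν, hν, rfl⟩)
        | succ a ih =>
          rw [Function.iterate_succ_apply']
          refine AddSubgroup.sub_mem _ ?_ ih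
          have h3 : AddSubgroup.closure (x '' (P : Set Λ)) ≤
              (AddSubgroup.closure (x '' (P : Set Λ))).comap (sg σ e) := by
            rw [AddSubgroup.closure_le]
            rintro _ ⟨κ, hκ, rfl⟩
            change σ^[e] (x κ) ∈ AddSubgroup.closure (x '' (P : Set Λ))
            rw [h.it]
            exact AddSubgroup.subset_closure ⟨_, P_iter hV.st e hκ, rfl⟩
          exact h3 ih
      have h3 := h2 a
      generalize (df (σ^[e]))^[a] (x μ - x ν) = y at h3
      change ∃ c, ej O b x c = y / x v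
      induction h3 using AddSubgroup.closure_induction with
      | mem y hy =>
        obtain ⟨κ, hκ, rfl⟩ := hy
        exact hPx κ hκ
      | zero => exact ⟨0, by rw [map_zero, zero_div]⟩
      | add y z _ _ hy hz =>
        obtain ⟨c, hc⟩ := hy
        obtain ⟨d, hd⟩ := hz
        exact ⟨c + d, by rw [map_add, hc, hd, add_div]⟩
      | neg y _ hy =>
        obtain ⟨c, hc⟩ := hy
        exact ⟨-c, by rw [map_neg, hc, neg_div]⟩

end vtx

theorem t_VREG (hWCH : S_WCH) (hIND : S_IND) (hJAC : S_JAC) (hORB : S_ORB) : S_VREG := by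
  intro Λ O K _ _ _ _ _ _ x σ t τ p l 𝔓 hW n b P v hV
  refine hWCH O K (WB x σ τ p l 𝔓 P (x v)) (Pool.Agent.K3h66.TO.T.noeth (x v)) WB_gr WB_T ?_
    (MvPolynomial (Fin n) O) (ej O b x) (ej_inj hW.toChr b) ?_ inferInstance ?_
  · intro d y hy
    obtain ⟨c, rfl⟩ := coeff_range hW hV hy
    exact ej_mem hW.toChr hV.bP c
  · intro y
    constructor
    · exact fun hy => coeff_range hW hV hy
    · rintro ⟨c, rfl⟩
      exact ej_mem hW.toChr hV.bP c
  · intro Q _ hQ
    have hst : St x σ t τ p l 𝔓 b P v Q :=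
      { toWd := hW
        vx := hV
        fx :=
          { f1 := fun e he => hQ 1 (C e) one_pos (by
              rw [ej_C]
              exact WB_e he)
            f2 := fun μ hμ ν hν hN => hQ l _ hW.l1 (by
              rw [map_sub, ej_mn hW.toChr (hV.nn μ hμ), ej_mn hW.toChr (hV.nn ν hν),
                hW.toChr.sub, hW.toChr.sub, ← sub_div]
              have h1 := WB_D (x := x) (σ := σ) (τ := τ) (p := p) (l := l) (𝔓 := 𝔓) (P := P)
                (s := x v) (e := 1) (a := 0) le_rfl hW.pp.one_lt hW.pp.pos hμ hν hN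
              rw [zero_add, one_mul] at h1
              exact h1) } }
    obtain ⟨r, g, m, ψ, hp⟩ := hst.pr_ex hORB
    exact hst.local hp hIND hJAC

end Pool.Agent.K3h75.TO
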