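import Pool.Agent.K3h75.TO.Lr
import Pool.Agent.K3h66.TO.CH0
import Pool.Agent.K3h8.FixZ

/-!
# Algebraic tori over number fields: the local ring at a fixed point of the chart of a vertex
-/

set_option autoImplicit false
set_option linter.unusedSectionVars false
set_option linter.overlappingInstances false

namespace Pool.Agent.K3h75.TO

open Pool.Agent.Y223.G Pool.Agent.W418.LU2 MvPolynomial Module
open Pool.Agent.K3h8.FixZ (Nn mn_add mn_zero)
open Pool.Agent.K3h66.TO (ev_inj ev_mn)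

section lat

variable {Λ : Type} [AddCommGroup Λ] {n : ℕ} {b : Basis (Fin n) ℤ Λ} {I : Set (Fin n)}

lemma Sp_add {a c : Λ} (ha : Sp b I a) (hc : Sp b I c) : Sp b I (a + c) := fun i hi => by
  rw [map_add, Finsupp.add_apply, ha i hi, hc i hi, add_zero]

lemma Sp_neg {a : Λ} (ha : Sp b I a) : Sp b I (-a) := fun i hi => by
  rw [map_neg, Finsupp.neg_apply, ha i hi, neg_zero]

lemma Sp_sub {a c : Λ} (ha : Sp b I a) (hc : Sp b I c) : Sp b I (a - c) := by
  rw [sub_eq_add_neg]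
  exact Sp_add ha (Sp_neg hc)

lemma Sp_zero : Sp b I 0 := fun i _ => by rw [map_zero, Finsupp.zero_apply]

lemma Sp_nsmul {a : Λ} (ha : Sp b I a) (k : ℕ) : Sp b I (k • a) := by
  induction k with
  | zero => rw [zero_smul]; exact Sp_zero
  | succ k ih => rw [succ_nsmul]; exact Sp_add ih ha

lemma Sp_b {i : Fin n} (hi : i ∈ I) : Sp b I (b i) := fun j hj => by
  rw [Basis.repr_self, Finsupp.single_apply, if_neg]
  rintro rfl
  exact hj hi

lemma NN_add {a c : Λ} (ha : NN b I a) (hc : NN b I c) : NN b I (a + c) := fun i hi => by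
  rw [map_add, Finsupp.add_apply]
  exact add_nonneg (ha i hi) (hc i hi)

lemma NN_of_Sp {a : Λ} (ha : Sp b I a) : NN b I a := fun i hi => (ha i hi).ge

lemma NN_of_Nn {a : Λ} (ha : Nn b a) : NN b I a := fun i _ => ha i

lemma Nn_b (i : Fin n) : Nn b (b i) := fun j => by
  rw [Basis.repr_self, Finsupp.single_apply]
  split_ifs <;> norm_num

/-- An additive map sends `Sp` to `Sp` if this is so for the basis. -/
lemma Sp_map {τ : Λ →+ Λ} (h : ∀ i ∈ I, Sp b I (τ (b i))) {a : Λ} (ha : Sp b I a) :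
    Sp b I (τ a) := by
  intro j hj
  rw [← b.sum_repr a, map_sum, map_sum, Finsupp.finsetSum_apply]
  refine Finset.sum_eq_zero fun i _ => ?_
  rw [map_zsmul, map_zsmul, Finsupp.smul_apply, smul_eq_mul]
  by_cases hi : i ∈ I
  · rw [h i hi j hj, mul_zero]
  · rw [ha i hi, zero_mul]

lemma NN_map {τ : Λ →+ Λ} (h : ∀ i ∈ I, Sp b I (τ (b i))) (h' : ∀ i, NN b I (τ (b i))) {a : Λ}
    (ha : NN b I a) : NN b I (τ a) := by
  intro j hj
  rw [← b.sum_repr a, map_sum, map_sum, Finsupp.finsetSum_apply]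
  refine Finset.sum_nonneg fun i _ => ?_
  rw [map_zsmul, map_zsmul, Finsupp.smul_apply, smul_eq_mul]
  by_cases hi : i ∈ I
  · rw [h i hi j hj, mul_zero]
  · exact mul_nonneg (ha i hi) (h' i j hj)

end lat

section vtx

variable {Λ O K : Type} [AddCommGroup Λ] [CommRing O] [IsDomain O] [IsDedekindDomain O]
  [Field K] [Algebra O K] {x : Λ → K} {σ : K ≃+* K} {t : O ≃+* O} {τ : Λ →+ Λ} {p l : ℕ}
  {𝔓 : Ideal O} {n : ℕ} {b : Basis (Fin n) ℤ Λ} {P : Finset Λ} {v : Λ}
  {Q : Ideal (MvPolynomial (Fin n) O)}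

/-- The homomorphism of the chart. -/
noncomputable abbrev ej (O : Type) {K : Type} [CommRing O] [Field K] [Algebra O K] {Λ : Type}
    [AddCommGroup Λ] {n : ℕ} (b : Basis (Fin n) ℤ Λ) (x : Λ → K) :
    MvPolynomial (Fin n) O →+* K := (ev O b x : MvPolynomial (Fin n) O →+* K)

lemma ej_inj (h : Chr Λ O K x) (b : Basis (Fin n) ℤ Λ) : Function.Injective (ej O b x) :=
  ev_inj h b

lemma ej_mn (h : Chr Λ O K x) {a : Λ} (ha : Nn b a) : ej O b x (mn O b a) = x a :=
  ev_mn h b a ha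

lemma ej_C (o : O) : ej O b x (C o) = algebraMap O K o := by
  change ev O b x (C o) = _
  unfold ev
  rw [aeval_C]

lemma ej_X (i : Fin n) : ej O b x (X i) = x (b i) := by
  change ev O b x (X i) = _
  unfold ev
  rw [aeval_X]

/-- The set `I` of the coordinates which are units at `Q`. -/
def II (Q : Ideal (MvPolynomial (Fin n) O)) : Set (Fin n) := {i | (X i : MvPolynomial (Fin n) O) ∉ Q}

lemma mem_II {i : Fin n} : i ∈ II Q ↔ (X i : MvPolynomial (Fin n) O) ∉ Q := Iff.rfl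

lemma mn_b (i : Fin n) : mn O b (b i) = X i := by
  unfold mn X
  refine congrArg (fun m => monomial m (1 : O)) (Finsupp.ext fun j => ?_)
  unfold ps
  rw [Finsupp.mapRange_apply, Basis.repr_self, Finsupp.single_apply, Finsupp.single_apply]
  split_ifs <;> rfl

/-- A monomial which is not in `Q`. -/
lemma Sp_of_mn {a : Λ} (ha : Nn b a) (h : mn O b a ∉ Q) : Sp b (II Q) a := by
  intro i hi
  rw [mem_II, not_not] at hi
  by_contra h1
  apply h
  have h2 : Nn b (a - b i) := by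
    intro j
    rw [map_sub, Finsupp.sub_apply, Basis.repr_self, Finsupp.single_apply]
    split_ifs with h3
    · subst h3
      have := ha i
      omega
    · rw [sub_zero]
      exact ha j
  have h3 := mn_add (O := O) (Nn_b (b := b) i) h2
  rw [add_sub_cancel, mn_b] at h3
  rw [h3]
  exact Q.mul_mem_right _ hi

variable [hQ : Q.IsPrime]

lemma mn_of_Sp {a : Λ} (ha : Nn b a) (h : Sp b (II Q) a) : mn O b a ∉ Q := by
  unfold mn
  rw [monomial_eq, C_1, one_mul, Finsupp.prod_fintype _ _ (fun i => pow_zero _)]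
  intro h1
  obtain ⟨i, -, h2⟩ := (hQ.prod_mem_iff).1 h1
  by_cases hi : i ∈ II Q
  · exact hi (hQ.mem_of_pow_mem _ h2)
  · have h3 : ps b a i = 0 := by
      unfold ps
      rw [Finsupp.mapRange_apply, h i hi]
      rfl
    rw [h3, pow_zero] at h2
    exact one_notMem Q h2

/-- The standing hypotheses at a fixed point of the chart of a vertex. -/
structure St (x : Λ → K) (σ : K ≃+* K) (t : O ≃+* O) (τ : Λ →+ Λ) (p l : ℕ) (𝔓 : Ideal O)
    (b : Basis (Fin n) ℤ Λ) (P : Finset Λ) (v : Λ) (Q : Ideal (MvPolynomial (Fin n) O)) :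
    Prop extends Wd Λ O K x σ t τ p l 𝔓 where
  vx : Vx b τ p P v
  fx : Fx b τ p 𝔓 P v Q

variable (h : St x σ t τ p l 𝔓 b P v Q)
include h

lemma St.chr : Chr Λ O K x := h.toWd.toChr

lemma St.inj : Function.Injective (ej O b x) := ej_inj h.chr b

lemma St.nnP {a : Λ} (ha : a ∈ P) : Nn b (a - v) := h.vx.nn a ha

lemma St.sp_v (k : ℕ) : Sp b (II Q) (τ^[k] v - v) := by
  have h1 : τ^[k] v ∈ P := P_iter h.vx.st k h.vx.vP
  refine Sp_of_mn (O := O) (h.nnP h1) fun h2 => ?_
  have h3 := h.fx.f2 _ h1 _ h.vx.vP (by rw [Nm_sub, Nm_iter h.tp, sub_self])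
  rw [sub_self, mn_zero] at h3
  have h4 := Q.sub_mem h2 h3
  rw [sub_sub_cancel] at h4
  exact one_notMem Q h4

lemma St.cong_b (i : Fin n) : mn O b (τ (v + b i) - v) - X i ∈ Q := by
  have h3 := h.fx.f2 _ (h.vx.st _ (h.vx.bP i)) _ (h.vx.bP i) (by
    rw [Nm_sub, Nm_map h.tp, sub_self])
  rwa [add_sub_cancel_left, mn_b] at h3

lemma St.nn_b (i : Fin n) : NN b (II Q) (τ (b i)) := by
  intro j hj
  have h1 := h.nnP (h.vx.st _ (h.vx.bP i)) j
  have h2 := h.sp_v 1 j hj
  rw [Function.iterate_one] at h2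
  have h3 : τ (v + b i) - v = τ (b i) + (τ v - v) := by rw [map_add]; abel
  rw [h3, map_add, Finsupp.add_apply, h2, add_zero] at h1
  exact h1

lemma St.sp_b {i : Fin n} (hi : i ∈ II Q) : Sp b (II Q) (τ (b i)) := by
  have h1 := h.nnP (h.vx.st _ (h.vx.bP i))
  have h2 : mn O b (τ (v + b i) - v) ∉ Q := by
    intro h2
    have h3 := Q.sub_mem h2 (h.cong_b i)
    rw [sub_sub_cancel] at h3
    exact hi h3
  have h3 := Sp_sub (Sp_of_mn h1 h2) (h.sp_v 1)
  rw [Function.iterate_one] at h3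
  have h4 : τ (v + b i) - v - (τ v - v) = τ (b i) := by rw [map_add]; abel
  rwa [h4] at h3

lemma St.sp {a : Λ} (ha : Sp b (II Q) a) : Sp b (II Q) (τ a) := Sp_map (fun _ hi => h.sp_b hi) ha

lemma St.nn {a : Λ} (ha : NN b (II Q) a) : NN b (II Q) (τ a) :=
  NN_map (fun _ hi => h.sp_b hi) h.nn_b ha

lemma St.sp_it {a : Λ} (ha : Sp b (II Q) a) (k : ℕ) : Sp b (II Q) (τ^[k] a) := by
  induction k with
  | zero => exact ha
  | succ k ih => rw [Function.iterate_succ_apply']; exact h.sp ih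

lemma St.sp_dl {a : Λ} (ha : Sp b (II Q) a) (k : ℕ) : Sp b (II Q) ((dl τ)^[k] a) := by
  induction k with
  | zero => exact ha
  | succ k ih => rw [Function.iterate_succ_apply']; exact Sp_sub (h.sp ih) ih

lemma St.nm_dl {a : Λ} (ha : Nm τ p a = 0) (k : ℕ) : Nm τ p ((dl τ)^[k] a) = 0 := by
  induction k with
  | zero => exact ha
  | succ k ih =>
    rw [Function.iterate_succ_apply']
    change Nm τ p (τ _ - _) = 0
    rw [Nm_sub, Nm_map h.tp, ih, sub_zero]

/-! ## The local ring -/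

lemma St.x_unit {a : Λ} (ha : Nn b a) (ha' : Sp b (II Q) a) : x (-a) ∈ LL (ej O b x) Q := by
  have h1 := LL_inv_of h.inj (mn_of_Sp (O := O) ha ha')
  rw [ej_mn h.chr ha, ← h.chr.neg] at h1
  exact h1.2

lemma St.x_mem {a : Λ} (ha : NN b (II Q) a) : x a ∈ LL (ej O b x) Q := by
  classical
  -- `a + c` has nonnegative coordinates, with `c` in the span of the units
  obtain ⟨g, hg⟩ : ∃ g : Fin n → ℤ, g = fun i => if i ∈ II Q then |b.repr a i| else 0 := ⟨_, rfl⟩
  obtain ⟨c, hc⟩ : ∃ c : Λ, c = ∑ i, g i • b i := ⟨_, rfl⟩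
  have hcr : ∀ i, b.repr c i = g i := by
    intro i
    rw [hc, Basis.repr_sum_self]
  have h1 : Nn b c := by
    intro i
    rw [hcr, hg]
    simp only
    split_ifs
    · exact abs_nonneg _
    · exact le_rfl
  have h2 : Sp b (II Q) c := by
    intro i hi
    rw [hcr, hg]
    simp only
    rw [if_neg hi]
  have h3 : Nn b (a + c) := by
    intro i
    rw [map_add, Finsupp.add_apply, hcr, hg]
    simp only
    split_ifs with hi
    · have := neg_abs_le (b.repr a i)
      omega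
    · rw [add_zero]
      exact ha i hi
  have h4 : x a = x (a + c) * x (-c) := by rw [← h.chr.add, add_neg_cancel_right]
  rw [h4]
  refine Subring.mul_mem _ ?_ (h.x_unit h1 h2)
  rw [← ej_mn h.chr h3]
  exact LL_of _

lemma St.x_neg {a : Λ} (ha : Sp b (II Q) a) : (x a)⁻¹ ∈ LL (ej O b x) Q := by
  rw [← h.chr.neg]
  exact h.x_mem (NN_of_Sp (Sp_neg ha))

lemma St.x_notMem {a : Λ} (ha : Sp b (II Q) a) : x a ∉ MM (ej O b x) Q :=
  notMem_MM h.inj (h.chr.ne a) (h.x_neg ha)

/-- `y` is congruent to `1`. -/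
def U1 (j : MvPolynomial (Fin n) O →+* K) (Q : Ideal (MvPolynomial (Fin n) O)) [Q.IsPrime]
    (y : K) : Prop := y - 1 ∈ MM j Q

omit h in
lemma U1_L {y : K} (hy : U1 (ej O b x) Q y) : y ∈ LL (ej O b x) Q := by
  have h1 := Subring.add_mem _ (MM_le hy) (Subring.one_mem _)
  rwa [sub_add_cancel] at h1

omit h in
lemma U1_mul {y z : K} (hy : U1 (ej O b x) Q y) (hz : U1 (ej O b x) Q z) :
    U1 (ej O b x) Q (y * z) := by
  have h1 := (MM (ej O b x) Q).add_mem (MM_mul (U1_L hy) hz) hy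
  have h2 : y * (z - 1) + (y - 1) = y * z - 1 := by ring
  rwa [h2] at h1

lemma St.U1_inv {y : K} (hy : U1 (ej O b x) Q y) : y ≠ 0 ∧ U1 (ej O b x) Q y⁻¹ := by
  have h0 : y ∉ MM (ej O b x) Q := by
    intro h1
    have h2 := (MM (ej O b x) Q).sub_mem h1 hy
    rw [sub_sub_cancel] at h2
    exact MM_one h.inj h2
  obtain ⟨h1, h2⟩ := LL_inv h.inj (U1_L hy) h0
  refine ⟨h1, ?_⟩
  have h3 := (MM (ej O b x) Q).neg_mem (MM_mul h2 hy)
  have h4 : -(y⁻¹ * (y - 1)) = y⁻¹ - 1 := by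
    field_simp
    ring
  rwa [h4] at h3

omit h in
lemma U1_one : U1 (ej O b x) Q 1 := by
  unfold U1
  rw [sub_self]
  exact AddSubgroup.zero_mem _

omit h in
lemma U1_pow {y : K} (hy : U1 (ej O b x) Q y) (k : ℕ) : U1 (ej O b x) Q (y ^ k) := by
  induction k with
  | zero => rw [pow_zero]; exact U1_one
  | succ k ih => rw [pow_succ]; exact U1_mul ih hy

lemma St.U1_v (k : ℕ) : U1 (ej O b x) Q (x (τ^[k] v - v)) := by
  have h1 : τ^[k] v ∈ P := P_iter h.vx.st k h.vx.vP
  have h3 := h.fx.f2 _ h1 _ h.vx.vP (by rw [Nm_sub, Nm_iter h.tp, sub_self])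
  rw [sub_self, mn_zero] at h3
  have h4 := MM_of (j := ej O b x) h3
  rw [map_sub, map_one, ej_mn h.chr (h.nnP h1)] at h4
  exact h4

/-- `x (τ (b i))` is congruent to `x (b i)`. -/
lemma St.cong (i : Fin n) : x (τ (b i)) - x (b i) ∈ MM (ej O b x) Q := by
  have h1 := MM_of (j := ej O b x) (h.cong_b i)
  rw [map_sub, ej_mn h.chr (h.nnP (h.vx.st _ (h.vx.bP i))), ej_X] at h1
  have h2 := (h.U1_inv (h.U1_v 1)).2
  rw [Function.iterate_one, ← h.chr.neg, neg_sub] at h2
  have h3 : x (τ (b i)) = x (τ (v + b i) - v) * x (v - τ v) := by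
    rw [← h.chr.add, map_add]
    congr 1
    abel
  have h4 : x (τ (b i)) - x (b i) = x (v - τ v) * (x (τ (v + b i) - v) - x (b i)) +
      x (b i) * (x (v - τ v) - 1) := by
    rw [h3]
    ring
  rw [h4]
  refine AddSubgroup.add_mem _ (MM_mul (U1_L h2) h1) (MM_mul ?_ h2)
  exact h.x_mem (NN_of_Nn (Nn_b i))

lemma St.U1_sum {s : Finset (Fin n)} {f : Fin n → Λ} (hf : ∀ i ∈ s, U1 (ej O b x) Q (x (f i))) :
    U1 (ej O b x) Q (x (∑ i ∈ s, f i)) := by
  classical
  induction s using Finset.induction_on with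
  | empty =>
    rw [Finset.sum_empty, h.chr.zero]
    exact U1_one
  | insert a s ha ih =>
    rw [Finset.sum_insert ha, h.chr.add]
    exact U1_mul (hf _ (Finset.mem_insert_self _ _)) (ih fun i hi =>
      hf i (Finset.mem_insert_of_mem hi))

lemma St.U1_zsmul {a : Λ} (ha : U1 (ej O b x) Q (x a)) (k : ℤ) :
    U1 (ej O b x) Q (x (k • a)) := by
  obtain ⟨m, rfl | rfl⟩ := Int.eq_nat_or_neg k
  · rw [natCast_zsmul, h.chr.nsmul]
    exact U1_pow ha m
  · rw [neg_smul, natCast_zsmul, h.chr.neg, h.chr.nsmul]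
    exact (h.U1_inv (U1_pow ha m)).2

/-- `x (τ a)` is congruent to `x a` for the units. -/
lemma St.U1_tau {a : Λ} (ha : Sp b (II Q) a) : U1 (ej O b x) Q (x (τ a - a)) := by
  have h1 : τ a - a = ∑ i, b.repr a i • (τ (b i) - b i) := by
    conv_lhs => rw [← b.sum_repr a]
    rw [map_sum, ← Finset.sum_sub_distrib]
    refine Finset.sum_congr rfl fun i _ => ?_
    rw [map_zsmul, smul_sub]
  rw [h1]
  refine h.U1_sum fun i _ => ?_
  by_cases hi : i ∈ II Q
  · refine h.U1_zsmul ?_ _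
    have h2 := MM_mul (h.x_neg (Sp_b hi)) (h.cong i)
    rw [mul_sub, inv_mul_cancel₀ (h.chr.ne _), inv_mul_eq_div, ← h.chr.sub] at h2
    exact h2
  · rw [ha i hi, zero_smul, h.chr.zero]
    exact U1_one

lemma St.U1_it {a : Λ} (ha : Sp b (II Q) a) (k : ℕ) : U1 (ej O b x) Q (x (τ^[k] a - a)) := by
  induction k with
  | zero =>
    change U1 (ej O b x) Q (x (a - a))
    rw [sub_self, h.chr.zero]
    exact U1_one
  | succ k ih =>
    rw [Function.iterate_succ_apply']
    have h1 := U1_mul (h.U1_tau (h.sp_it ha k)) ih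
    rw [← h.chr.add, sub_add_sub_cancel] at h1
    exact h1

lemma St.p_MM : (p : K) ∈ MM (ej O b x) Q := by
  have h1 := MM_of (j := ej O b x) (h.fx.f1 _ h.p_mem)
  rw [ej_C, map_natCast] at h1
  exact h1

/-- `x a` is congruent to `1` if the norm of `a` is zero. -/
lemma St.U1_nm {a : Λ} (ha : Sp b (II Q) a) (hN : Nm τ p a = 0) : U1 (ej O b x) Q (x a) := by
  have h1 : U1 (ej O b x) Q (x a ^ p) := by
    have h2 : U1 (ej O b x) Q (x (∑ k ∈ Finset.range p, (τ^[k] a - a))) := by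
      have h3 : ∀ m : ℕ, U1 (ej O b x) Q (x (∑ k ∈ Finset.range m, (τ^[k] a - a))) := by
        intro m
        induction m with
        | zero =>
          rw [Finset.sum_range_zero, h.chr.zero]
          exact U1_one
        | succ m ih =>
          rw [Finset.sum_range_succ, h.chr.add]
          exact U1_mul ih (h.U1_it ha m)
      exact h3 p
    have h4 : ∑ k ∈ Finset.range p, (τ^[k] a - a) = -(p • a) := by
      rw [Finset.sum_sub_distrib, Finset.sum_const, Finset.card_range]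
      change Nm τ p a - _ = _
      rw [hN, zero_sub]
    rw [h4, h.chr.neg, h.chr.nsmul] at h2
    have h5 := (h.U1_inv h2).2
    rwa [inv_inv] at h5
  -- the binomial formula
  have hL : x a ∈ LL (ej O b x) Q := h.x_mem (NN_of_Sp ha)
  obtain ⟨r, hr⟩ := exists_add_pow_prime_eq h.pp (⟨x a, hL⟩ : LL (ej O b x) Q) (-1)
  have hr' := congrArg (fun y : LL (ej O b x) Q => (y : K)) hr
  have h6 : (x a - 1) ^ p ∈ MM (ej O b x) Q := by
    have h7 : (x a - 1) ^ p = (x a ^ p - 1) + (1 + (-1) ^ p) + p * (x a * (-1) * r) := by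
      have h8 : (x a + -1) ^ p = x a ^ p + (-1) ^ p + p * x a * (-1) * r := by
        simpa using hr'
      rw [sub_eq_add_neg, h8]
      ring
    rw [h7]
    refine AddSubgroup.add_mem _ (AddSubgroup.add_mem _ h1 ?_) ?_
    · rcases h.pp.eq_two_or_odd' with h9 | h9
      · have h10 := h.p_MM
        rw [h9] at h10 ⊢
        norm_num
        exact_mod_cast h10
      · rw [h9.neg_one_pow, add_neg_cancel]
        exact AddSubgroup.zero_mem _
    · rw [mul_comm]
      refine MM_mul ?_ h.p_MM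
      refine Subring.mul_mem _ (Subring.mul_mem _ hL ?_) r.2
      exact Subring.neg_mem _ (Subring.one_mem _)
  refine MM_of_pow h.inj ?_ h6
  exact Subring.sub_mem _ hL (Subring.one_mem _)

end vtx

end Pool.Agent.K3h75.TO
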